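import Pool.Agent.TH277.MR.O

/-!
Actions of a group `A` through a dense homomorphism to the torus: the dichotomy for translates.
-/

set_option autoImplicit false

open Filter Topology Matrix MeasureTheory Set
open scoped ENNReal

namespace Pool.Agent.TH277.MR

variable {I : Type*} [Fintype I] [DecidableEq I] {n : I → ℕ}

variable {X : Type*} [TopologicalSpace X] [PolishSpace X] [MeasurableSpace X] [BorelSpace X]
  [MulAction (PG n) X] [ContinuousSMul (PG n) X] {A : Type*} [Group A] [MulAction A X]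
  [MeasurableConstSMul A X] {π : A →* PG n}

/-- the root relation of the stabiliser -/
def RR (ν : Measure X) (v : I) (i j : Fin (n v)) : Prop :=
  ∀ (h : i ≠ j) (x : ℝ), sg v (tv h x) ∈ stabG (G := PG n) ν

omit [Fintype I] [PolishSpace X] in
lemma RR_trans (ν : Measure X) (v : I) (i j k : Fin (n v)) (h1 : RR ν v i j)
    (h2 : RR ν v j k) : RR ν v i k := by
  intro hik x
  by_cases hij : i = j
  · subst hij
    exact h2 hik x
  by_cases hjk : j = k
  · subst hjk
    exact h1 hik x
  rw [tv_comm hij hjk hik]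
  have e : sg v (tv hij x * tv hjk 1 * (tv hij x)⁻¹ * (tv hjk 1)⁻¹) =
      sg v (tv hij x) * sg v (tv hjk 1) * (sg v (tv hij x))⁻¹ * (sg v (tv hjk 1))⁻¹ := by
    unfold sg
    rw [map_mul, map_mul, map_mul, map_inv, map_inv]
  rw [e]
  exact (stabG ν).mul_mem ((stabG ν).mul_mem ((stabG ν).mul_mem (h1 hij x) (h2 hjk 1))
    ((stabG ν).inv_mem (h1 hij x))) ((stabG ν).inv_mem (h2 hjk 1))

/-- a sequence of small elements whose components have entries only at roots of the stabiliser and
whose translates overlap the measure lies in the stabiliser eventually -/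
lemma small_mem (hπ : DenseAct X π) {ν : Measure X} [IsProbabilityMeasure ν]
    (hν : ∀ a : A, ν.map (fun x => a • x) = ν) (he : Erg (maps A X) ν) {c : ℝ} (hc : 0 < c)
    (M : ℕ → PG n) (hM1 : Tendsto M atTop (𝓝 1)) (ho : ∀ k, Ov c ν (ν.map fun x => M k • x))
    (hsupp : ∀ k v i j, i ≠ j → M k v i j ≠ 0 → RR ν v i j) :
    ∀ᶠ k in atTop, M k ∈ stabG ν := by
  have h1 : ∀ᶠ k in atTop, ∀ v : I, ∃ h₁ : SLR (Fin (n v)), sg v h₁ ∈ stabG (G := PG n) ν ∧
      ∃ h₂ : SLR (Fin (n v)), sg v h₂ ∈ stabG (G := PG n) ν ∧ ∃ d : SLR (Fin (n v)),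
        IsPosDiag d ∧ M k v = h₁ * d * h₂ := by
    rw [eventually_all]
    intro v
    set H : Subgroup (SLR (Fin (n v))) := (stabG (G := PG n) ν).comap
      (MonoidHom.mulSingle (fun v => Matrix.SpecialLinearGroup (Fin (n v)) ℝ) v) with hH
    have h2 := elim' H (RR ν v) (fun i j h hr x => hr h x) (RR_trans ν v) Finset.univ
    filter_upwards [((tendsto_pi_nhds.1 hM1) v).eventually h2] with k hk
    obtain ⟨h₁, hh₁, h₂, hh₂, d, hd, hMd⟩ := hk (fun i j hij hne => hsupp k v i j hij hne)
      (fun i hi => absurd (Finset.mem_univ i) hi)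
    exact ⟨h₁, hh₁, h₂, hh₂, d, hd, hMd⟩
  filter_upwards [h1] with k hk
  choose h₁ hh₁ h₂ hh₂ d hd hMd using hk
  have m1 : (h₁ : PG n) ∈ stabG (G := PG n) ν := mem_of_factors _ h₁ hh₁
  have m2 : (h₂ : PG n) ∈ stabG (G := PG n) ν := mem_of_factors _ h₂ hh₂
  have hMk : M k = (h₁ : PG n) * d * h₂ := by
    funext v
    exact hMd v
  have hm : ∀ g : PG n, Measurable fun x : X => g • x := fun g => measurable_const_smul g
  have h3 := ho k
  rw [hMk] at h3
  have e : (fun x : X => ((h₁ : PG n) * d * h₂) • x) =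
      (fun x => (h₁ : PG n) • x) ∘ (fun x => (d : PG n) • x) ∘ fun x => (h₂ : PG n) • x := by
    funext x
    simp only [Function.comp_apply]
    rw [mul_smul, mul_smul]
  have m1' : ν.map (fun x => (h₁ : PG n) • x) = ν := m1
  have m2' : ν.map (fun x => (h₂ : PG n) • x) = ν := m2
  rw [e, ← Measure.map_map (hm _) ((hm _).comp (hm _)), ← Measure.map_map (hm _) (hm _), m2'] at h3
  have h4 := h3.map (hm (h₁ : PG n)⁻¹)
  rw [map_inv_map'] at h4
  have m3 : ν.map (fun x => (h₁ : PG n)⁻¹ • x) = ν := (stabG ν).inv_mem m1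
  rw [m3] at h4
  have h5 : (d : PG n) ∈ stabG ν := torus_mem hπ hν he hc (d := d) hd h4
  rw [hMk]
  exact (stabG ν).mul_mem ((stabG ν).mul_mem m1 h5) m2

/-- entries of commutators with torus elements are roots of the stabiliser -/
lemma entry_root (hπ : DenseAct X π) {μ ν : Measure X} [IsProbabilityMeasure μ]
    [IsProbabilityMeasure ν] (hμ : ∀ a : A, μ.map (fun x => a • x) = μ)
    (hν : ∀ a : A, ν.map (fun x => a • x) = ν) (he : Erg (maps A X) ν)
    (g : PG n) {κ : Measure X} (hκ1 : κ ≤ μ)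
    (hκ2 : κ ≤ ν.map fun x => g • x) {N : ℕ} (hN : 2 ≤ N * κ.real univ)
    (v : I) {t : SLR (Fin (n v))} (ht : IsPosDiag t) {i j : Fin (n v)} (hij : i ≠ j)
    (hne : ((g v)⁻¹ * t * g v * t⁻¹) i j ≠ 0) : RR ν v i j := by
  intro _ x
  have hN0 : (0 : ℝ) < N := by
    rcases (Nat.cast_nonneg N : (0 : ℝ) ≤ N).lt_or_eq with h | h
    · exact h
    · rw [← h, zero_mul] at hN
      linarith
  have hδ : (0 : ℝ) < 1 / (2 * (N : ℝ) ^ 2) := by positivity
  obtain ⟨w, hw, rfl⟩ := exists_ex ht
  have hι : (Fintype.card (Fin (n v)) : ℝ) ≠ 0 := by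
    have : Nonempty (Fin (n v)) := ⟨i⟩
    exact_mod_cast Fintype.card_ne_zero
  set a₀ : ℝ := (∑ m, Real.exp (w m)) / Fintype.card (Fin (n v)) with ha₀
  set u : Fin (n v) → ℝ := fun m => Real.exp (w m) - a₀ with hu
  have hus : ∑ m, u m = 0 := by
    simp only [hu]
    rw [Finset.sum_sub_distrib, Finset.sum_const, Finset.card_univ, nsmul_eq_mul, ha₀,
      mul_div_cancel₀ _ hι, sub_self]
  set V : ∀ w : I, Fin (n w) → ℝ :=
    Function.update (β := fun w : I => Fin (n w) → ℝ) (fun _ _ => 0) v u with hVdef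
  have hVv : V v = u := Function.update_self (β := fun w : I => Fin (n w) → ℝ) v u (fun _ _ => 0)
  have hV : ∀ w, ∑ m, V w m = 0 := by
    intro w'
    by_cases h : w' = v
    · subst h
      rw [hVv]
      exact hus
    · have : V w' = fun _ => 0 :=
        Function.update_of_ne (β := fun w : I => Fin (n w) → ℝ) h u (fun _ _ => 0)
      rw [this]
      simp
  obtain ⟨a, σ, U, hS⟩ := seqs hπ hμ hν g hκ1 hκ2 hN V hV
  -- the first order part
  have hsum0 : ∑ m, (g v)⁻¹ i m * g v m j = 0 := by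
    have := sum_ginv (g v)⁻¹ i j
    rw [inv_inv, Matrix.one_apply_ne hij] at this
    exact this
  have hZ : ∑ m, (V v m - V v j) * ((g v)⁻¹ i m * g v m j) ≠ 0 := by
    rw [hVv]
    have h1 : ∑ m, (u m - u j) * ((g v)⁻¹ i m * g v m j) =
        Real.exp (w j) * (((g v)⁻¹ * ex w hw 1 * g v * (ex w hw 1)⁻¹) i j) := by
      have h2 := comm_entry (g v) w hw 1 i j
      rw [Matrix.one_apply_ne hij, sub_zero] at h2
      rw [h2, Finset.mul_sum]
      have h3 : ∀ m, Real.exp (w j) * ((Real.exp (1 * (w m - w j)) - 1) *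
          ((g v)⁻¹ i m * g v m j)) = (u m - u j) * ((g v)⁻¹ i m * g v m j) := fun m => by
        have h4 : Real.exp (w j) * Real.exp (1 * (w m - w j)) = Real.exp (w m) := by
          rw [← Real.exp_add]
          ring_nf
        simp only [hu]
        linear_combination ((g v)⁻¹ i m * g v m j) * h4
      rw [Finset.sum_congr rfl fun m _ => h3 m]
    rw [h1]
    exact mul_ne_zero (Real.exp_pos _).ne' hne
  have hWc : ∀ k w', Wc g (π (a k)) w' = (g w')⁻¹ * ex (U k w') (hS.sum k w') (σ k) * g w' *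
      (ex (U k w') (hS.sum k w') (σ k))⁻¹ := fun k w' => by
    rw [Wc_apply, hS.eq]
  have hM : ∀ (w' : I) (p q : Fin (n w')), Tendsto (fun k => (Wc g (π (a k)) w' p q -
      (1 : Matrix (Fin (n w')) (Fin (n w')) ℝ) p q) / σ k) atTop
      (𝓝 (∑ m, (V w' m - V w' q) * ((g w')⁻¹ p m * g w' m q))) := by
    intro w' p q
    simp_rw [hWc]
    exact comm_lim (g w') (V w') (fun k => U k w') (fun k => hS.sum k w') σ hS.pos hS.lim
      (fun m => hS.dir w' m) p q
  have hM1 : Tendsto (fun k => Wc g (π (a k))) atTop (𝓝 1) := by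
    rw [tendsto_pi_nhds]
    intro w'
    refine tendsto_sl.2 fun p q => ?_
    have h1 := (hM w' p q).mul hS.lim
    rw [mul_zero] at h1
    have h2 := h1.add_const ((1 : Matrix (Fin (n w')) (Fin (n w')) ℝ) p q)
    rw [zero_add] at h2
    refine h2.congr fun k => ?_
    rw [div_mul_cancel₀ _ (hS.pos k).ne', sub_add_cancel]
  exact root_mem hπ hν he hδ (fun k => Wc g (π (a k))) hM1 hS.ov hij σ _ hS.pos hS.lim
    (hM v) hZ x

/-- **All commutators with the torus lie in the stabiliser.** -/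
theorem comm_mem (hπ : DenseAct X π) {μ ν : Measure X} [IsProbabilityMeasure μ]
    [IsProbabilityMeasure ν] (hμ : ∀ a : A, μ.map (fun x => a • x) = μ)
    (hν : ∀ a : A, ν.map (fun x => a • x) = ν) (he : Erg (maps A X) ν)
    (g : PG n) (hns : ¬ μ ⟂ₘ ν.map fun x => g • x) {t : PG n} (ht : PD t) :
    Wc g t ∈ stabG ν := by
  have hmg : Measurable fun x : X => g • x := measurable_const_smul g
  have hprob : IsProbabilityMeasure (ν.map fun x => g • x) :=
    Measure.isProbabilityMeasure_map hmg.aemeasurable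
  set κ := μ ⊓ ν.map fun x => g • x with hκ
  have hκ0 : κ ≠ 0 := inf_ne hns
  have hκ1 : κ ≤ μ := inf_le_left
  have hκ2 : κ ≤ ν.map fun x => g • x := inf_le_right
  have hfin : IsFiniteMeasure κ := isFiniteMeasure_of_le μ hκ1
  have hc0 : 0 < κ.real univ := by
    rw [measureReal_def]
    refine ENNReal.toReal_pos ?_ (measure_ne_top _ _)
    rwa [Measure.measure_univ_ne_zero]
  obtain ⟨N, hN'⟩ := exists_nat_ge (2 / κ.real univ)
  have hN : 2 ≤ N * κ.real univ := by
    rwa [div_le_iff₀ hc0] at hN'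
  have hN0 : (0 : ℝ) < N := by
    rcases (Nat.cast_nonneg N : (0 : ℝ) ≤ N).lt_or_eq with h | h
    · exact h
    · rw [← h, zero_mul] at hN
      linarith
  have hδ : (0 : ℝ) < 1 / (2 * (N : ℝ) ^ 2) := by positivity
  set V : ∀ w : I, Fin (n w) → ℝ := fun w m => Lg t w m / 1 with hVdef
  have hV : ∀ w, ∑ m, V w m = 0 := by
    intro w
    simp only [hVdef, div_one]
    exact posdiag_log (ht w)
  have htV : ∀ w, t w = ex (V w) (hV w) 1 := fun w => posdiag_ex (ht w) one_ne_zero (hV w)
  obtain ⟨a, σ, U, hS⟩ := seqs hπ hμ hν g hκ1 hκ2 hN V hV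
  have hM1 : Tendsto (fun k => Wc g (π (a k))) atTop (𝓝 1) := by
    have h1 : Tendsto (fun k => π (a k)) atTop (𝓝 1) := by
      rw [tendsto_pi_nhds]
      intro w
      refine tendsto_sl.2 fun p q => ?_
      simp_rw [hS.eq, ex_apply]
      by_cases hpq : p = q
      · subst hpq
        simp only [if_true]
        have h2 := (hS.lim.mul (hS.dir w p)).rexp
        rw [zero_mul, Real.exp_zero] at h2
        simpa using h2
      · simp only [if_neg hpq]
        have : ((1 : PG n) w) p q = 0 := by simp [hpq]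
        rw [this]
        exact tendsto_const_nhds
    have h2 := ((h1.mul_const g).mul h1.inv).const_mul g⁻¹
    rw [one_mul, inv_one, mul_one, inv_mul_cancel] at h2
    exact h2
  have hev := small_mem hπ hν he hδ (fun k => Wc g (π (a k))) hM1 hS.ov
    (fun k v i j hij hne => by
      rw [Wc_apply] at hne
      exact entry_root hπ hμ hν he g hκ1 hκ2 hN v (hπ.pos (a k) v) hij hne)
  -- powers
  have hpow : ∀ (s : PG n), PD s → Wc g s ∈ stabG ν → ∀ m : ℕ, PD (s ^ m) ∧
      Wc g (s ^ m) ∈ stabG ν := by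
    intro s hs hmem m
    induction m with
    | zero =>
      refine ⟨fun v => by rw [pow_zero]; exact posdiag_one, ?_⟩
      rw [pow_zero]
      have : Wc g 1 = 1 := by
        unfold Wc
        group
      rw [this]
      exact (stabG ν).one_mem
    | succ m ih =>
      refine ⟨fun v => ?_, ?_⟩
      · rw [pow_succ, Pi.mul_apply]
        obtain ⟨w1, hw1, e1⟩ := exists_ex (ih.1 v)
        obtain ⟨w2, hw2, e2⟩ := exists_ex (hs v)
        have hw3 : ∑ i, (w1 i + w2 i) = 0 := by
          rw [Finset.sum_add_distrib, hw1, hw2, add_zero]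
        have e3 : (s ^ m) v * s v = ex (fun i => w1 i + w2 i) hw3 1 := by
          rw [e1, e2]
          apply Subtype.ext
          change Matrix.diagonal _ * Matrix.diagonal _ = Matrix.diagonal _
          rw [Matrix.diagonal_mul_diagonal]
          congr 1
          funext i
          rw [← Real.exp_add]
          ring_nf
        rw [e3]
        exact ex_pos _ _ _
      · rw [pow_succ, Wc_mul]
        exact (stabG ν).mul_mem ih.2 (stab_conj hπ hν hmem ih.1)
  -- the limit
  have hlimt : Tendsto (fun k => π (a k) ^ ⌊1 / σ k⌋₊) atTop (𝓝 t) := by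
    have hmσ : Tendsto (fun k => (⌊1 / σ k⌋₊ : ℝ) * σ k) atTop (𝓝 1) := by
      have h1 : ∀ k, |(⌊1 / σ k⌋₊ : ℝ) * σ k - 1| ≤ σ k := fun k => by
        have h2 := Nat.floor_le (div_nonneg zero_le_one (hS.pos k).le)
        have h3 := Nat.lt_floor_add_one (1 / σ k)
        have h4 : 1 / σ k * σ k = 1 := div_mul_cancel₀ _ (hS.pos k).ne'
        have h5 := mul_le_mul_of_nonneg_right h2 (hS.pos k).le
        have h6 := mul_le_mul_of_nonneg_right h3.le (hS.pos k).le
        rw [abs_le]
        constructor <;> nlinarith [hS.pos k]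
      rw [tendsto_iff_dist_tendsto_zero]
      refine squeeze_zero (fun k => dist_nonneg) (fun k => ?_) hS.lim
      rw [Real.dist_eq]
      exact h1 k
    rw [tendsto_pi_nhds]
    intro w
    have h1 : ∀ k, (π (a k) ^ ⌊1 / σ k⌋₊) w =
        ex (U k w) (hS.sum k w) ((⌊1 / σ k⌋₊ : ℝ) * σ k) := fun k => by
      rw [Pi.pow_apply, hS.eq, ex_nsmul]
    simp_rw [h1]
    rw [htV w]
    refine tendsto_sl.2 fun p q => ?_
    simp_rw [ex_apply]
    by_cases hpq : p = q
    · subst hpq
      simp only [if_true]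
      exact (hmσ.mul (hS.dir w p)).rexp
    · simp only [if_neg hpq]
      exact tendsto_const_nhds
  have hlimW : Tendsto (fun k => Wc g (π (a k) ^ ⌊1 / σ k⌋₊)) atTop (𝓝 (Wc g t)) :=
    ((hlimt.mul_const g).mul hlimt.inv).const_mul g⁻¹
  obtain ⟨k₀, hk₀⟩ := eventually_atTop.1 hev
  exact mem_stab_lim (M := fun k => Wc g (π (a (k + k₀)) ^ ⌊1 / σ (k + k₀)⌋₊))
    (fun k => (hpow _ (hπ.pos _) (hk₀ _ (Nat.le_add_left _ _)) _).2)
    (hlimW.comp (tendsto_add_atTop_nat k₀))

/-- **Translates of ergodic measures are equal or singular.** -/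
theorem translates_main (hπ : DenseAct X π) {μ ν : Measure X} [IsProbabilityMeasure μ]
    [IsProbabilityMeasure ν] (hμ : ∀ a : A, μ.map (fun x => a • x) = μ)
    (hν : ∀ a : A, ν.map (fun x => a • x) = ν) (eμ : Erg (maps A X) μ) (eν : Erg (maps A X) ν)
    (g : PG n) : μ = ν.map (fun x => g • x) ∨ μ ⟂ₘ ν.map fun x => g • x := by
  by_cases hns : μ ⟂ₘ ν.map fun x => g • x
  · exact Or.inr hns
  have hm : ∀ g : PG n, Measurable fun x : X => g • x := fun g => measurable_const_smul g
  have hma : ∀ a : A, Measurable fun x : X => a • x := fun a => measurable_const_smul a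
  set ρ := ν.map fun x => g • x with hρ
  have hprob : IsProbabilityMeasure ρ := Measure.isProbabilityMeasure_map (hm g).aemeasurable
  -- general fact: a translate is `A`-invariant
  have hinv : ∀ (α : Measure X) (c : PG n), (∀ a : A, α.map (fun x => a • x) = α) →
      (∀ t, PD t → Wc c t ∈ stabG (G := PG n) α) →
      ∀ a : A, (α.map fun x => c • x).map (fun x => a • x) = α.map fun x => c • x := by
    intro α c hα hW a
    rw [map_act hπ (hα a) c]
    have e : π a * c * (π a)⁻¹ = c * Wc c (π a) := by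
      unfold Wc
      group
    have h1 : α.map (fun x => Wc c (π a) • x) = α := hW _ (hπ.pos a)
    have e2 : (fun x : X => (π a * c * (π a)⁻¹) • x) =
        (fun x => c • x) ∘ fun x => Wc c (π a) • x := by
      funext x
      rw [Function.comp_apply, ← mul_smul, e]
    rw [e2, ← Measure.map_map (hm _) (hm _), h1]
  have hρA := hinv ν g hν (fun t ht => comm_mem hπ hμ hν eν g hns ht)
  have hns' : ¬ ν ⟂ₘ μ.map fun x => g⁻¹ • x := by
    intro h
    apply hns
    refine (sing_of_map g⁻¹ ?_).symm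
    rw [hρ, map_inv_map' g]
    exact h
  have hμA := hinv μ g⁻¹ hμ (fun t ht => comm_mem hπ hν hμ eμ g⁻¹ hns' ht)
  -- the second family of maps
  set ℬ : Set (X → X) := {f | ∃ a : A, f = fun x => g • a • g⁻¹ • x} with hℬ
  have p1 : Pres (maps A X) μ := by
    rintro f ⟨a, rfl⟩
    exact ⟨hma a, hμ a⟩
  have p2 : Pres (maps A X) ρ := by
    rintro f ⟨a, rfl⟩
    exact ⟨hma a, hρA a⟩
  have hcomp : ∀ (α : Measure X) (a : A), α.map (fun x => g • a • g⁻¹ • x) =
      ((α.map fun x => g⁻¹ • x).map fun x => a • x).map fun x => g • x := by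
    intro α a
    rw [Measure.map_map (hma a) (hm _), Measure.map_map (hm _) ((hma a).comp (hm _))]
    rfl
  have hmB : ∀ a : A, Measurable fun x : X => g • a • g⁻¹ • x := fun a =>
    (hm g).comp ((hma a).comp (hm g⁻¹))
  have p3 : Pres ℬ μ := by
    rintro f ⟨a, rfl⟩
    refine ⟨hmB a, ?_⟩
    rw [hcomp, hμA a]
    exact map_inv_map g
  have p4 : Pres ℬ ρ := by
    rintro f ⟨a, rfl⟩
    refine ⟨hmB a, ?_⟩
    rw [hcomp, hρ, map_inv_map' g, hν a]
  have e4 : Erg ℬ ρ := by
    intro E hE hf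
    have hq : Measure.QuasiMeasurePreserving (fun x : X => g • x) ν ρ :=
      ⟨hm g, Measure.AbsolutelyContinuous.rfl⟩
    have h4 := eν _ (hm g hE) (fun f hff => ?_)
    · rw [hρ, Measure.map_apply (hm g) hE, Measure.map_apply (hm g) hE.compl]
      exact h4
    · obtain ⟨a, rfl⟩ := hff
      have h5 := hq.preimage_ae_eq (hf _ ⟨a, rfl⟩)
      have e : (fun x : X => g • x) ⁻¹' ((fun x : X => g • a • g⁻¹ • x) ⁻¹' E) =
          (fun x : X => a • x) ⁻¹' ((fun x : X => g • x) ⁻¹' E) := by
        ext x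
        simp only [mem_preimage]
        rw [inv_smul_smul]
      rwa [e] at h5
  rcases eq_or_sing (by rw [measure_univ, measure_univ]) p1 p2 p3 p4 eμ e4 with h | h
  · exact Or.inl h
  · exact absurd h hns

end Pool.Agent.TH277.MR
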