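import Pool.Agent.TH277.MR.P2

/-!
Invariant measures and translates along a locally compact abelian group: a decomposition.
-/

set_option autoImplicit false

open MeasureTheory Filter Topology Set
open scoped ENNReal Pointwise

namespace Pool.Agent.TH277.MR.PB

open Pool.Agent.TH277.MR

section gen

variable {X : Type*} [MeasurableSpace X]

/-- the carrier of the part of `μ` absolutely continuous with respect to `κ` is invariant -/
lemma carrier_inv {μ κ : Measure X} [IsFiniteMeasure μ] {P : Set X} (hP : MeasurableSet P)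
    (hP1 : κ Pᶜ = 0) (hP2 : ∀ A : Set X, κ A = 0 → μ (A ∩ P) = 0) {f : X → X}
    (hfm : Measurable f) (hfμ : μ.map f = μ)
    (hκ : ∀ B, MeasurableSet B → κ B = 0 → κ (f ⁻¹' B) = 0) : f ⁻¹' P =ᵐ[μ] P := by
  have h1 : κ (f ⁻¹' Pᶜ) = 0 := hκ _ hP.compl hP1
  have h5 : μ (f ⁻¹' Pᶜ ∩ P) = 0 := hP2 _ h1
  have h6 : μ (f ⁻¹' Pᶜ) = μ Pᶜ := by rw [← Measure.map_apply hfm hP.compl, hfμ]
  have h7 : f ⁻¹' Pᶜ ≤ᵐ[μ] Pᶜ := by
    have : μ (f ⁻¹' Pᶜ \ Pᶜ) = 0 := by rwa [sdiff_eq, compl_compl]
    exact ae_le_set.2 this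
  have h8 : f ⁻¹' Pᶜ =ᵐ[μ] Pᶜ :=
    ae_eq_of_ae_subset_of_measure_ge h7 h6.ge (hfm hP.compl).nullMeasurableSet
      (measure_ne_top _ _)
  have h9 : ((f ⁻¹' Pᶜ)ᶜ : Set X) =ᵐ[μ] (Pᶜᶜ : Set X) := h8.compl
  have e1 : ((f ⁻¹' Pᶜ)ᶜ : Set X) = f ⁻¹' P := by rw [preimage_compl, compl_compl]
  have e2 : (Pᶜᶜ : Set X) = P := compl_compl P
  rw [e1, e2] at h9
  exact h9

/-- restrictions to invariant sets are invariant -/
lemma restrict_inv {μ : Measure X} {P : Set X} (hP : MeasurableSet P) {f : X → X}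
    (hfm : Measurable f) (hfμ : μ.map f = μ) (h : f ⁻¹' P =ᵐ[μ] P) :
    (μ.restrict P).map f = μ.restrict P := by
  refine Measure.ext fun B hB => ?_
  rw [Measure.map_apply hfm hB, Measure.restrict_apply (hfm hB), Measure.restrict_apply hB]
  calc μ (f ⁻¹' B ∩ P) = μ (f ⁻¹' B ∩ f ⁻¹' P) :=
        measure_congr ((ae_eq_refl _).inter h.symm)
    _ = μ (f ⁻¹' (B ∩ P)) := by rw [preimage_inter]
    _ = μ (B ∩ P) := by rw [← Measure.map_apply hfm (hB.inter hP), hfμ]

end gen

section main

variable {V : Type*} [AddCommGroup V] [TopologicalSpace V] [IsTopologicalAddGroup V]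
  [LocallyCompactSpace V] [MeasurableSpace V] [BorelSpace V] [SecondCountableTopology V]
  {X : Type*} [TopologicalSpace X] [PolishSpace X] [MeasurableSpace X] [BorelSpace X]

/-- an invariant measure which is absolutely continuous along the group is invariant under it -/
theorem inv_of_ac {m : Measure V} [m.IsAddHaarMeasure]
    {u : V → X → X} (huc : Continuous fun p : V × X => u p.1 p.2)
    (hadd : ∀ s t x, u (s + t) x = u s (u t x)) (h0 : ∀ x, u 0 x = x)
    {μ : Measure X} [IsFiniteMeasure μ] {ν : Measure X} [IsProbabilityMeasure ν]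
    (hac : μ ≪ avg (gam m) u ν)
    (hcon : ∀ s : V, ∃ (f g : ℕ → X → X) (r : ℕ → V), Tendsto r atTop (𝓝 0) ∧
      ∀ k, Measurable (f k) ∧ Measurable (g k) ∧ μ.map (f k) = μ ∧ (∀ x, g k (f k x) = x) ∧
        ∀ x, f k (u s x) = u (r k) (f k x)) (s : V) : μ.map (u s) = μ := by
  have hsec : SecondCountableTopology X := inferInstance
  have hu : Measurable fun p : V × X => u p.1 p.2 := huc.measurable
  have hum := meas_u hu
  have hgf : IsFiniteMeasure (gam m) := gam_fin
  have hfin := avg_fin (u := u) (gam m) ν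
  obtain ⟨f, g, r, hr, hfg⟩ := hcon s
  have hAI : AI (fun k => u (r k)) μ := by
    refine AI_of_ac' hac (fun k => hum _) (fun x => ?_) fun ε hε => ?_
    · have h1 : Tendsto (fun k => (r k, x)) atTop (𝓝 ((0 : V), x)) :=
        hr.prodMk_nhds tendsto_const_nhds
      have h2 := (huc.tendsto (0, x)).comp h1
      rw [h0] at h2
      exact h2
    · have h1 : Tendsto (fun k => err m (r k)) atTop (𝓝 0) := err_tendsto.comp hr
      filter_upwards [h1.eventually (gt_mem_nhds (show (0 : ℝ≥0∞) < ENNReal.ofReal ε by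
        simpa using hε))] with k hk
      intro H hH hH1
      refine (avg_shift hu hadd ν (r k) hH hH1).trans ?_
      gcongr
  refine Measure.ext fun B hB => ?_
  rw [Measure.map_apply (hum s) hB]
  refine (ENNReal.toReal_eq_toReal_iff' (measure_ne_top _ _) (measure_ne_top _ _)).1 ?_
  change μ.real (u s ⁻¹' B) = μ.real B
  refine eq_of_abs_sub_nonpos (le_of_forall_pos_le_add fun ε hε => ?_)
  obtain ⟨k, hk⟩ := (AI_both (fun k => hum _) hAI hε).exists
  obtain ⟨hf, hg, hfμ, hgf, hfu⟩ := hfg k
  have h1 := hk _ (hg hB)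
  have h2 : μ.real (u (r k) ⁻¹' (g k ⁻¹' B)) = μ.real (u s ⁻¹' B) := by
    have h3 : u s ⁻¹' B = f k ⁻¹' (u (r k) ⁻¹' (g k ⁻¹' B)) := by
      ext x
      simp only [mem_preimage]
      rw [← hfu, hgf]
    rw [h3, Measure.real, Measure.real, ← Measure.map_apply hf (hum _ (hg hB)), hfμ]
  have h4 : μ.real (g k ⁻¹' B) = μ.real B := by
    have h3 : B = f k ⁻¹' (g k ⁻¹' B) := by
      ext x
      simp only [mem_preimage]
      rw [hgf]
    conv_rhs => rw [h3]
    rw [Measure.real, Measure.real, ← Measure.map_apply hf (hg hB), hfμ]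
  rw [h2, h4] at h1
  linarith

/-- **Decomposition.** -/
theorem decomp (m : Measure V) [m.IsAddHaarMeasure]
    {G : Type*} [Group G] [TopologicalSpace G] [FirstCountableTopology G] [MulAction G X]
    [ContinuousSMul G X]
    {A : Type*} [Group A] [MulAction A X] [MeasurableConstSMul A X]
    (α : A → G → G) (hα : ∀ (a : A) (g : G) (x : X), a • g • x = α a g • a • x)
    {u : V → G} (hu : Continuous u) (h0 : u 0 = 1) (hadd : ∀ s t, u (s + t) = u s * u t)
    (φ : A → V ≃ₜ+ V) (hφ : ∀ (a : A) (s : V), α a (u s) = u (φ a s))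
    (hcon : ∀ t : V, (0 : V) ∈ closure (range fun a => φ a t))
    (μ ν : Measure X) [IsProbabilityMeasure μ] [IsProbabilityMeasure ν]
    [SMulInvariantMeasure A X μ] [SMulInvariantMeasure A X ν] :
    ∃ P : Set X, MeasurableSet P ∧
      (∀ a : A, (μ.restrict P).map (fun x => a • x) = μ.restrict P) ∧ μ.restrict P ≪ ν ∧
      (∀ t : V, (μ.restrict P).map (fun x => u t • x) = μ.restrict P) ∧
      ∀ g : G, 0 < m {s : V | u s ∈ closure (range fun a : A => α a g)} →
        μ.restrict Pᶜ ⟂ₘ ν.map fun x => g • x := by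
  have hcg : ∀ g : G, Measurable fun x : X => g • x := fun g =>
    (continuous_const_smul g).measurable
  have ham : ∀ a : A, Measurable fun x : X => a • x := fun a => measurable_const_smul a
  have haμ : ∀ a : A, μ.map (fun x => a • x) = μ := fun a => (measurePreserving_smul a μ).map_eq
  have haν : ∀ a : A, ν.map (fun x => a • x) = ν := fun a => (measurePreserving_smul a ν).map_eq
  have huc : Continuous fun p : V × X => u p.1 • p.2 :=
    (hu.comp continuous_fst).smul continuous_snd
  have hum : Measurable fun p : V × X => u p.1 • p.2 := huc.measurable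
  have hua : ∀ s t (x : X), u (s + t) • x = u s • u t • x := fun s t x => by
    rw [hadd, mul_smul]
  have hu0 : ∀ x : X, u 0 • x = x := fun x => by rw [h0, one_smul]
  have hgf : IsFiniteMeasure (gam m) := gam_fin
  have hfin := avg_fin (u := fun s (x : X) => u s • x) (gam m) ν
  obtain ⟨P, hP, hP1, hP2⟩ := carrier μ (avg (gam m) (fun s (x : X) => u s • x) ν)
  obtain ⟨Q, hQ, hQ1, hQ2⟩ := carrier μ ν
  have hPae : ∀ᵐ s ∂m, ν ((fun x => u s • x) ⁻¹' Pᶜ) = 0 :=
    (avg_null (u := fun s (x : X) => u s • x) hum ν hP.compl).1 hP1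
  -- invariance of the carriers
  have hPi : ∀ a : A, (fun x : X => a • x) ⁻¹' P =ᵐ[μ] P := fun a => by
    refine carrier_inv hP hP1 hP2 (ham a) (haμ a) fun B hB h => ?_
    rw [avg_null (u := fun s (x : X) => u s • x) hum ν (ham a hB)]
    rw [avg_null (u := fun s (x : X) => u s • x) hum ν hB] at h
    have h2 : ∀ s, ν ((fun x => u s • x) ⁻¹' ((fun x : X => a • x) ⁻¹' B)) =
        ν ((fun x => u (φ a s) • x) ⁻¹' B) := fun s => by
      have h3 : (fun x => u s • x) ⁻¹' ((fun x : X => a • x) ⁻¹' B) =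
          (fun x : X => a • x) ⁻¹' ((fun x => u (φ a s) • x) ⁻¹' B) := by
        ext x
        simp only [mem_preimage]
        rw [hα, hφ]
      rw [h3, ← Measure.map_apply (ham a) (hcg _ hB), haν]
    simp_rw [h2]
    have h4 : m {s : V | ¬ ν ((fun x => u s • x) ⁻¹' B) = 0} = 0 := h
    change m (φ a ⁻¹' {s : V | ¬ ν ((fun x => u s • x) ⁻¹' B) = 0}) = 0
    exact null_aut (φ a) h4
  have hQi : ∀ a : A, (fun x : X => a • x) ⁻¹' Q =ᵐ[μ] Q := fun a => by
    refine carrier_inv hQ hQ1 hQ2 (ham a) (haμ a) fun B hB h => ?_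
    rw [← Measure.map_apply (ham a) hB, haν, h]
  have hcompl : ∀ {S : Set X} (a : A), (fun x : X => a • x) ⁻¹' S =ᵐ[μ] S →
      (fun x : X => a • x) ⁻¹' Sᶜ =ᵐ[μ] Sᶜ := fun a h => by
    rw [preimage_compl]
    exact h.compl
  have hinter : ∀ {S T : Set X} (a : A), (fun x : X => a • x) ⁻¹' S =ᵐ[μ] S →
      (fun x : X => a • x) ⁻¹' T =ᵐ[μ] T → (fun x : X => a • x) ⁻¹' (S ∩ T) =ᵐ[μ] (S ∩ T : Set X) :=
    fun a h h' => by
    rw [preimage_inter]
    exact h.inter h'
  -- overlaps
  have hkey : ∀ (κ : Measure X) [IsFiniteMeasure κ], (∀ a : A, κ.map (fun x => a • x) = κ) →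
      ∀ (g : G), 0 < m {s : V | u s ∈ closure (range fun a : A => α a g)} →
      ¬ κ ⟂ₘ ν.map (fun x => g • x) → κ Q ≠ 0 ∧ κ P ≠ 0 := by
    intro κ _ hκ g hs hns
    obtain ⟨c, hc, hov⟩ := exists_Ov hns
    have hconj : ∀ (g : G) (a : A), Ov c κ (ν.map fun x => g • x) →
        Ov c κ (ν.map fun x => α a g • x) := by
      intro g a h
      have h5 := h.map (ham a)
      rw [hκ, Measure.map_map (ham a) (hcg g)] at h5
      have e : (fun x : X => a • x) ∘ (fun x => g • x) =
          (fun x => α a g • x) ∘ fun x => a • x := by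
        funext x
        simp only [Function.comp_apply]
        rw [hα]
      rw [e, ← Measure.map_map (hcg _) (ham a), haν] at h5
      exact h5
    have hclos : ∀ (S : Set G) (g : G), (∀ h ∈ S, Ov c κ (ν.map fun x => h • x)) →
        g ∈ closure S → Ov c κ (ν.map fun x => g • x) := by
      intro S g hS hg
      obtain ⟨t, ht, htg⟩ := mem_closure_iff_seq_limit.1 hg
      refine ov_closed₂ (h := fun k x => t k • x) (fun k => hcg _) (hcg _) (fun x => ?_)
        (Eventually.of_forall fun k => hS _ (ht k))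
      exact htg.smul_const x
    have hall : ∀ s ∈ {s : V | u s ∈ closure (range fun a : A => α a g)},
        Ov c κ (ν.map fun x => u s • x) := by
      intro s hs
      refine hclos _ _ ?_ hs
      rintro h ⟨a, rfl⟩
      exact hconj g a hov
    obtain ⟨w, hw⟩ := nonempty_of_measure_ne_zero hs.ne'
    constructor
    · intro hκQ
      have h1 : Ov c κ (ν.map fun x => u 0 • x) := by
        refine hclos (range fun a : A => u (φ a w)) _ ?_ ?_
        · rintro h ⟨a, rfl⟩
          have h2 := hconj (u w) a (hall w hw)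
          rwa [hφ] at h2
        · have h4 : u '' closure (range fun a => φ a w) ⊆ closure (u '' range fun a => φ a w) :=
            image_closure_subset_closure_image hu
          have h5 := h4 ⟨0, hcon w, rfl⟩
          rwa [← range_comp] at h5
      have h6 : ν.map (fun x => u 0 • x) = ν := by
        rw [h0]
        simp
      rw [h6] at h1
      have h7 := h1 Q hQ
      rw [Measure.real, Measure.real, hκQ, hQ1] at h7
      simp at h7
      linarith
    · intro hκP
      obtain ⟨s, hsW, hs0⟩ : ∃ s ∈ {s : V | u s ∈ closure (range fun a : A => α a g)},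
          ν ((fun x => u s • x) ⁻¹' Pᶜ) = 0 := by
        by_contra hcon'
        push Not at hcon'
        exact hs.ne' (measure_mono_null (fun s hs => hcon' s hs) hPae)
      have h2 := hall s hsW P hP
      rw [Measure.real, Measure.real, Measure.map_apply (hcg _) hP.compl, hs0, hκP] at h2
      simp at h2
      linarith
  have hres : ∀ {S : Set X}, MeasurableSet S → (∀ a : A, (fun x : X => a • x) ⁻¹' S =ᵐ[μ] S) →
      ∀ a : A, (μ.restrict S).map (fun x => a • x) = μ.restrict S := fun hS h a =>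
    restrict_inv hS (ham a) (haμ a) (h a)
  refine ⟨P ∩ Q, hP.inter hQ, hres (hP.inter hQ) fun a => hinter a (hPi a) (hQi a), ?_, ?_, ?_⟩
  · refine Measure.AbsolutelyContinuous.mk fun B hB h => ?_
    rw [Measure.restrict_apply hB]
    refine measure_mono_null ?_ (hQ2 B h)
    exact fun x hx => ⟨hx.1, hx.2.2⟩
  · intro t
    refine inv_of_ac (m := m) (ν := ν) (u := fun s (x : X) => u s • x) huc hua hu0 ?_ (fun t => ?_) t
    · refine Measure.AbsolutelyContinuous.mk fun B hB h => ?_
      rw [Measure.restrict_apply hB]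
      refine measure_mono_null ?_ (hP2 B h)
      exact fun x hx => ⟨hx.1, hx.2.1⟩
    · obtain ⟨r, hr, hr0⟩ := mem_closure_iff_seq_limit.1 (hcon t)
      choose a ha using hr
      refine ⟨fun k x => a k • x, fun k x => (a k)⁻¹ • x, r, hr0, fun k => ?_⟩
      refine ⟨measurable_const_smul _, measurable_const_smul _,
        hres (hP.inter hQ) (fun a => hinter a (hPi a) (hQi a)) (a k),
        fun x => inv_smul_smul _ x, fun x => ?_⟩
      change a k • u t • x = u (r k) • (a k • x)
      rw [hα, hφ, ← ha k]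
  · intro g hg
    have e : μ.restrict (P ∩ Q)ᶜ = μ.restrict Pᶜ + μ.restrict (P ∩ Qᶜ) := by
      rw [← Measure.restrict_union ?_ (hP.inter hQ.compl)]
      · congr 1
        ext x
        simp only [mem_compl_iff, mem_inter_iff, mem_union]
        tauto
      · exact Set.disjoint_left.2 fun x hx hx' => hx hx'.1
    rw [e]
    refine Measure.MutuallySingular.add_left ?_ ?_
    · by_contra hns
      refine (hkey (μ.restrict Pᶜ) (hres hP.compl fun a => hcompl a (hPi a)) g hg hns).2 ?_
      rw [Measure.restrict_apply hP]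
      simp
    · by_contra hns
      refine (hkey (μ.restrict (P ∩ Qᶜ)) (hres (hP.inter hQ.compl) fun a =>
        hinter a (hPi a) (hcompl a (hQi a))) g hg hns).1 ?_
      rw [Measure.restrict_apply hQ]
      have : Q ∩ (P ∩ Qᶜ) = ∅ := by
        ext x
        simp only [mem_inter_iff, mem_compl_iff, mem_empty_iff_false]
        tauto
      rw [this, measure_empty]

end main

end Pool.Agent.TH277.MR.PB
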