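import Mathlib
import Pool.Agent.TH277.MR.Q

/-!
A measure which is not singular to a measure quasi-invariant under a continuous flow is not
singular to its small translates by the flow; consequences for ergodic measures.
-/

set_option autoImplicit false

open MeasureTheory Filter Topology Set
open scoped ENNReal

namespace Pool.Agent.TH277.MR

section quasi

variable {X : Type*} [TopologicalSpace X] [PolishSpace X] [MeasurableSpace X] [BorelSpace X]

lemma not_sing_of_ov {c : ℝ} (hc : 0 < c) {μ ν : Measure X} (h : Ov c μ ν) : ¬ μ ⟂ₘ ν := by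
  rintro ⟨B, hB, h1, h2⟩
  have h3 := h B hB
  rw [measureReal_def, measureReal_def, h1, h2] at h3
  simp at h3
  linarith

lemma ac_avg {u : ℝ → X → X} (hu : Measurable fun p : ℝ × X => u p.1 p.2)
    (hadd : ∀ s t x, u (s + t) x = u s (u t x)) (h0 : ∀ x, u 0 x = x) {ρ : Measure X}
    [IsFiniteMeasure ρ] (hρ : ∀ t, ρ.map (u t) ≪ ρ) : ρ ≪ avg u ρ := by
  refine Measure.AbsolutelyContinuous.mk fun B hB h => ?_
  obtain ⟨s, hs⟩ := ((avg_null hu ρ hB).1 h).exists
  have h1 := hρ (-s) hs
  rw [Measure.map_apply (meas_u hu _) (meas_u hu s hB)] at h1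
  have h2 : u (-s) ⁻¹' (u s ⁻¹' B) = B := by
    ext x
    simp only [mem_preimage]
    rw [← hadd, add_neg_cancel, h0]
  rwa [h2] at h1

/-- a measure which is not singular to a quasi-invariant measure of a continuous flow is not
singular to its small translates -/
theorem small_translates {u : ℝ → X → X} (huc : Continuous fun p : ℝ × X => u p.1 p.2)
    (hadd : ∀ s t x, u (s + t) x = u s (u t x)) (h0 : ∀ x, u 0 x = x)
    {μ ρ : Measure X} [IsFiniteMeasure μ] [IsFiniteMeasure ρ]
    (hρ : ∀ t, ρ.map (u t) ≪ ρ) (hns : ¬ μ ⟂ₘ ρ) {s : ℕ → ℝ} (hs : Tendsto s atTop (𝓝 0)) :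
    ∀ᶠ k in atTop, ¬ μ ⟂ₘ μ.map (u (s k)) := by
  have hu : Measurable fun p : ℝ × X => u p.1 p.2 := huc.measurable
  have hκ0 : μ ⊓ ρ ≠ 0 := inf_ne hns
  have hκ1 : μ ⊓ ρ ≤ μ := inf_le_left
  have hκ2 : μ ⊓ ρ ≤ ρ := inf_le_right
  set κ := μ ⊓ ρ with hκ
  have hfin : IsFiniteMeasure κ := isFiniteMeasure_of_le μ hκ1
  have hfin2 : IsFiniteMeasure (avg u ρ) := avg_fin ρ
  have hc0 : 0 < κ.real univ := by
    rw [measureReal_def]
    exact ENNReal.toReal_pos (by simpa using hκ0) (measure_ne_top _ _)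
  have hAI : AI (fun k x => u (s k) x) κ := by
    refine AI_of_ac (hκ2.absolutelyContinuous.trans (ac_avg hu hadd h0 hρ))
      (fun k => meas_u hu _) (fun x => ?_) fun ε hε => ?_
    · have h1 : Tendsto (fun k => u (s k) x) atTop (𝓝 (u 0 x)) :=
        (huc.tendsto (0, x)).comp (hs.prodMk_nhds tendsto_const_nhds)
      rwa [h0] at h1
    · have h1 : Tendsto (fun k => |s k| + s k ^ 2) atTop (𝓝 0) := by
        have := hs.abs.add (hs.pow 2)
        simpa using this
      filter_upwards [h1.eventually (gt_mem_nhds hε)] with k hk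
      refine (avg_quasi hu hadd ρ (s k)).trans ?_
      refine Measure.le_iff.2 fun B _ => ?_
      rw [Measure.smul_apply, Measure.smul_apply, smul_eq_mul, smul_eq_mul]
      gcongr
  filter_upwards [ov_of_AI (fun k => meas_u hu (s k)) hκ1 hAI
    (show κ.real univ / 2 < κ.real univ by linarith)] with k hk
  exact not_sing_of_ov (by linarith) hk

end quasi

section main

variable {I : Type*} [Fintype I] [DecidableEq I] {n : I → ℕ}
variable {X : Type*} [TopologicalSpace X] [PolishSpace X] [MeasurableSpace X] [BorelSpace X]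
variable [MulAction (PG n) X] [ContinuousSMul (PG n) X]
variable {A : Type*} [Group A] [MulAction A X] [MeasurableConstSMul A X] {π : A →* PG n}

lemma one_param_pow {G : Type*} [Group G] {b : ℝ → G} (hadd : ∀ s t, b (s + t) = b s * b t)
    (s : ℝ) (m : ℕ) : b (((m + 1 : ℕ) : ℝ) * s) = b s ^ (m + 1) := by
  induction m with
  | zero => simp
  | succ m ih =>
    have e : (((m + 1 + 1 : ℕ) : ℝ)) * s = ((m + 1 : ℕ) : ℝ) * s + s := by
      push_cast; ring
    rw [e, hadd, ih, ← pow_succ]

lemma one_param_zero {G : Type*} [Group G] {b : ℝ → G} (hadd : ∀ s t, b (s + t) = b s * b t) :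
    b 0 = 1 := by
  have := hadd 0 0
  rw [add_zero] at this
  exact (mul_eq_left.1 this.symm)

/-- **Pure type along every one-parameter group.** -/
theorem pure_main (hπ : DenseAct X π) {μ : Measure X} [IsProbabilityMeasure μ]
    (hμ : ∀ a : A, μ.map (fun x => a • x) = μ) (eμ : Erg (maps A X) μ)
    {b : ℝ → PG n} (hb : Continuous b) (hadd : ∀ s t, b (s + t) = b s * b t)
    {ρ : Measure X} [SigmaFinite ρ] (hρ : ∀ t, ρ.map (fun x => b t • x) ≪ ρ) :
    (∀ t, μ.map (fun x => b t • x) = μ) ∨ μ ⟂ₘ ρ := by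
  by_cases hns : μ ⟂ₘ ρ
  · exact Or.inr hns
  left
  intro t
  have h1 : ρ ≪ ρ.toFinite := absolutelyContinuous_toFinite ρ
  have h2 : ρ.toFinite ≪ ρ := toFinite_absolutelyContinuous ρ
  have hns' : ¬ μ ⟂ₘ ρ.toFinite := fun h => hns (h.mono_ac Measure.AbsolutelyContinuous.rfl h1)
  have hm : ∀ g : PG n, Measurable fun x : X => g • x := fun g => measurable_const_smul g
  have hρ' : ∀ t, ρ.toFinite.map (fun x => b t • x) ≪ ρ.toFinite := fun t =>
    ((h2.map (hm _)).trans (hρ t)).trans h1
  have huc : Continuous fun p : ℝ × X => b p.1 • p.2 :=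
    (hb.comp continuous_fst).smul continuous_snd
  have hs : Tendsto (fun k : ℕ => t / ((k : ℝ) + 1)) atTop (𝓝 0) := by
    have := (tendsto_one_div_add_atTop_nhds_zero_nat (𝕜 := ℝ)).const_mul t
    simpa [div_eq_mul_inv] using this
  obtain ⟨k, hk⟩ := (small_translates (u := fun s x => b s • x) huc
    (fun s r x => by rw [hadd, mul_smul]) (fun x => by rw [one_param_zero hadd, one_smul])
    hρ' hns' hs).exists
  rcases translates_main hπ hμ hμ eμ eμ (b (t / ((k : ℝ) + 1))) with h3 | h3
  · have h4 : b (t / ((k : ℝ) + 1)) ∈ stabG (G := PG n) μ := h3.symm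
    have h5 := (stabG (G := PG n) μ).pow_mem h4 (k + 1)
    rw [← one_param_pow hadd] at h5
    have e : (((k + 1 : ℕ) : ℝ)) * (t / ((k : ℝ) + 1)) = t := by
      push_cast
      field_simp
    rw [e] at h5
    exact h5
  · exact absurd h3 hk

end main

end Pool.Agent.TH277.MR
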