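import Pool.Agent.TH277.MR.P5

/-!
One Borel set for all translates of an invariant measure, or invariance under the flow.
-/

set_option autoImplicit false

open MeasureTheory Filter Topology Set
open scoped ENNReal Pointwise

namespace Pool.Agent.TH277.MR.PB

open Pool.Agent.TH277.MR

section top

variable {X : Type*} [TopologicalSpace X] [PolishSpace X] [MeasurableSpace X] [BorelSpace X]
  {Y : Type*} [MeasurableSpace Y]

/-- the overlap of `μ` with the images of `ν` is upper semicontinuous -/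
lemma ov_closed₃ {c : ℝ} {μ : Measure X} {ν : Measure Y} [IsFiniteMeasure μ] [IsFiniteMeasure ν]
    {h : ℕ → Y → X} {g : Y → X}
    (hm : ∀ k, Measurable (h k)) (hg : Measurable g)
    (hc : ∀ x, Tendsto (fun k => h k x) atTop (𝓝 (g x)))
    (ho : ∀ᶠ k in atTop, Ov c μ (ν.map (h k))) : Ov c μ (ν.map g) := by
  intro B hB
  refine le_of_forall_pos_le_add fun ε' hε' => ?_
  obtain ⟨ε, hε, hεε⟩ : ∃ ε : ℝ, 0 < ε ∧ ε' = ε + ε := ⟨ε' / 2, by linarith, by ring⟩
  obtain ⟨U, hBU, hUo, hU⟩ := Set.exists_isOpen_lt_add (μ := μ) B (measure_ne_top _ _)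
    (ε := ENNReal.ofReal ε) (by simpa using hε)
  have hUm := hUo.measurableSet
  have hlim : limsup (fun k => ν (h k ⁻¹' Uᶜ)) atTop ≤ ν (g ⁻¹' Uᶜ) := by
    have h1 : ∀ k, ν (h k ⁻¹' Uᶜ) = ∫⁻ x, (h k ⁻¹' Uᶜ).indicator 1 x ∂ν := fun k => by
      rw [lintegral_indicator_one (hm k hUm.compl)]
    have h2 : ν (g ⁻¹' Uᶜ) = ∫⁻ x, (g ⁻¹' Uᶜ).indicator 1 x ∂ν := by
      rw [lintegral_indicator_one (hg hUm.compl)]
    simp_rw [h1]
    rw [h2]
    refine (limsup_lintegral_le (μ := ν) (f := fun k => (h k ⁻¹' Uᶜ).indicator (1 : Y → ℝ≥0∞))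
      (fun _ => (1 : ℝ≥0∞))
      (fun k => measurable_one.indicator (hm k hUm.compl)) (fun k => ?_) (by simp)).trans ?_
    · exact ae_of_all _ fun x => indicator_le_self' (fun _ _ => zero_le) x
    · refine lintegral_mono fun x => ?_
      by_cases hx : g x ∈ Uᶜ
      · rw [indicator_of_mem (show x ∈ g ⁻¹' Uᶜ from hx)]
        refine limsup_le_of_le (by isBoundedDefault) (Eventually.of_forall fun k => ?_)
        exact indicator_le_self' (fun _ _ => zero_le) x
      · have hx' : g x ∈ U := by simpa using hx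
        have h3 : ∀ᶠ k in atTop, h k x ∈ U := (hc x).eventually (hUo.mem_nhds hx')
        have h4 : (fun k => (h k ⁻¹' Uᶜ).indicator (1 : Y → ℝ≥0∞) x) =ᶠ[atTop] fun _ => 0 := by
          filter_upwards [h3] with k hk
          exact indicator_of_notMem (by simpa using hk) _
        rw [limsup_congr h4, limsup_const]
        exact zero_le
  have hfin : ν (g ⁻¹' Uᶜ) ≠ ∞ := measure_ne_top _ _
  have h5 : ∀ᶠ k in atTop, ν (h k ⁻¹' Uᶜ) < ν (g ⁻¹' Uᶜ) + ENNReal.ofReal ε := by
    refine eventually_lt_of_limsup_lt (lt_of_le_of_lt hlim ?_)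
    exact ENNReal.lt_add_right hfin (by simpa using hε)
  obtain ⟨k, hk1, hk2⟩ := (ho.and h5).exists
  have h6 := hk1 U hUm
  rw [Measure.real, Measure.real, Measure.map_apply (hm k) hUm.compl] at h6
  have h7 : (ν (h k ⁻¹' Uᶜ)).toReal ≤ (ν (g ⁻¹' Uᶜ)).toReal + ε := by
    have := ENNReal.toReal_mono (by finiteness) hk2.le
    rwa [ENNReal.toReal_add hfin (by finiteness), ENNReal.toReal_ofReal hε.le] at this
  have h8 : (μ U).toReal ≤ (μ B).toReal + ε := by
    have := ENNReal.toReal_mono (by finiteness) hU.le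
    rwa [ENNReal.toReal_add (measure_ne_top _ _) (by finiteness), ENNReal.toReal_ofReal hε.le]
      at this
  have h9 : (ν (g ⁻¹' Uᶜ)).toReal ≤ (ν (g ⁻¹' Bᶜ)).toReal :=
    ENNReal.toReal_mono (measure_ne_top _ _)
      (measure_mono (preimage_mono (compl_subset_compl.2 hBU)))
  rw [Measure.real, Measure.real, Measure.map_apply hg hB.compl, hεε]
  linarith

end top

section final

variable {X : Type*} [TopologicalSpace X] [PolishSpace X] [MeasurableSpace X] [BorelSpace X]
  {A : Type*} [Group A] [MulAction A X] [MeasurableConstSMul A X]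

/-- an invariant measure with positive overlap with an average of translates of `ν` along a
contracted flow overlaps `ν` -/
lemma not_sing {u : ℝ → X → X} (huc : Continuous fun p : ℝ × X => u p.1 p.2)
    (h0 : ∀ x, u 0 x = x)
    (χ : A → ℝ) (hχ : ∀ (a : A) (s : ℝ) (x : X), a • u s x = u (χ a * s) (a • x))
    (hcon : ∃ a : ℕ → A, Tendsto (fun k => χ (a k)) atTop (𝓝 0))
    {μ ν : Measure X} [IsProbabilityMeasure μ] [IsProbabilityMeasure ν]
    [SMulInvariantMeasure A X μ] [SMulInvariantMeasure A X ν]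
    (γ : Measure ℝ) [IsFiniteMeasure γ] (hns : ¬ μ ⟂ₘ avg γ u ν) : ¬ μ ⟂ₘ ν := by
  have hu : Measurable fun p : ℝ × X => u p.1 p.2 := huc.measurable
  have hfin := avg_fin (u := u) γ ν
  obtain ⟨c, hc, hov⟩ := exists_Ov hns
  obtain ⟨a, ha⟩ := hcon
  have h1 : ∀ k, Ov c μ ((γ.prod ν).map fun p => u (χ (a k) * p.1) p.2) := by
    intro k
    have ham : Measurable fun x : X => a k • x := measurable_const_smul (a k)
    have h2 := hov.map ham
    rw [(measurePreserving_smul (a k) μ).map_eq] at h2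
    have h3 : (avg γ u ν).map (fun x => a k • x) =
        (γ.prod ν).map fun p => u (χ (a k) * p.1) p.2 := by
      unfold avg
      have h4 : Measurable fun p : ℝ × X => (p.1, a k • p.2) :=
        measurable_fst.prodMk (ham.comp measurable_snd)
      have h5 : Measurable fun p : ℝ × X => u (χ (a k) * p.1) p.2 :=
        hu.comp (((measurable_const_mul _).comp measurable_fst).prodMk measurable_snd)
      have h6 : (γ.prod ν).map (fun p : ℝ × X => (p.1, a k • p.2)) = γ.prod ν := by
        have h7 := Measure.map_prod_map γ ν (f := id) (g := fun x : X => a k • x)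
          measurable_id ham
        rw [Measure.map_id, (measurePreserving_smul (a k) ν).map_eq] at h7
        exact h7.symm
      rw [Measure.map_map ham hu]
      conv_rhs => rw [← h6]
      rw [Measure.map_map h5 h4]
      congr 1
      funext p
      exact hχ (a k) p.1 p.2
    rwa [h3] at h2
  have h2 : Ov c μ ((γ.prod ν).map fun p => p.2) := by
    refine ov_closed₃ (h := fun k p => u (χ (a k) * p.1) p.2) (fun k => ?_) measurable_snd
      (fun p => ?_) (Eventually.of_forall h1)
    · exact hu.comp (((measurable_const_mul _).comp measurable_fst).prodMk measurable_snd)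
    · have h3 : Tendsto (fun k => (χ (a k) * p.1, p.2)) atTop (𝓝 ((0 : ℝ), p.2)) := by
        have h4 := ha.mul_const p.1
        rw [zero_mul] at h4
        exact h4.prodMk_nhds tendsto_const_nhds
      have h4 := (huc.tendsto (0, p.2)).comp h3
      rw [h0] at h4
      exact h4
  rintro ⟨S, hS, hS1, hS2⟩
  have h3 := h2 S hS
  rw [Measure.real, Measure.real, Measure.map_apply measurable_snd hS.compl] at h3
  have h4 : (γ.prod ν) (Prod.snd ⁻¹' Sᶜ) = 0 := by
    have h5 : (Prod.snd ⁻¹' Sᶜ : Set (ℝ × X)) = univ ×ˢ Sᶜ := by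
      ext p
      simp
    rw [h5, Measure.prod_prod, hS2, mul_zero]
  change c ≤ (μ S).toReal + ((γ.prod ν) (Prod.snd ⁻¹' Sᶜ)).toReal at h3
  rw [h4, hS1] at h3
  simp at h3
  linarith

/-- **Invariance, or one Borel set for all translates.** -/
theorem uniform_erg (u : ℝ → X → X) (hu : Continuous fun p : ℝ × X => u p.1 p.2)
    (h0 : ∀ x, u 0 x = x) (hadd : ∀ s t x, u (s + t) x = u s (u t x))
    (χ : A →* ℝˣ) (hχ : ∀ (a : A) (s : ℝ) (x : X), a • u s x = u ((χ a : ℝ) * s) (a • x))
    (hd : ∀ r : ℝ, 0 < r → ∀ ε : ℝ, 0 < ε → ∃ a : A, |(χ a : ℝ) - r| < ε)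
    (μ ν : Measure X) [IsProbabilityMeasure μ] [IsProbabilityMeasure ν]
    [ErgodicSMul A X μ] [SMulInvariantMeasure A X ν] :
    (μ ≪ ν ∧ ∀ t, μ.map (u t) = μ) ∨
      ∃ B : Set X, MeasurableSet B ∧ μ Bᶜ = 0 ∧ ∀ s, s ≠ 0 → ν.map (u s) B = 0 := by
  have hum : ∀ s, Measurable (u s) := fun s =>
    (hu.comp (continuous_const.prodMk continuous_id)).measurable
  have hum2 : Measurable fun p : ℝ × X => u p.1 p.2 := hu.measurable
  have ham : ∀ a : A, Measurable fun x : X => a • x := fun a => measurable_const_smul a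
  have haμ : ∀ a : A, μ.map (fun x => a • x) = μ := fun a => (measurePreserving_smul a μ).map_eq
  have haν : ∀ a : A, ν.map (fun x => a • x) = ν := fun a => (measurePreserving_smul a ν).map_eq
  have hgf : IsFiniteMeasure (gam (volume : Measure ℝ)) := gam_fin
  have hfin := avg_fin (u := u) (gam (volume : Measure ℝ)) ν
  have hcon : ∃ a : ℕ → A, Tendsto (fun k => ((χ (a k) : ℝˣ) : ℝ)) atTop (𝓝 0) := by
    choose a ha using fun k : ℕ => hd (1 / ((k : ℝ) + 1)) (by positivity)
      (1 / ((k : ℝ) + 1)) (by positivity)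
    refine ⟨a, ?_⟩
    have h9 := (tendsto_one_div_add_atTop_nhds_zero_nat (𝕜 := ℝ)).const_mul 2
    rw [mul_zero] at h9
    refine squeeze_zero_norm (fun k => ?_) h9
    have h7 := abs_lt.1 (ha k)
    rw [Real.norm_eq_abs, abs_le]
    have h8 : (0 : ℝ) < 1 / ((k : ℝ) + 1) := by positivity
    constructor <;> linarith [h7.1, h7.2]
  obtain ⟨P, hP, hP1, hP2⟩ := carrier μ (avg (gam (volume : Measure ℝ)) u ν)
  have hPi : ∀ a : A, (fun x : X => a • x) ⁻¹' P =ᵐ[μ] P := fun a => by
    refine carrier_inv hP hP1 hP2 (ham a) (haμ a) fun B hB h => ?_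
    rw [avg_null hum2 ν (ham a hB)]
    rw [avg_null hum2 ν hB] at h
    have h2 : ∀ s, ν (u s ⁻¹' ((fun x : X => a • x) ⁻¹' B)) = ν (u ((χ a : ℝ) * s) ⁻¹' B) :=
      fun s => by
      have h3 : u s ⁻¹' ((fun x : X => a • x) ⁻¹' B) =
          (fun x : X => a • x) ⁻¹' (u ((χ a : ℝ) * s) ⁻¹' B) := by
        ext x
        simp only [mem_preimage]
        rw [hχ]
      rw [h3, ← Measure.map_apply (ham a) (hum _ hB), haν]
    simp_rw [h2]
    have h4 : volume {s : ℝ | ¬ ν (u s ⁻¹' B) = 0} = 0 := h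
    change volume ((fun s => (χ a : ℝ) * s) ⁻¹' {s : ℝ | ¬ ν (u s ⁻¹' B) = 0}) = 0
    rw [Real.volume_preimage_mul_left (χ a).ne_zero, h4, mul_zero]
  have hres : ∀ a : A, (μ.restrict P).map (fun x => a • x) = μ.restrict P := fun a =>
    restrict_inv hP (ham a) (haμ a) (hPi a)
  rcases part_erg (A := A) hP hres with h | h
  · right
    obtain ⟨B, hB, hB1, hB2⟩ := uniform hu (fun a => (χ a : ℝ)) hχ hd (μ := μ) (ν := ν)
      (B₀ := Pᶜ) (by rwa [compl_compl]) ((avg_null hum2 ν hP.compl).1 hP1)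
    exact ⟨B, hB, hB1, fun s hs => by rw [Measure.map_apply (hum s) hB]; exact hB2 s hs⟩
  · left
    have hac : μ ≪ avg (gam (volume : Measure ℝ)) u ν := by
      refine Measure.AbsolutelyContinuous.mk fun B _ hB0 => ?_
      refine measure_mono_null (fun x hx => ?_) (measure_union_null (hP2 B hB0) h)
      by_cases h : x ∈ P
      · exact Or.inl ⟨hx, h⟩
      · exact Or.inr h
    constructor
    · have h1 : ¬ μ ⟂ₘ avg (gam (volume : Measure ℝ)) u ν := by
        rintro ⟨S, hS, h2, h3⟩
        have h4 : μ Sᶜ = 0 := hac h3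
        have h5 : μ univ ≤ μ S + μ Sᶜ := by
          rw [← union_compl_self S]
          exact measure_union_le _ _
        rw [measure_univ, h2, h4] at h5
        simp at h5
      have h2 := not_sing hu h0 (fun a => (χ a : ℝ)) hχ hcon (gam (volume : Measure ℝ)) h1
      obtain ⟨Q, hQ, hQ1, hQ2⟩ := carrier μ ν
      have hQi : ∀ a : A, (fun x : X => a • x) ⁻¹' Q =ᵐ[μ] Q := fun a => by
        refine carrier_inv hQ hQ1 hQ2 (ham a) (haμ a) fun B hB h => ?_
        rw [← Measure.map_apply (ham a) hB, haν, h]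
      rcases part_erg (A := A) hQ (fun a => restrict_inv hQ (ham a) (haμ a) (hQi a)) with h3 | h3
      · exact absurd ⟨Q, hQ, h3, hQ1⟩ h2
      · refine Measure.AbsolutelyContinuous.mk fun B _ hB0 => ?_
        refine measure_mono_null (fun x hx => ?_) (measure_union_null (hQ2 B hB0) h3)
        by_cases h : x ∈ Q
        · exact Or.inl ⟨hx, h⟩
        · exact Or.inr h
    · intro t
      refine inv_of_ac (m := (volume : Measure ℝ)) (ν := ν) hu hadd h0 hac (fun t => ?_) t
      obtain ⟨a, ha⟩ := hcon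
      refine ⟨fun k x => a k • x, fun k x => (a k)⁻¹ • x, fun k => (χ (a k) : ℝ) * t, ?_,
        fun k => ⟨ham _, ham _, haμ _, fun x => inv_smul_smul _ x, fun x => hχ (a k) t x⟩⟩
      have h4 := ha.mul_const t
      rwa [zero_mul] at h4

end final

end Pool.Agent.TH277.MR.PB
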