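import Mathlib

/-!
Overlap of a finite measure with its images under maps close to the identity.
-/

set_option autoImplicit false

open MeasureTheory Filter Topology Set
open scoped ENNReal

namespace Pool.Agent.TH277.MR

section basic

variable {X : Type*} [MeasurableSpace X]

/-- the mass of the common part of `μ` and `ν` is at least `c` -/
def Ov (c : ℝ) (μ ν : Measure X) : Prop :=
  ∀ B : Set X, MeasurableSet B → c ≤ μ.real B + ν.real Bᶜ

/-- `μ ⊓ ν` is not zero if the measures are not mutually singular -/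
lemma inf_ne {μ ν : Measure X} [IsFiniteMeasure μ] [IsFiniteMeasure ν] (h : ¬ μ ⟂ₘ ν) :
    μ ⊓ ν ≠ 0 := by
  intro h0
  apply h
  have hLD : μ.HaveLebesgueDecomposition ν := Measure.haveLebesgueDecomposition_of_sigmaFinite μ ν
  have h1 := μ.haveLebesgueDecomposition_add ν
  set κ : Measure X := ν.withDensity (fun x => min (μ.rnDeriv ν x) 1) with hκ
  have hm : Measurable (μ.rnDeriv ν) := Measure.measurable_rnDeriv _ _
  have hk1 : κ ≤ μ := by
    calc κ ≤ ν.withDensity (μ.rnDeriv ν) := withDensity_mono (ae_of_all _ fun x => min_le_left _ _)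
      _ ≤ μ := Measure.withDensity_rnDeriv_le _ _
  have hk2 : κ ≤ ν := by
    calc κ ≤ ν.withDensity (fun _ => 1) := withDensity_mono (ae_of_all _ fun x => min_le_right _ _)
      _ = ν := withDensity_one
  have hk : κ = 0 := le_antisymm ((le_inf hk1 hk2).trans h0.le) bot_le
  rw [hκ, withDensity_eq_zero_iff (hm.min measurable_const).aemeasurable] at hk
  have h2 : μ.rnDeriv ν =ᵐ[ν] 0 := by
    filter_upwards [hk] with x hx
    have hx' : min (μ.rnDeriv ν x) 1 = 0 := hx
    rcases min_eq_iff.1 hx' with h3 | h3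
    · exact h3.1
    · exact absurd h3.1 one_ne_zero
  have h3 : ν.withDensity (μ.rnDeriv ν) = 0 := by
    rw [withDensity_congr_ae h2]
    exact withDensity_zero
  rw [h3, add_zero] at h1
  rw [h1]
  exact Measure.mutuallySingular_singularPart _ _

/-- comparable finite measures of equal mass are equal -/
lemma eq_of_le_univ {ν ρ : Measure X} [IsFiniteMeasure ρ] (h : ν ≤ ρ) (hu : ρ univ ≤ ν univ) :
    ν = ρ := by
  have : IsFiniteMeasure ν := isFiniteMeasure_of_le ρ h
  refine Measure.ext fun s hs => le_antisymm (h s) ?_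
  by_contra hlt
  push Not at hlt
  have h1 : ν univ < ρ univ := by
    rw [← measure_add_measure_compl hs, ← measure_add_measure_compl (μ := ρ) hs]
    exact ENNReal.add_lt_add_of_lt_of_le (measure_ne_top _ _) hlt (h sᶜ)
  exact absurd hu (not_le.2 h1)

/-- the common part of two invariant measures is invariant -/
lemma inf_inv {μ ω : Measure X} [IsFiniteMeasure μ] {f : X → X} (hf : Measurable f)
    (hμ : μ.map f = μ) (hω : ω.map f = ω) :
    (μ ⊓ ω).map f = μ ⊓ ω := by
  have hle : (μ ⊓ ω).map f ≤ μ ⊓ ω := by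
    refine le_inf ?_ ?_
    · calc (μ ⊓ ω).map f ≤ μ.map f := Measure.map_mono inf_le_left hf
        _ = μ := hμ
    · calc (μ ⊓ ω).map f ≤ ω.map f := Measure.map_mono inf_le_right hf
        _ = ω := hω
  have : IsFiniteMeasure (μ ⊓ ω) := isFiniteMeasure_of_le μ inf_le_left
  refine eq_of_le_univ hle ?_
  rw [Measure.map_apply hf MeasurableSet.univ, preimage_univ]

/-- a carrier of the part of `μ` which is absolutely continuous with respect to `κ` -/
lemma carrier (μ κ : Measure X) [IsFiniteMeasure μ] [IsFiniteMeasure κ] :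
    ∃ P : Set X, MeasurableSet P ∧ κ Pᶜ = 0 ∧ ∀ A : Set X, κ A = 0 → μ (A ∩ P) = 0 := by
  have hLD : μ.HaveLebesgueDecomposition κ := Measure.haveLebesgueDecomposition_of_sigmaFinite μ κ
  obtain ⟨P, hPm, h1, h2⟩ := Measure.mutuallySingular_singularPart μ κ
  refine ⟨P, hPm, h2, fun A hA => ?_⟩
  rw [μ.haveLebesgueDecomposition_add κ, Measure.add_apply]
  have h3 : (μ.singularPart κ) (A ∩ P) = 0 := measure_mono_null inter_subset_right h1
  have h4 : (κ.withDensity (μ.rnDeriv κ)) (A ∩ P) = 0 :=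
    withDensity_absolutelyContinuous _ _ (measure_mono_null inter_subset_left hA)
  rw [h3, h4, add_zero]

lemma real_mono {κ μ : Measure X} [IsFiniteMeasure μ] (h : κ ≤ μ) (B : Set X) :
    κ.real B ≤ μ.real B :=
  ENNReal.toReal_mono (measure_ne_top _ _) (h B)

/-- `κ` is almost invariant in variation along the sequence `h` -/
def AI (h : ℕ → X → X) (κ : Measure X) : Prop :=
  ∀ ε : ℝ, 0 < ε → ∀ᶠ k in atTop, ∀ B : Set X, MeasurableSet B →
    κ.real (h k ⁻¹' B) ≤ κ.real B + ε

lemma ov_of_AI {h : ℕ → X → X} (hm : ∀ k, Measurable (h k)) {κ μ : Measure X} [IsFiniteMeasure μ]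
    (hκ : κ ≤ μ) (hA : AI h κ) {c : ℝ} (hc : c < κ.real univ) :
    ∀ᶠ k in atTop, Ov c μ (μ.map (h k)) := by
  have : IsFiniteMeasure κ := isFiniteMeasure_of_le μ hκ
  filter_upwards [hA (κ.real univ - c) (by linarith)] with k hk
  intro B hB
  have h1 := hk B hB
  have h2 : κ.real (h k ⁻¹' B) + κ.real (h k ⁻¹' Bᶜ) = κ.real univ := by
    rw [preimage_compl]
    exact measureReal_add_measureReal_compl (hm k hB)
  have h3 : (μ.map (h k)).real Bᶜ = μ.real (h k ⁻¹' Bᶜ) := by
    rw [Measure.real, Measure.real, Measure.map_apply (hm k) hB.compl]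
  have h4 := real_mono hκ B
  have h5 := real_mono hκ (h k ⁻¹' Bᶜ)
  rw [h3]
  linarith

/-- two-sided form of almost invariance -/
lemma AI_both {h : ℕ → X → X} (hm : ∀ k, Measurable (h k)) {κ : Measure X} [IsFiniteMeasure κ]
    (hA : AI h κ) {ε : ℝ} (hε : 0 < ε) : ∀ᶠ k in atTop, ∀ B : Set X, MeasurableSet B →
    |κ.real (h k ⁻¹' B) - κ.real B| ≤ ε := by
  filter_upwards [hA ε hε] with k hk
  intro B hB
  have h1 := hk B hB
  have h2 := hk Bᶜ hB.compl
  have h3 : κ.real (h k ⁻¹' B) + κ.real (h k ⁻¹' Bᶜ) = κ.real univ := by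
    rw [preimage_compl]
    exact measureReal_add_measureReal_compl (hm k hB)
  have h4 : κ.real B + κ.real Bᶜ = κ.real univ := measureReal_add_measureReal_compl hB
  rw [abs_le]
  constructor <;> linarith

end basic

section top

variable {X : Type*} [TopologicalSpace X] [PolishSpace X] [MeasurableSpace X] [BorelSpace X]

/-- the overlap is upper semicontinuous -/
lemma ov_closed {c : ℝ} {μ : Measure X} [IsFiniteMeasure μ] {h : ℕ → X → X} {g : X → X}
    (hm : ∀ k, Measurable (h k)) (hg : Measurable g)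
    (hc : ∀ x, Tendsto (fun k => h k x) atTop (𝓝 (g x)))
    (ho : ∀ᶠ k in atTop, Ov c μ (μ.map (h k))) : Ov c μ (μ.map g) := by
  intro B hB
  refine le_of_forall_pos_le_add fun ε' hε' => ?_
  obtain ⟨ε, hε, hεε⟩ : ∃ ε : ℝ, 0 < ε ∧ ε' = ε + ε := ⟨ε' / 2, by linarith, by ring⟩
  obtain ⟨U, hBU, hUo, hU⟩ := Set.exists_isOpen_lt_add (μ := μ) B (measure_ne_top _ _)
    (ε := ENNReal.ofReal ε) (by simpa using hε)
  have hUm := hUo.measurableSet
  -- reverse Fatou
  have hlim : limsup (fun k => μ (h k ⁻¹' Uᶜ)) atTop ≤ μ (g ⁻¹' Uᶜ) := by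
    have h1 : ∀ k, μ (h k ⁻¹' Uᶜ) = ∫⁻ x, (h k ⁻¹' Uᶜ).indicator 1 x ∂μ := fun k => by
      rw [lintegral_indicator_one (hm k hUm.compl)]
    have h2 : μ (g ⁻¹' Uᶜ) = ∫⁻ x, (g ⁻¹' Uᶜ).indicator 1 x ∂μ := by
      rw [lintegral_indicator_one (hg hUm.compl)]
    simp_rw [h1]
    rw [h2]
    refine (limsup_lintegral_le (μ := μ) (f := fun k => (h k ⁻¹' Uᶜ).indicator (1 : X → ℝ≥0∞))
      (fun _ => (1 : ℝ≥0∞))
      (fun k => measurable_one.indicator (hm k hUm.compl)) (fun k => ?_) (by simp)).trans ?_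
    · exact ae_of_all _ fun x => indicator_le_self' (fun _ _ => zero_le) x
    · refine lintegral_mono fun x => ?_
      by_cases hx : g x ∈ Uᶜ
      · rw [indicator_of_mem (show x ∈ g ⁻¹' Uᶜ from hx)]
        refine limsup_le_of_le (by isBoundedDefault) (Eventually.of_forall fun k => ?_)
        exact indicator_le_self' (fun _ _ => zero_le) x
      · have hx' : g x ∈ U := by simpa using hx
        have h3 : ∀ᶠ k in atTop, h k x ∈ U := (hc x).eventually (hUo.mem_nhds hx')
        have h4 : (fun k => (h k ⁻¹' Uᶜ).indicator (1 : X → ℝ≥0∞) x) =ᶠ[atTop] fun _ => 0 := by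
          filter_upwards [h3] with k hk
          exact indicator_of_notMem (by simpa using hk) _
        rw [limsup_congr h4, limsup_const]
        exact zero_le
  have hfin : μ (g ⁻¹' Uᶜ) ≠ ∞ := measure_ne_top _ _
  have h5 : ∀ᶠ k in atTop, μ (h k ⁻¹' Uᶜ) < μ (g ⁻¹' Uᶜ) + ENNReal.ofReal ε := by
    refine eventually_lt_of_limsup_lt (lt_of_le_of_lt hlim ?_)
    exact ENNReal.lt_add_right hfin (by simpa using hε)
  obtain ⟨k, hk1, hk2⟩ := (ho.and h5).exists
  have h6 := hk1 U hUm
  rw [Measure.real, Measure.real, Measure.map_apply (hm k) hUm.compl] at h6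
  have h7 : (μ (h k ⁻¹' Uᶜ)).toReal ≤ (μ (g ⁻¹' Uᶜ)).toReal + ε := by
    have := ENNReal.toReal_mono (by finiteness) hk2.le
    rwa [ENNReal.toReal_add hfin (by finiteness), ENNReal.toReal_ofReal hε.le] at this
  have h8 : (μ U).toReal ≤ (μ B).toReal + ε := by
    have := ENNReal.toReal_mono (by finiteness) hU.le
    rwa [ENNReal.toReal_add (measure_ne_top _ _) (by finiteness), ENNReal.toReal_ofReal hε.le]
      at this
  have h9 : (μ (g ⁻¹' Uᶜ)).toReal ≤ (μ (g ⁻¹' Bᶜ)).toReal :=
    ENNReal.toReal_mono (measure_ne_top _ _)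
      (measure_mono (preimage_mono (compl_subset_compl.2 hBU)))
  rw [Measure.real, Measure.real, Measure.map_apply hg hB.compl, hεε]
  linarith

/-- almost invariance passes to absolutely continuous measures -/
lemma AI_of_ac {ρ κ : Measure X} [IsFiniteMeasure ρ] [IsFiniteMeasure κ] (hκ : κ ≪ ρ)
    {h : ℕ → X → X} (hm : ∀ k, Measurable (h k))
    (hc : ∀ x, Tendsto (fun k => h k x) atTop (𝓝 x))
    (hq : ∀ ε : ℝ, 0 < ε → ∀ᶠ k in atTop, ρ.map (h k) ≤ ENNReal.ofReal (1 + ε) • ρ) :
    AI h κ := by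
  intro ε hε
  have hLD : κ.HaveLebesgueDecomposition ρ := Measure.haveLebesgueDecomposition_of_sigmaFinite κ ρ
  set F : X → ℝ := fun x => (κ.rnDeriv ρ x).toReal with hF
  have hFi : Integrable F ρ := Measure.integrable_toReal_rnDeriv
  have hF0 : ∀ x, 0 ≤ F x := fun x => ENNReal.toReal_nonneg
  have hFs : ∀ s : Set X, ∫ x in s, F x ∂ρ = κ.real s := fun s =>
    Measure.setIntegral_toReal_rnDeriv hκ s
  obtain ⟨g₀, hg₀, hg₀i⟩ := hFi.exists_boundedContinuous_integral_sub_le (ε := ε / 5)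
    (by linarith)
  set g : X → ℝ := fun x => max (g₀ x) 0 with hg
  have hgc : Continuous g := g₀.continuous.max continuous_const
  have hg0 : ∀ x, 0 ≤ g x := fun x => le_max_right _ _
  have hgb : ∀ x, ‖g x‖ ≤ ‖g₀‖ := fun x => by
    rw [Real.norm_of_nonneg (hg0 x)]
    exact max_le ((le_abs_self _).trans (g₀.norm_coe_le_norm x)) (norm_nonneg _)
  have hgi : Integrable g ρ := Integrable.of_bound hgc.aestronglyMeasurable ‖g₀‖
    (ae_of_all _ hgb)
  have hd : ∫ x, |F x - g x| ∂ρ ≤ ε / 5 := by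
    refine le_trans (integral_mono (hFi.sub hgi).abs (hFi.sub hg₀i).norm fun x => ?_) hg₀
    change |F x - max (g₀ x) 0| ≤ |F x - g₀ x|
    rcases le_total (g₀ x) 0 with h1 | h1
    · rw [max_eq_right h1, sub_zero]
      rw [abs_of_nonneg (hF0 x), abs_of_nonneg (by linarith [hF0 x])]
      linarith
    · rw [max_eq_left h1]
  have hdi : Integrable (fun x => |F x - g x|) ρ := (hFi.sub hgi).abs
  have hghi : ∀ k, Integrable (fun x => g (h k x)) ρ := fun k =>
    Integrable.of_bound (hgc.measurable.comp (hm k)).aestronglyMeasurable ‖g₀‖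
      (ae_of_all _ fun x => hgb _)
  -- continuity
  have hlim : Tendsto (fun k => ∫ x, |g x - g (h k x)| ∂ρ) atTop (𝓝 0) := by
    have h1 : Tendsto (fun k => ∫ x, |g x - g (h k x)| ∂ρ) atTop (𝓝 (∫ _, (0 : ℝ) ∂ρ)) := by
      refine tendsto_integral_of_dominated_convergence (fun _ => 2 * ‖g₀‖)
        (fun k => (hgi.sub (hghi k)).abs.aestronglyMeasurable) (integrable_const _)
        (fun k => ae_of_all _ fun x => ?_) (ae_of_all _ fun x => ?_)
      · rw [Real.norm_eq_abs, abs_abs]
        refine (abs_sub _ _).trans ?_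
        have := hgb x
        have := hgb (h k x)
        simp only [Real.norm_eq_abs] at *
        linarith
      · have h2 : Tendsto (fun k => g (h k x)) atTop (𝓝 (g x)) := (hgc.tendsto x).comp (hc x)
        have h3 := (tendsto_const_nhds (x := g x)).sub h2
        rw [sub_self] at h3
        simpa using h3.abs
    simpa using h1
  set J : ℝ := ∫ x, g x ∂ρ with hJ
  have hJ0 : 0 ≤ J := integral_nonneg hg0
  have hη : 0 < ε / (5 * (1 + J)) := by positivity
  filter_upwards [hq _ hη, hlim.eventually (gt_mem_nhds (show (0 : ℝ) < ε / 5 by linarith))]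
    with k hk1 hk2
  intro B hB
  have hB' := hm k hB
  -- step one
  have s1 : κ.real (h k ⁻¹' B) ≤ ∫ x in h k ⁻¹' B, g x ∂ρ + ε / 5 := by
    rw [← hFs]
    have h1 : ∫ x in h k ⁻¹' B, F x ∂ρ ≤ ∫ x in h k ⁻¹' B, (g x + |F x - g x|) ∂ρ :=
      integral_mono hFi.integrableOn (hgi.add hdi).integrableOn fun x => by
        have := le_abs_self (F x - g x)
        simp only
        linarith
    rw [integral_add hgi.integrableOn hdi.integrableOn] at h1
    have h2 : ∫ x in h k ⁻¹' B, |F x - g x| ∂ρ ≤ ∫ x, |F x - g x| ∂ρ :=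
      setIntegral_le_integral hdi (ae_of_all _ fun x => abs_nonneg _)
    linarith
  have s2 : ∫ x in h k ⁻¹' B, g x ∂ρ ≤ ∫ x in h k ⁻¹' B, g (h k x) ∂ρ + ε / 5 := by
    have hi : Integrable (fun x => |g x - g (h k x)|) ρ := (hgi.sub (hghi k)).abs
    have h1 : ∫ x in h k ⁻¹' B, g x ∂ρ ≤ ∫ x in h k ⁻¹' B, (g (h k x) + |g x - g (h k x)|) ∂ρ :=
      integral_mono hgi.integrableOn ((hghi k).add hi).integrableOn fun x => by
        have := le_abs_self (g x - g (h k x))
        simp only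
        linarith
    rw [integral_add (hghi k).integrableOn hi.integrableOn] at h1
    have h2 : ∫ x in h k ⁻¹' B, |g x - g (h k x)| ∂ρ ≤ ∫ x, |g x - g (h k x)| ∂ρ :=
      setIntegral_le_integral hi (ae_of_all _ fun x => abs_nonneg _)
    linarith
  have s3 : ∫ x in h k ⁻¹' B, g (h k x) ∂ρ ≤ (1 + ε / (5 * (1 + J))) * ∫ x in B, g x ∂ρ := by
    have h1 : ∫ x in h k ⁻¹' B, g (h k x) ∂ρ = ∫ x in B, g x ∂(ρ.map (h k)) :=
      (setIntegral_map hB hgc.aestronglyMeasurable (hm k).aemeasurable).symm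
    rw [h1]
    have h2 : ∫ x in B, g x ∂(ρ.map (h k)) ≤
        ∫ x in B, g x ∂(ENNReal.ofReal (1 + ε / (5 * (1 + J))) • ρ) := by
      refine integral_mono_measure (Measure.restrict_mono_measure hk1 B)
        (ae_of_all _ hg0) ?_
      exact (hgi.smul_measure ENNReal.ofReal_ne_top).integrableOn
    refine h2.trans (le_of_eq ?_)
    rw [Measure.restrict_smul, integral_smul_measure, ENNReal.toReal_ofReal (by positivity),
      smul_eq_mul]
  have s4 : ∫ x in B, g x ∂ρ ≤ J := setIntegral_le_integral hgi (ae_of_all _ hg0)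
  have s5 : ε / (5 * (1 + J)) * ∫ x in B, g x ∂ρ ≤ ε / 5 := by
    have h1 : ε / (5 * (1 + J)) * ∫ x in B, g x ∂ρ ≤ ε / (5 * (1 + J)) * (1 + J) :=
      mul_le_mul_of_nonneg_left (by linarith) hη.le
    have h2 : ε / (5 * (1 + J)) * (1 + J) = ε / 5 := by
      field_simp
    linarith
  have s6 : ∫ x in B, g x ∂ρ ≤ κ.real B + ε / 5 := by
    rw [← hFs]
    have h1 : ∫ x in B, g x ∂ρ ≤ ∫ x in B, (F x + |F x - g x|) ∂ρ :=
      integral_mono hgi.integrableOn (hFi.add hdi).integrableOn fun x => by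
        have := neg_abs_le (F x - g x)
        simp only
        linarith
    rw [integral_add hFi.integrableOn hdi.integrableOn] at h1
    have h2 : ∫ x in B, |F x - g x| ∂ρ ≤ ∫ x, |F x - g x| ∂ρ :=
      setIntegral_le_integral hdi (ae_of_all _ fun x => abs_nonneg _)
    linarith
  linarith

end top

end Pool.Agent.TH277.MR
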