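import Pool.Agent.TH277.MR.A

/-!
A flow normalised (with scaling) by an ergodic family of maps: if the images of the measure under
the flow overlap the measure by a fixed amount, the measure is invariant under the flow.
-/

set_option autoImplicit false

open MeasureTheory Filter Topology Set
open scoped ENNReal

namespace Pool.Agent.TH277.MR

/-- a finite measure on the line, almost invariant under small translations -/
noncomputable def gam : Measure ℝ :=
  (volume : Measure ℝ).withDensity fun s => ENNReal.ofReal ((1 + s ^ 2)⁻¹)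

lemma gam_meas : Measurable fun s : ℝ => ENNReal.ofReal ((1 + s ^ 2)⁻¹) := by fun_prop

instance : IsFiniteMeasure gam :=
  isFiniteMeasure_withDensity_ofReal integrable_inv_one_add_sq.2

lemma gam_ac : gam ≪ (volume : Measure ℝ) := withDensity_absolutelyContinuous _ _

lemma ac_gam : (volume : Measure ℝ) ≪ gam :=
  withDensity_absolutelyContinuous' gam_meas.aemeasurable
    (ae_of_all _ fun s => by
      have : (0 : ℝ) < (1 + s ^ 2)⁻¹ := by positivity
      simpa using this)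

lemma dens_le (r s : ℝ) : (1 + (s - r) ^ 2)⁻¹ ≤ (1 + (|r| + r ^ 2)) * (1 + s ^ 2)⁻¹ := by
  rw [inv_eq_one_div, ← div_eq_mul_inv, div_le_div_iff₀ (by positivity) (by positivity)]
  have h1 : 2 * r * (s - r) ≤ |r| * (1 + (s - r) ^ 2) := by
    have h2 : 2 * r * (s - r) ≤ |2 * r * (s - r)| := le_abs_self _
    have h3 : |2 * r * (s - r)| = |r| * (2 * |s - r|) := by
      rw [abs_mul, abs_mul, abs_two]; ring
    have h4 : 2 * |s - r| ≤ 1 + (s - r) ^ 2 := by
      nlinarith [sq_nonneg (|s - r| - 1), sq_abs (s - r)]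
    have h5 := mul_le_mul_of_nonneg_left h4 (abs_nonneg r)
    linarith
  nlinarith [sq_nonneg (s - r), sq_nonneg r, mul_nonneg (sq_nonneg r) (sq_nonneg (s - r))]

section flow

variable {X : Type*} [MeasurableSpace X]

/-- the average of the images of `μ` under the flow -/
noncomputable def avg (u : ℝ → X → X) (μ : Measure X) : Measure X :=
  (gam.prod μ).map fun p => u p.1 p.2

variable {u : ℝ → X → X} (hu : Measurable fun p : ℝ × X => u p.1 p.2)

include hu in
lemma meas_u (s : ℝ) : Measurable (u s) := hu.comp measurable_prodMk_left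

lemma avg_fin (μ : Measure X) [IsFiniteMeasure μ] : IsFiniteMeasure (avg u μ) := by
  unfold avg
  infer_instance

include hu in
lemma avg_apply (μ : Measure X) [IsFiniteMeasure μ] {B : Set X} (hB : MeasurableSet B) :
    avg u μ B = ∫⁻ s, μ (u s ⁻¹' B) ∂gam := by
  unfold avg
  rw [Measure.map_apply hu hB, Measure.prod_apply (hu hB)]
  rfl

include hu in
lemma meas_G (μ : Measure X) [IsFiniteMeasure μ] {B : Set X} (hB : MeasurableSet B) :
    Measurable fun s => μ (u s ⁻¹' B) :=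
  measurable_measure_prodMk_left (hu hB)

include hu in
lemma avg_null (μ : Measure X) [IsFiniteMeasure μ] {B : Set X} (hB : MeasurableSet B) :
    avg u μ B = 0 ↔ ∀ᵐ s : ℝ, μ (u s ⁻¹' B) = 0 := by
  rw [avg_apply hu μ hB, lintegral_eq_zero_iff (meas_G hu μ hB)]
  exact ⟨fun h => ac_gam.ae_le h, fun h => gam_ac.ae_le h⟩

include hu in
lemma avg_quasi (hadd : ∀ s t x, u (s + t) x = u s (u t x)) (μ : Measure X) [IsFiniteMeasure μ]
    (r : ℝ) : (avg u μ).map (u r) ≤ ENNReal.ofReal (1 + (|r| + r ^ 2)) • avg u μ := by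
  refine Measure.le_iff.2 fun B hB => ?_
  have hG := meas_G hu μ hB
  rw [Measure.map_apply (meas_u hu r) hB, avg_apply hu μ (meas_u hu r hB), Measure.smul_apply,
    smul_eq_mul, avg_apply hu μ hB]
  have h1 : ∀ s, μ (u s ⁻¹' (u r ⁻¹' B)) = μ (u (r + s) ⁻¹' B) := fun s => by
    congr 1
    ext x
    simp [hadd]
  simp_rw [h1]
  have hG' : Measurable fun s => μ (u (r + s) ⁻¹' B) := hG.comp (measurable_const_add r)
  unfold gam
  rw [lintegral_withDensity_eq_lintegral_mul _ gam_meas hG',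
    lintegral_withDensity_eq_lintegral_mul _ gam_meas hG]
  have h2 : ∫⁻ s, ((fun s : ℝ => ENNReal.ofReal ((1 + s ^ 2)⁻¹)) *
      fun s => μ (u (r + s) ⁻¹' B)) s =
      ∫⁻ s, ENNReal.ofReal ((1 + (s - r) ^ 2)⁻¹) * μ (u s ⁻¹' B) := by
    rw [← lintegral_add_left_eq_self (fun s => ENNReal.ofReal ((1 + (s - r) ^ 2)⁻¹) *
      μ (u s ⁻¹' B)) r]
    refine lintegral_congr fun s => ?_
    simp
  rw [h2, ← lintegral_const_mul _ (gam_meas.mul hG)]
  refine lintegral_mono fun s => ?_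
  simp only [Pi.mul_apply]
  rw [← mul_assoc, ← ENNReal.ofReal_mul (by positivity)]
  gcongr
  exact dens_le r s

end flow

section ergodic

variable {X : Type*} [TopologicalSpace X] [PolishSpace X] [MeasurableSpace X] [BorelSpace X]

/-- **Overlap along a normalised flow gives invariance.** -/
theorem flow_inv {u : ℝ → X → X} (huc : Continuous fun p : ℝ × X => u p.1 p.2)
    (hadd : ∀ s t x, u (s + t) x = u s (u t x)) (h0 : ∀ x, u 0 x = x)
    {μ : Measure X} [IsFiniteMeasure μ] {𝒜 : Set (X → X)}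
    (hA : ∀ f ∈ 𝒜, Measurable f ∧ μ.map f = μ)
    (herg : ∀ E, MeasurableSet E → (∀ f ∈ 𝒜, f ⁻¹' E =ᵐ[μ] E) → μ E = 0 ∨ μ Eᶜ = 0)
    (hn : ∀ f ∈ 𝒜, ∃ χ : ℝ, χ ≠ 0 ∧ ∀ s x, f (u s x) = u (χ * s) (f x))
    (hcon : ∀ s : ℝ, ∃ (f g : ℕ → X → X) (r : ℕ → ℝ), Tendsto r atTop (𝓝 0) ∧
      ∀ k, Measurable (f k) ∧ Measurable (g k) ∧ μ.map (f k) = μ ∧ (∀ x, g k (f k x) = x) ∧
        ∀ x, f k (u s x) = u (r k) (f k x))
    {c : ℝ} (hc : 0 < c) (ho : ∀ s, Ov c μ (μ.map (u s))) (s : ℝ) : μ.map (u s) = μ := by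
  have hsec : SecondCountableTopology X := inferInstance
  have hu : Measurable fun p : ℝ × X => u p.1 p.2 := huc.measurable
  have hum := meas_u hu
  have hfin := avg_fin (u := u) μ
  obtain ⟨P, hP, hP1, hP2⟩ := carrier μ (avg u μ)
  have hPae : ∀ᵐ s : ℝ, μ (u s ⁻¹' Pᶜ) = 0 := (avg_null hu μ hP.compl).1 hP1
  -- `Pᶜ` is invariant
  have hinv : ∀ f ∈ 𝒜, f ⁻¹' P =ᵐ[μ] P := by
    intro f hf
    obtain ⟨hfm, hfμ⟩ := hA f hf
    obtain ⟨χ, hχ, hχu⟩ := hn f hf
    have h1 : avg u μ (f ⁻¹' Pᶜ) = 0 := by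
      rw [avg_null hu μ (hfm hP.compl)]
      have h2 : ∀ s, μ (u s ⁻¹' (f ⁻¹' Pᶜ)) = μ (u (χ * s) ⁻¹' Pᶜ) := fun s => by
        have h3 : u s ⁻¹' (f ⁻¹' Pᶜ) = f ⁻¹' (u (χ * s) ⁻¹' Pᶜ) := by
          ext x
          simp [hχu]
        rw [h3, ← Measure.map_apply hfm (hum _ hP.compl), hfμ]
      simp_rw [h2]
      have h4 : volume {s : ℝ | ¬ μ (u s ⁻¹' Pᶜ) = 0} = 0 := hPae
      change volume ((fun s => χ * s) ⁻¹' {s : ℝ | ¬ μ (u s ⁻¹' Pᶜ) = 0}) = 0
      rw [Real.volume_preimage_mul_left hχ, h4, mul_zero]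
    have h5 : μ (f ⁻¹' Pᶜ ∩ P) = 0 := hP2 _ h1
    have h6 : μ (f ⁻¹' Pᶜ) = μ Pᶜ := by rw [← Measure.map_apply hfm hP.compl, hfμ]
    have h7 : f ⁻¹' Pᶜ ≤ᵐ[μ] Pᶜ := by
      have : μ (f ⁻¹' Pᶜ \ Pᶜ) = 0 := by rwa [sdiff_eq, compl_compl]
      exact ae_le_set.2 this
    have h8 : f ⁻¹' Pᶜ =ᵐ[μ] Pᶜ :=
      ae_eq_of_ae_subset_of_measure_ge h7 h6.ge (hfm hP.compl).nullMeasurableSet
        (measure_ne_top _ _)
    have h9 : ((f ⁻¹' Pᶜ)ᶜ : Set X) =ᵐ[μ] (Pᶜᶜ : Set X) := h8.compl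
    have e1 : ((f ⁻¹' Pᶜ)ᶜ : Set X) = f ⁻¹' P := by rw [preimage_compl, compl_compl]
    have e2 : (Pᶜᶜ : Set X) = P := compl_compl P
    rw [e1, e2] at h9
    exact h9
  have hPc : μ Pᶜ = 0 := by
    rcases herg P hP hinv with h1 | h1
    · exfalso
      obtain ⟨s, hs⟩ := hPae.exists
      have h2 := ho s P hP
      rw [Measure.real, Measure.real, Measure.map_apply (hum s) hP.compl, hs, h1] at h2
      simp at h2
      linarith
    · exact h1
  have hac : μ ≪ avg u μ := by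
    refine Measure.AbsolutelyContinuous.mk fun A _ hA0 => ?_
    refine measure_mono_null (fun x hx => ?_) (measure_union_null (hP2 A hA0) hPc)
    by_cases h : x ∈ P
    · exact Or.inl ⟨hx, h⟩
    · exact Or.inr h
  obtain ⟨f, g, r, hr, hfg⟩ := hcon s
  have hAI : AI (fun k => u (r k)) μ := by
    refine AI_of_ac hac (fun k => hum _) (fun x => ?_) fun ε hε => ?_
    · have h1 : Tendsto (fun k => (r k, x)) atTop (𝓝 ((0 : ℝ), x)) :=
        hr.prodMk_nhds tendsto_const_nhds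
      have h2 := (huc.tendsto (0, x)).comp h1
      rw [h0] at h2
      exact h2
    · have h1 : Tendsto (fun k => |r k| + r k ^ 2) atTop (𝓝 0) := by
        have := hr.abs.add (hr.pow 2)
        simpa using this
      filter_upwards [h1.eventually (gt_mem_nhds hε)] with k hk
      refine (avg_quasi hu hadd μ (r k)).trans ?_
      refine Measure.le_iff.2 fun B hB => ?_
      rw [Measure.smul_apply, Measure.smul_apply, smul_eq_mul, smul_eq_mul]
      gcongr
  refine Measure.ext fun B hB => ?_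
  rw [Measure.map_apply (hum s) hB]
  refine (ENNReal.toReal_eq_toReal_iff' (measure_ne_top _ _) (measure_ne_top _ _)).1 ?_
  change μ.real (u s ⁻¹' B) = μ.real B
  refine eq_of_abs_sub_nonpos (le_of_forall_pos_le_add fun ε hε => ?_)
  obtain ⟨k, hk⟩ := (AI_both (fun k => hum _) hAI hε).exists
  obtain ⟨hf, hg, hfμ, hgf, hfu⟩ := hfg k
  have h1 := hk _ (hg hB)
  have h2 : μ.real (u (r k) ⁻¹' (g k ⁻¹' B)) = μ.real (u s ⁻¹' B) := by
    have h3 : u s ⁻¹' B = f k ⁻¹' (u (r k) ⁻¹' (g k ⁻¹' B)) := by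
      ext x
      simp only [mem_preimage]
      rw [← hfu, hgf]
    rw [h3, Measure.real, Measure.real, ← Measure.map_apply hf (hum _ (hg hB)), hfμ]
  have h4 : μ.real (g k ⁻¹' B) = μ.real B := by
    have h3 : B = f k ⁻¹' (g k ⁻¹' B) := by
      ext x
      simp only [mem_preimage]
      rw [hgf]
    conv_rhs => rw [h3]
    rw [Measure.real, Measure.real, ← Measure.map_apply hf (hg hB), hfμ]
  rw [h2, h4] at h1
  linarith

end ergodic

end Pool.Agent.TH277.MR
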