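import Mathlib

/-!
Gaussian elimination near the identity inside a group generated by positive diagonal matrices
and root groups.
-/

set_option autoImplicit false

open Filter Topology Matrix

namespace Pool.Agent.TH277.MR

variable {ι : Type*} [Fintype ι] [DecidableEq ι]

/-- the real special linear group -/
abbrev SLR (ι : Type*) [Fintype ι] [DecidableEq ι] := Matrix.SpecialLinearGroup ι ℝ

/-- the root elements `1 + x E_{ij}` -/
abbrev tv {i j : ι} (h : i ≠ j) (x : ℝ) : SLR ι := SpecialLinearGroup.transvection h x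

/-- diagonal matrices with positive entries -/
def IsPosDiag (t : SLR ι) : Prop := (∀ i j, i ≠ j → t i j = 0) ∧ ∀ i, 0 < t i i

lemma tv_apply {i j : ι} (h : i ≠ j) (x : ℝ) (a b : ι) :
    tv h x a b = (1 : Matrix ι ι ℝ) a b + if i = a ∧ j = b then x else 0 := by
  change (Matrix.transvection i j x) a b = _
  rw [Matrix.transvection, Matrix.add_apply, Matrix.single_apply]

lemma tendsto_sl {α : Type*} {f : α → SLR ι} {l : Filter α} {g : SLR ι} :
    Tendsto f l (𝓝 g) ↔ ∀ i j, Tendsto (fun x => f x i j) l (𝓝 (g i j)) := by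
  refine ((SpecialLinearGroup.isClosedEmbedding_val
    (n := ι) (R := ℝ)).isInducing.tendsto_nhds_iff).trans ?_
  refine (tendsto_pi_nhds (f := fun x => ((f x : Matrix ι ι ℝ)))).trans ?_
  refine forall_congr' fun i => ?_
  exact tendsto_pi_nhds

lemma cont_entry (i j : ι) : Continuous fun M : SLR ι => M i j := by
  exact continuous_iff_continuousAt.2 fun M => (tendsto_sl.1 tendsto_id) i j

lemma col_mem (H : Subgroup (SLR ι)) (k : ι) (v : ι → ℝ)
    (hv : ∀ i (h : i ≠ k), v i ≠ 0 → ∀ x, tv h x ∈ H) (J : Finset ι) (hk : k ∉ J) :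
    ∃ L ∈ H, ∀ i j, L i j = (1 : Matrix ι ι ℝ) i j + if j = k ∧ i ∈ J then v i else 0 := by
  induction J using Finset.induction_on with
  | empty => exact ⟨1, H.one_mem, fun i j => by simp⟩
  | insert l J hl ih =>
    have hlk : l ≠ k := fun h => hk (h ▸ Finset.mem_insert_self _ _)
    have hkJ : k ∉ J := fun h => hk (Finset.mem_insert_of_mem h)
    obtain ⟨L, hL, hLe⟩ := ih hkJ
    by_cases hvl : v l = 0
    · refine ⟨L, hL, fun i j => ?_⟩
      rw [hLe]
      congr 1
      by_cases h1 : j = k
      · by_cases h2 : i = l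
        · subst h2
          simp [hl, hvl]
        · simp [h1, h2]
      · simp [h1]
    · refine ⟨tv hlk (v l) * L, H.mul_mem (hv l hlk hvl _) hL, fun i j => ?_⟩
      change (Matrix.transvection l k (v l) * (L : Matrix ι ι ℝ)) i j = _
      by_cases h2 : i = l
      · subst h2
        rw [Matrix.transvection_mul_apply_same]
        have e1 := hLe i j
        have e2 := hLe k j
        rw [e1, e2]
        by_cases h1 : j = k
        · subst h1
          simp [hl, hkJ]
        · simp [h1, Matrix.one_apply, Ne.symm h1]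
      · rw [Matrix.transvection_mul_apply_of_ne _ _ _ _ h2]
        have e1 := hLe i j
        rw [e1]
        simp [h2]

lemma row_mem (H : Subgroup (SLR ι)) (k : ι) (v : ι → ℝ)
    (hv : ∀ j (h : k ≠ j), v j ≠ 0 → ∀ x, tv h x ∈ H) (J : Finset ι) (hk : k ∉ J) :
    ∃ L ∈ H, ∀ i j, L i j = (1 : Matrix ι ι ℝ) i j + if i = k ∧ j ∈ J then v j else 0 := by
  induction J using Finset.induction_on with
  | empty => exact ⟨1, H.one_mem, fun i j => by simp⟩
  | insert l J hl ih =>
    have hlk : k ≠ l := fun h => hk (h ▸ Finset.mem_insert_self _ _)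
    have hkJ : k ∉ J := fun h => hk (Finset.mem_insert_of_mem h)
    obtain ⟨L, hL, hLe⟩ := ih hkJ
    by_cases hvl : v l = 0
    · refine ⟨L, hL, fun i j => ?_⟩
      rw [hLe]
      congr 1
      by_cases h1 : i = k
      · by_cases h2 : j = l
        · subst h2
          simp [hl, hvl]
        · simp [h1, h2]
      · simp [h1]
    · refine ⟨L * tv hlk (v l), H.mul_mem hL (hv l hlk hvl _), fun i j => ?_⟩
      change ((L : Matrix ι ι ℝ) * Matrix.transvection k l (v l)) i j = _
      by_cases h2 : j = l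
      · subst h2
        rw [Matrix.mul_transvection_apply_same]
        have e1 := hLe i j
        have e2 := hLe i k
        rw [e1, e2]
        by_cases h1 : i = k
        · subst h1
          simp [hl, hkJ]
        · simp [h1, Matrix.one_apply]
      · rw [Matrix.mul_transvection_apply_of_ne _ _ _ _ h2]
        have e1 := hLe i j
        rw [e1]
        simp [h2]

/-- the matrix clearing column `k` -/
def colM (k : ι) (v : ι → ℝ) : Matrix ι ι ℝ :=
  fun i j => (1 : Matrix ι ι ℝ) i j + if j = k ∧ i ∈ Finset.univ.erase k then v i else 0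

/-- the matrix clearing row `k` -/
def rowM (k : ι) (v : ι → ℝ) : Matrix ι ι ℝ :=
  fun i j => (1 : Matrix ι ι ℝ) i j + if i = k ∧ j ∈ Finset.univ.erase k then v j else 0

lemma det_colM (k : ι) (v : ι → ℝ) : (colM k v).det = 1 := by
  obtain ⟨L, -, hL⟩ := col_mem (⊤ : Subgroup (SLR ι)) k v (fun _ _ _ _ => Subgroup.mem_top _)
    (Finset.univ.erase k) (Finset.notMem_erase _ _)
  have : colM k v = L.1 := by
    ext i j
    exact (hL i j).symm
  rw [this, L.2]

lemma det_rowM (k : ι) (v : ι → ℝ) : (rowM k v).det = 1 := by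
  obtain ⟨L, -, hL⟩ := row_mem (⊤ : Subgroup (SLR ι)) k v (fun _ _ _ _ => Subgroup.mem_top _)
    (Finset.univ.erase k) (Finset.notMem_erase _ _)
  have : rowM k v = L.1 := by
    ext i j
    exact (hL i j).symm
  rw [this, L.2]

/-- clearing column `k` -/
noncomputable def LL (k : ι) (M : SLR ι) : SLR ι :=
  ⟨colM k fun i => -(M i k / M k k), det_colM _ _⟩

/-- clearing row `k` -/
noncomputable def UU (k : ι) (M : SLR ι) : SLR ι :=
  ⟨rowM k fun j => -(M k j / M k k), det_rowM _ _⟩

/-- one elimination step -/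
noncomputable def Ph (k : ι) (M : SLR ι) : SLR ι := LL k M * M * UU k M

lemma LL_mem (H : Subgroup (SLR ι)) (k : ι) (M : SLR ι)
    (hv : ∀ i (h : i ≠ k), M i k ≠ 0 → ∀ x, tv h x ∈ H) : LL k M ∈ H := by
  obtain ⟨L, hL, hLe⟩ := col_mem H k (fun i => -(M i k / M k k))
    (fun i h hi => hv i h fun h0 => hi (by simp [h0]))
    (Finset.univ.erase k) (Finset.notMem_erase _ _)
  have : LL k M = L := by
    ext i j
    exact (hLe i j).symm
  rwa [this]

lemma UU_mem (H : Subgroup (SLR ι)) (k : ι) (M : SLR ι)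
    (hv : ∀ j (h : k ≠ j), M k j ≠ 0 → ∀ x, tv h x ∈ H) : UU k M ∈ H := by
  obtain ⟨L, hL, hLe⟩ := row_mem H k (fun j => -(M k j / M k k))
    (fun j h hj => hv j h fun h0 => hj (by simp [h0]))
    (Finset.univ.erase k) (Finset.notMem_erase _ _)
  have : UU k M = L := by
    ext i j
    exact (hLe i j).symm
  rwa [this]

lemma LL_tendsto (k : ι) : Tendsto (LL k) (𝓝 (1 : SLR ι)) (𝓝 1) := by
  rw [tendsto_sl]
  intro i j
  have hkk : (1 : SLR ι) k k = 1 := by simp
  by_cases h : j = k ∧ i ∈ Finset.univ.erase k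
  · have h1 : Tendsto (fun M : SLR ι => M i k / M k k) (𝓝 1)
        (𝓝 ((1 : SLR ι) i k / (1 : SLR ι) k k)) :=
      ((cont_entry i k).tendsto 1).div ((cont_entry k k).tendsto 1) (by rw [hkk]; norm_num)
    have hik : i ≠ k := Finset.ne_of_mem_erase h.2
    have h2 : (1 : SLR ι) i k = 0 := by simp [hik]
    rw [h2, zero_div] at h1
    have h3 : Tendsto (fun M : SLR ι => (1 : Matrix ι ι ℝ) i j + -(M i k / M k k)) (𝓝 1)
        (𝓝 ((1 : Matrix ι ι ℝ) i j + -0)) := tendsto_const_nhds.add h1.neg
    have h4 : ∀ M : SLR ι, LL k M i j = (1 : Matrix ι ι ℝ) i j + -(M i k / M k k) := fun M => by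
      change (1 : Matrix ι ι ℝ) i j + _ = _
      rw [if_pos h]
    simp_rw [h4]
    simpa using h3
  · have h4 : ∀ M : SLR ι, LL k M i j = (1 : Matrix ι ι ℝ) i j := fun M => by
      change (1 : Matrix ι ι ℝ) i j + _ = _
      rw [if_neg h, add_zero]
    simp_rw [h4]
    exact tendsto_const_nhds

lemma UU_tendsto (k : ι) : Tendsto (UU k) (𝓝 (1 : SLR ι)) (𝓝 1) := by
  rw [tendsto_sl]
  intro i j
  have hkk : (1 : SLR ι) k k = 1 := by simp
  by_cases h : i = k ∧ j ∈ Finset.univ.erase k
  · have h1 : Tendsto (fun M : SLR ι => M k j / M k k) (𝓝 1)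
        (𝓝 ((1 : SLR ι) k j / (1 : SLR ι) k k)) :=
      ((cont_entry k j).tendsto 1).div ((cont_entry k k).tendsto 1) (by rw [hkk]; norm_num)
    have hik : j ≠ k := Finset.ne_of_mem_erase h.2
    have h2 : (1 : SLR ι) k j = 0 := by simp [hik.symm]
    rw [h2, zero_div] at h1
    have h3 : Tendsto (fun M : SLR ι => (1 : Matrix ι ι ℝ) i j + -(M k j / M k k)) (𝓝 1)
        (𝓝 ((1 : Matrix ι ι ℝ) i j + -0)) := tendsto_const_nhds.add h1.neg
    have h4 : ∀ M : SLR ι, UU k M i j = (1 : Matrix ι ι ℝ) i j + -(M k j / M k k) := fun M => by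
      change (1 : Matrix ι ι ℝ) i j + _ = _
      rw [if_pos h]
    simp_rw [h4]
    simpa using h3
  · have h4 : ∀ M : SLR ι, UU k M i j = (1 : Matrix ι ι ℝ) i j := fun M => by
      change (1 : Matrix ι ι ℝ) i j + _ = _
      rw [if_neg h, add_zero]
    simp_rw [h4]
    exact tendsto_const_nhds

lemma Ph_tendsto (k : ι) : Tendsto (Ph k) (𝓝 (1 : SLR ι)) (𝓝 1) := by
  have h := ((LL_tendsto k).mul tendsto_id).mul (UU_tendsto k)
  rw [mul_one, mul_one] at h
  exact h

lemma LM_apply (k : ι) (M : SLR ι) (i j : ι) :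
    (LL k M * M) i j = M i j + if i = k then 0 else -(M i k / M k k) * M k j := by
  change ((LL k M : Matrix ι ι ℝ) * (M : Matrix ι ι ℝ)) i j = _
  rw [Matrix.mul_apply]
  have h1 : ∀ l, (LL k M : Matrix ι ι ℝ) i l * (M : Matrix ι ι ℝ) l j =
      (if i = l then M i j else 0) +
        if l = k then (if i = k then 0 else -(M i k / M k k) * M k j) else 0 := fun l => by
    change ((1 : Matrix ι ι ℝ) i l + _) * _ = _
    by_cases h2 : i = l
    · subst h2
      by_cases h3 : i = k
      · subst h3; simp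
      · simp [h3]
    · by_cases h3 : l = k
      · subst h3; simp [h2]
      · simp [h2, h3]
  rw [Finset.sum_congr rfl fun l _ => h1 l, Finset.sum_add_distrib]
  simp

lemma Ph_apply (k : ι) (M : SLR ι) (i j : ι) :
    Ph k M i j = (LL k M * M) i j +
      if j = k then 0 else (LL k M * M) i k * -(M k j / M k k) := by
  unfold Ph
  set N := LL k M * M
  change ((N : Matrix ι ι ℝ) * (UU k M : Matrix ι ι ℝ)) i j = _
  rw [Matrix.mul_apply]
  have h1 : ∀ l, (N : Matrix ι ι ℝ) i l * (UU k M : Matrix ι ι ℝ) l j =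
      (if l = j then N i j else 0) +
        if l = k then (if j = k then 0 else N i k * -(M k j / M k k)) else 0 := fun l => by
    change _ * ((1 : Matrix ι ι ℝ) l j + _) = _
    by_cases h2 : l = j
    · subst h2
      by_cases h3 : l = k
      · subst h3; simp
      · simp [h3]
    · by_cases h3 : l = k
      · subst h3
        have h4 : j ≠ l := fun h => h2 h.symm
        simp [h2, h4]
      · simp [h2, h3]
  rw [Finset.sum_congr rfl fun l _ => h1 l, Finset.sum_add_distrib]
  simp

lemma Ph_of_ne {k : ι} {M : SLR ι} (hk : M k k ≠ 0) {i : ι} (hi : i ≠ k) (j : ι) :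
    Ph k M i j = M i j - M i k / M k k * M k j := by
  rw [Ph_apply, LM_apply, LM_apply, if_neg hi, if_neg hi]
  have h1 : M i k + -(M i k / M k k) * M k k = 0 := by
    field_simp
    ring
  rw [h1, zero_mul, ite_self]
  ring

lemma Ph_row {k : ι} {M : SLR ι} (hk : M k k ≠ 0) {j : ι} (hj : j ≠ k) : Ph k M k j = 0 := by
  rw [Ph_apply, LM_apply, LM_apply, if_pos rfl, if_pos rfl, if_neg hj]
  field_simp
  ring

lemma Ph_col {k : ι} {M : SLR ι} (hk : M k k ≠ 0) {i : ι} (hi : i ≠ k) : Ph k M i k = 0 := by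
  rw [Ph_of_ne hk hi]
  field_simp
  ring

lemma diag_near : ∀ᶠ M : SLR ι in 𝓝 1, ∀ i, 0 < M i i := by
  rw [eventually_all]
  intro i
  have h := (cont_entry i i).tendsto (1 : SLR ι)
  have h1 : (1 : SLR ι) i i = 1 := by simp
  rw [h1] at h
  exact h.eventually (lt_mem_nhds one_pos)

/-- **Elimination near the identity.** -/
theorem elim (H : Subgroup (SLR ι)) (hD : ∀ t, IsPosDiag t → t ∈ H) (R : ι → ι → Prop)
    (hR : ∀ i j (h : i ≠ j), R i j → ∀ x, tv h x ∈ H)
    (htr : ∀ i j k, R i j → R j k → R i k) (S : Finset ι) :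
    ∀ᶠ M : SLR ι in 𝓝 1, (∀ i j, i ≠ j → M i j ≠ 0 → R i j) →
      (∀ i, i ∉ S → ∀ j, j ≠ i → M i j = 0 ∧ M j i = 0) → M ∈ H := by
  induction S using Finset.induction_on with
  | empty =>
    filter_upwards [diag_near] with M hM _ h2
    exact hD M ⟨fun i j hij => (h2 i (by simp) j hij.symm).1, hM⟩
  | insert k S hkS ih =>
    filter_upwards [(Ph_tendsto k).eventually ih, diag_near] with M hM hpos h1 h2
    have hk : M k k ≠ 0 := (hpos k).ne'
    have hmem : Ph k M ∈ H := by
      refine hM (fun i j hij hne => ?_) (fun i hi j hj => ?_)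
      · by_cases hik : i = k
        · subst hik
          exact absurd (Ph_row hk hij.symm) hne
        · by_cases hjk : j = k
          · subst hjk
            exact absurd (Ph_col hk hik) hne
          · rw [Ph_of_ne hk hik] at hne
            by_cases h3 : M i j = 0
            · have h4 : M i k ≠ 0 := fun h => hne (by rw [h3, h]; simp)
              have h5 : M k j ≠ 0 := fun h => hne (by rw [h3, h]; simp)
              exact htr _ _ _ (h1 i k hik h4) (h1 k j (Ne.symm hjk) h5)
            · exact h1 i j hij h3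
      · by_cases hik : i = k
        · subst hik
          exact ⟨Ph_row hk hj, Ph_col hk hj⟩
        · have hi' : i ∉ insert k S := by simp [hik, hi]
          have e1 := h2 i hi' j hj
          have e2 := h2 i hi' k (Ne.symm hik)
          refine ⟨?_, ?_⟩
          · rw [Ph_of_ne hk hik, e1.1, e2.1]
            simp
          · by_cases hjk : j = k
            · subst hjk
              exact Ph_row hk hik
            · rw [Ph_of_ne hk hjk, e1.2, e2.2]
              simp
    have hL : LL k M ∈ H := LL_mem H k M fun i h hi x => hR i k h (h1 i k h hi) x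
    have hU : UU k M ∈ H := UU_mem H k M fun j h hj x => hR k j h (h1 k j h hj) x
    have h3 : M = (LL k M)⁻¹ * Ph k M * (UU k M)⁻¹ := by
      unfold Ph
      group
    rw [h3]
    exact H.mul_mem (H.mul_mem (H.inv_mem hL) hmem) (H.inv_mem hU)

/-- the commutator of two root elements -/
lemma tv_comm {i j k : ι} (hij : i ≠ j) (hjk : j ≠ k) (hik : i ≠ k) (x : ℝ) :
    tv hik x = tv hij x * tv hjk 1 * (tv hij x)⁻¹ * (tv hjk 1)⁻¹ := by
  have h : tv hik x * tv hjk 1 * tv hij x = tv hij x * tv hjk 1 := by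
    apply Subtype.ext
    change (Matrix.transvection i k x) * (Matrix.transvection j k 1) * (Matrix.transvection i j x) =
      (Matrix.transvection i j x) * (Matrix.transvection j k 1)
    simp only [Matrix.transvection]
    have e1 : Matrix.single i k x * Matrix.single j k (1 : ℝ) = 0 :=
      Matrix.single_mul_single_of_ne _ _ _ _ hjk.symm _
    have e2 : Matrix.single i k x * Matrix.single i j x = 0 :=
      Matrix.single_mul_single_of_ne _ _ _ _ hik.symm _
    have e3 : Matrix.single j k (1 : ℝ) * Matrix.single i j x = 0 :=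
      Matrix.single_mul_single_of_ne _ _ _ _ hik.symm _
    have e4 : Matrix.single i j x * Matrix.single j k (1 : ℝ) = Matrix.single i k x := by
      rw [Matrix.single_mul_single_same, mul_one]
    simp only [mul_add, add_mul, mul_one, one_mul, e1, e2, e3, e4, add_zero]
    abel
  calc tv hik x = (tv hik x * tv hjk 1 * tv hij x) * (tv hij x)⁻¹ * (tv hjk 1)⁻¹ := by group
    _ = _ := by rw [h]

end Pool.Agent.TH277.MR
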