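import Pool.Agent.TH277.MR.B
import Pool.Agent.TH277.MR.C

/-!
Root elements as limits of conjugates of small elements of a conjugate torus.
-/

set_option autoImplicit false

open Filter Topology Matrix MeasureTheory Set
open scoped ENNReal

namespace Pool.Agent.TH277.MR

variable {ι : Type*} [Fintype ι] [DecidableEq ι]

/-- the one-parameter group `diag (exp (s w_i))` -/
noncomputable def ex (w : ι → ℝ) (hw : ∑ i, w i = 0) (s : ℝ) : SLR ι :=
  ⟨Matrix.diagonal fun i => Real.exp (s * w i), by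
    rw [Matrix.det_diagonal, ← Real.exp_sum, ← Finset.mul_sum, hw, mul_zero, Real.exp_zero]⟩

lemma ex_apply (w : ι → ℝ) (hw : ∑ i, w i = 0) (s : ℝ) (i j : ι) :
    ex w hw s i j = if i = j then Real.exp (s * w i) else 0 := by
  change Matrix.diagonal _ i j = _
  rw [Matrix.diagonal_apply]

lemma ex_pos (w : ι → ℝ) (hw : ∑ i, w i = 0) (s : ℝ) : IsPosDiag (ex w hw s) :=
  ⟨fun i j hij => by rw [ex_apply, if_neg hij], fun i => by
    rw [ex_apply, if_pos rfl]; exact Real.exp_pos _⟩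

lemma ex_add (w : ι → ℝ) (hw : ∑ i, w i = 0) (s t : ℝ) :
    ex w hw (s + t) = ex w hw s * ex w hw t := by
  apply Subtype.ext
  change Matrix.diagonal _ = Matrix.diagonal _ * Matrix.diagonal _
  rw [Matrix.diagonal_mul_diagonal]
  congr 1
  funext i
  rw [add_mul, Real.exp_add]

lemma ex_zero (w : ι → ℝ) (hw : ∑ i, w i = 0) : ex w hw 0 = 1 := by
  apply Subtype.ext
  change Matrix.diagonal _ = (1 : Matrix ι ι ℝ)
  simp

lemma ex_inv (w : ι → ℝ) (hw : ∑ i, w i = 0) (s : ℝ) : (ex w hw s)⁻¹ = ex w hw (-s) := by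
  rw [inv_eq_iff_mul_eq_one, ← ex_add, add_neg_cancel, ex_zero]

lemma ex_nsmul (w : ι → ℝ) (hw : ∑ i, w i = 0) (s : ℝ) (m : ℕ) :
    ex w hw (m * s) = ex w hw s ^ m := by
  induction m with
  | zero => simp [ex_zero]
  | succ m ih =>
    rw [pow_succ, ← ih, ← ex_add]
    push_cast
    ring_nf

lemma ex_tendsto (w : ι → ℝ) (hw : ∑ i, w i = 0) : Tendsto (ex w hw) (𝓝 0) (𝓝 1) := by
  rw [tendsto_sl]
  intro i j
  simp_rw [ex_apply]
  by_cases h : i = j
  · subst h
    simp only [if_true]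
    have h1 : Continuous fun s : ℝ => Real.exp (s * w i) := by fun_prop
    have h2 := h1.tendsto 0
    have h3 : ((1 : SLR ι) : Matrix ι ι ℝ) i i = Real.exp (0 * w i) := by simp
    rw [h3]
    exact h2
  · simp only [if_neg h]
    have h3 : ((1 : SLR ι) : Matrix ι ι ℝ) i j = 0 := by simp [h]
    rw [h3]
    exact tendsto_const_nhds

/-- every positive diagonal matrix of determinant one is an exponential -/
lemma exists_ex {t : SLR ι} (ht : IsPosDiag t) : ∃ (w : ι → ℝ) (hw : ∑ i, w i = 0),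
    t = ex w hw 1 := by
  have hdiag : (t : Matrix ι ι ℝ) = Matrix.diagonal fun i => t i i := by
    ext i j
    rw [Matrix.diagonal_apply]
    by_cases h : i = j
    · subst h; simp
    · rw [if_neg h]; exact ht.1 i j h
  have hdet : ∏ i, t i i = 1 := by
    have h := t.2
    rw [hdiag, Matrix.det_diagonal] at h
    exact h
  refine ⟨fun i => Real.log (t i i), ?_, ?_⟩
  · rw [← Real.log_prod (fun i _ => (ht.2 i).ne'), hdet, Real.log_one]
  · apply Subtype.ext
    refine hdiag.trans ?_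
    change _ = Matrix.diagonal _
    congr 1
    funext i
    rw [one_mul, Real.exp_log (ht.2 i)]

/-- the weight of the root `(i, j)` -/
def pw (i j : ι) (p : ι) : ℝ := (if p = i then 1 else 0) - (if p = j then 1 else 0)

lemma pw_sum (i j : ι) : ∑ p, pw i j p = 0 := by
  simp [pw, Finset.sum_sub_distrib]

omit [Fintype ι] in
lemma pw_diff {i j : ι} (hij : i ≠ j) {p q : ι} (h : ¬ (p = i ∧ q = j)) :
    pw i j p - pw i j q ≤ 1 := by
  unfold pw
  by_cases h1 : p = i
  · have h2 : q ≠ j := fun h2 => h ⟨h1, h2⟩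
    subst h1
    by_cases h3 : q = p
    · subst h3; simp [hij]
    · simp [hij, h2, h3]
  · by_cases h2 : q = j
    · subst h2
      by_cases h3 : p = q
      · subst h3; simp [hij.symm]
      · simp [h1, h3, hij.symm]
    · by_cases h3 : p = j <;> by_cases h4 : q = i <;>
        (simp [h1, h2, h3, h4, hij, hij.symm] <;> norm_num)

omit [Fintype ι] in
lemma pw_ij {i j : ι} (hij : i ≠ j) : pw i j i - pw i j j = 2 := by
  unfold pw
  simp [hij, hij.symm]
  norm_num

/-- entries of a conjugate by a diagonal matrix -/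
lemma ex_conj (w : ι → ℝ) (hw : ∑ i, w i = 0) (s : ℝ) (M : SLR ι) (p q : ι) :
    (ex w hw s * M * (ex w hw s)⁻¹) p q = Real.exp (s * (w p - w q)) * M p q := by
  rw [ex_inv]
  change (Matrix.diagonal (fun i => Real.exp (s * w i)) * (M : Matrix ι ι ℝ) *
    Matrix.diagonal (fun i => Real.exp (-s * w i))) p q = _
  rw [Matrix.mul_diagonal, Matrix.diagonal_mul]
  have : Real.exp (s * (w p - w q)) = Real.exp (s * w p) * Real.exp (-s * w q) := by
    rw [← Real.exp_add]
    ring_nf
  rw [this]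
  ring

/-- entries of a conjugate of a diagonal matrix -/
lemma conj_ex (w : ι → ℝ) (hw : ∑ i, w i = 0) (s : ℝ) (g : SLR ι) (p q : ι) :
    (g * ex w hw s * g⁻¹) p q = ∑ m, Real.exp (s * w m) * (g p m * g⁻¹ m q) := by
  change ((g : Matrix ι ι ℝ) * Matrix.diagonal (fun i => Real.exp (s * w i)) *
    ((g⁻¹ : SLR ι) : Matrix ι ι ℝ)) p q = _
  rw [Matrix.mul_apply]
  refine Finset.sum_congr rfl fun m _ => ?_
  rw [Matrix.mul_diagonal]
  ring

lemma sum_ginv (g : SLR ι) (p q : ι) :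
    ∑ m, g p m * g⁻¹ m q = (1 : Matrix ι ι ℝ) p q := by
  have h : ((g * g⁻¹ : SLR ι) : Matrix ι ι ℝ) = 1 := by
    rw [mul_inv_cancel]
    rfl
  have h1 : ((g : Matrix ι ι ℝ) * ((g⁻¹ : SLR ι) : Matrix ι ι ℝ)) p q = (1 : Matrix ι ι ℝ) p q := by
    rw [← h]
    rfl
  rw [Matrix.mul_apply] at h1
  exact h1

/-- **Root elements as limits** of conjugates of small elements of a differentiable curve. -/
theorem root_lim {i j : ι} (hij : i ≠ j) (γ : ℝ → SLR ι) (Z : ι → ι → ℝ) (h0 : γ 0 = 1)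
    (hd : ∀ p q, HasDerivAt (fun s => γ s p q) (Z p q) 0) (hZ : Z i j ≠ 0) (x : ℝ) :
    Tendsto (fun k : ℕ => ex (pw i j) (pw_sum i j) k *
      γ (x / Z i j * Real.exp (-(2 * k))) *
      (ex (pw i j) (pw_sum i j) k)⁻¹) atTop (𝓝 (tv hij x)) := by
  set c : ℝ := x / Z i j with hc
  have ht0 : Tendsto (fun k : ℕ => Real.exp (-(2 * (k : ℝ)))) atTop (𝓝[≠] 0) := by
    refine tendsto_nhdsWithin_iff.2 ⟨?_, Eventually.of_forall fun k => (Real.exp_pos _).ne'⟩
    refine Real.tendsto_exp_neg_atTop_nhds_zero.comp ?_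
    exact tendsto_natCast_atTop_atTop.const_mul_atTop two_pos
  rw [tendsto_sl]
  intro p q
  simp_rw [ex_conj]
  -- the derivative of the entry
  set F : ℝ → ℝ := fun t => γ (c * t) p q with hF
  have hFd : HasDerivAt F (Z p q * c) 0 := by
    have h1 : HasDerivAt (fun t : ℝ => c * t) c 0 := by
      simpa using (hasDerivAt_id (0 : ℝ)).const_mul c
    have h2 : HasDerivAt (fun s => γ s p q) (Z p q) (c * 0) := by
      rw [mul_zero]
      exact hd p q
    exact h2.comp (0 : ℝ) h1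
  have hF0 : F 0 = (1 : Matrix ι ι ℝ) p q := by
    change γ (c * 0) p q = _
    rw [mul_zero, h0]
    rfl
  have hsl := (hasDerivAt_iff_tendsto_slope_zero.1 hFd).comp ht0
  simp only [zero_add, smul_eq_mul, Function.comp_def] at hsl
  have e1 : ∀ k : ℕ, γ (c * Real.exp (-(2 * (k : ℝ)))) p q =
      (1 : Matrix ι ι ℝ) p q + Real.exp (-(2 * (k : ℝ))) *
        ((Real.exp (-(2 * (k : ℝ))))⁻¹ * (F (Real.exp (-(2 * (k : ℝ)))) - F 0)) := fun k => by
    rw [mul_inv_cancel_left₀ (Real.exp_pos (-(2 * (k : ℝ)))).ne', hF0]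
    change F _ = _
    ring
  simp_rw [e1]
  rw [tv_apply]
  by_cases hpq : p = i ∧ q = j
  · obtain ⟨rfl, rfl⟩ := hpq
    rw [Matrix.one_apply_ne hij, if_pos ⟨rfl, rfl⟩, pw_ij hij]
    have e2 : ∀ k : ℕ, Real.exp ((k : ℝ) * 2) * (0 + Real.exp (-(2 * (k : ℝ))) *
        ((Real.exp (-(2 * (k : ℝ))))⁻¹ * (F (Real.exp (-(2 * (k : ℝ)))) - F 0))) =
        (Real.exp (-(2 * (k : ℝ))))⁻¹ * (F (Real.exp (-(2 * (k : ℝ)))) - F 0) := fun k => by
      have h3 : Real.exp ((k : ℝ) * 2) * Real.exp (-(2 * (k : ℝ))) = 1 := by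
        rw [← Real.exp_add]
        ring_nf
        exact Real.exp_zero
      rw [zero_add, ← mul_assoc, h3, one_mul]
    simp_rw [e2]
    have h4 : 0 + x = Z p q * c := by
      rw [hc, mul_div_cancel₀ _ hZ, zero_add]
    rw [h4]
    exact hsl
  · have hz : (if i = p ∧ j = q then x else 0) = 0 := by
      rw [if_neg]
      exact fun h => hpq ⟨h.1.symm, h.2.symm⟩
    rw [hz, add_zero]
    have hle := pw_diff hij hpq
    have h5 : Tendsto (fun k : ℕ => Real.exp ((k : ℝ) * (pw i j p - pw i j q)) *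
        Real.exp (-(2 * (k : ℝ)))) atTop (𝓝 0) := by
      have h6 : Tendsto (fun k : ℕ => Real.exp (-(k : ℝ))) atTop (𝓝 0) :=
        Real.tendsto_exp_neg_atTop_nhds_zero.comp tendsto_natCast_atTop_atTop
      refine squeeze_zero (fun k => by positivity) (fun k => ?_) h6
      rw [← Real.exp_add]
      refine Real.exp_le_exp.2 ?_
      have hk : (0 : ℝ) ≤ k := Nat.cast_nonneg k
      nlinarith [mul_le_mul_of_nonneg_left hle hk]
    have h7 := h5.mul hsl
    rw [zero_mul] at h7
    have h8 : Tendsto (fun k : ℕ => Real.exp ((k : ℝ) * (pw i j p - pw i j q)) *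
        (1 : Matrix ι ι ℝ) p q) atTop (𝓝 ((1 : Matrix ι ι ℝ) p q)) := by
      by_cases h9 : p = q
      · subst h9
        simp
      · simp [Matrix.one_apply_ne h9]
    have h10 := h8.add h7
    rw [add_zero] at h10
    refine h10.congr fun k => ?_
    ring

/-- the conjugate one-parameter groups are differentiable curves -/
lemma conj_deriv (g : SLR ι) (v : ι → ℝ) (hv : ∑ m, v m = 0) (p q : ι) :
    HasDerivAt (fun s => (g * ex v hv s * g⁻¹) p q) (∑ m, v m * (g p m * g⁻¹ m q)) 0 := by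
  simp_rw [conj_ex]
  refine HasDerivAt.fun_sum fun m _ => ?_
  have h1 : HasDerivAt (fun t : ℝ => t * v m) (v m) 0 := by
    have := (hasDerivAt_id (0 : ℝ)).mul_const (v m)
    simpa using this
  have h2 := h1.exp
  simp only [zero_mul, Real.exp_zero, one_mul] at h2
  exact h2.mul_const _

end Pool.Agent.TH277.MR
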