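import Pool.Agent.TH277.MR.D

/-!
Torus-ergodic measures: small elements of a differentiable curve in the special linear group
which almost preserve a part of the measure force invariance under root groups.
-/

set_option autoImplicit false

open Filter Topology Matrix MeasureTheory Set
open scoped ENNReal

namespace Pool.Agent.TH277.MR

variable {ι : Type*} [Fintype ι] [DecidableEq ι]

lemma ex_tv (w : ι → ℝ) (hw : ∑ i, w i = 0) {i j : ι} (hij : i ≠ j) (t s : ℝ) :
    ex w hw t * tv hij s = tv hij (Real.exp (t * (w i - w j)) * s) * ex w hw t := by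
  rw [← mul_inv_eq_iff_eq_mul]
  apply Subtype.ext
  ext p q
  change (ex w hw t * tv hij s * (ex w hw t)⁻¹) p q = _
  rw [ex_conj, tv_apply]
  change _ = (tv hij (Real.exp (t * (w i - w j)) * s)) p q
  rw [tv_apply]
  by_cases hpq : i = p ∧ j = q
  · obtain ⟨rfl, rfl⟩ := hpq
    rw [if_pos ⟨rfl, rfl⟩, if_pos ⟨rfl, rfl⟩, Matrix.one_apply_ne hij]
    ring
  · rw [if_neg hpq, if_neg hpq, add_zero]
    by_cases h : p = q
    · subst h; simp
    · rw [Matrix.one_apply_ne h, mul_zero]

lemma tv_cont {i j : ι} (hij : i ≠ j) : Continuous (tv hij) := by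
  rw [continuous_iff_continuousAt]
  intro s
  refine tendsto_sl.2 fun p q => ?_
  simp_rw [tv_apply]
  by_cases hpq : i = p ∧ j = q
  · simp only [if_pos hpq]
    exact tendsto_const_nhds.add tendsto_id
  · simp only [if_neg hpq]
    exact tendsto_const_nhds

section action

variable {X : Type*} [TopologicalSpace X] [PolishSpace X] [MeasurableSpace X] [BorelSpace X]
  [MulAction (SLR ι) X] [ContinuousSMul (SLR ι) X]

omit [PolishSpace X] in
lemma meas_sm (g : SLR ι) : Measurable (fun x : X => g • x) :=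
  (continuous_const_smul g).measurable

/-- the stabiliser of a measure -/
def stab (μ : Measure X) : Subgroup (SLR ι) where
  carrier := {g | μ.map (fun x => g • x) = μ}
  one_mem' := by simp
  mul_mem' := by
    intro a b ha hb
    change μ.map (fun x => (a * b) • x) = μ
    have h : (fun x : X => (a * b) • x) = (fun x => a • x) ∘ fun x => b • x := by
      funext x
      exact mul_smul a b x
    rw [h, ← Measure.map_map (meas_sm a) (meas_sm b)]
    rw [show μ.map (fun x : X => b • x) = μ from hb, show μ.map (fun x : X => a • x) = μ from ha]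
  inv_mem' := by
    intro a ha
    change μ.map (fun x => a⁻¹ • x) = μ
    have ha' : μ.map (fun x : X => a • x) = μ := ha
    conv_lhs => rw [← ha']
    rw [Measure.map_map (meas_sm _) (meas_sm _)]
    have h : ((fun x : X => a⁻¹ • x) ∘ fun x => a • x) = id := by
      funext x
      simp
    rw [h, Measure.map_id]

lemma mem_stab {μ : Measure X} {g : SLR ι} : g ∈ stab μ ↔ μ.map (fun x => g • x) = μ := Iff.rfl

/-- an ergodic family of maps containing (at least in its effect) the torus -/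
structure Setup (ι : Type*) [Fintype ι] [DecidableEq ι] {X : Type*} [MeasurableSpace X]
    [MulAction (SLR ι) X] (μ : Measure X) (𝒜 : Set (X → X)) : Prop where
  inv : ∀ f ∈ 𝒜, Measurable f ∧ μ.map f = μ
  erg : ∀ E, MeasurableSet E → (∀ f ∈ 𝒜, f ⁻¹' E =ᵐ[μ] E) → μ E = 0 ∨ μ Eᶜ = 0
  tor : ∀ t : SLR ι, IsPosDiag t → μ.map (fun x => t • x) = μ
  nrm : ∀ f ∈ 𝒜, ∀ i j : ι, ∀ h : i ≠ j, ∃ χ : ℝ, χ ≠ 0 ∧
    ∀ s x, f (tv h s • x) = tv h (χ * s) • f x

lemma ov_conj {c : ℝ} {μ : Measure X} {a b : SLR ι} (hb : b ∈ stab μ)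
    (h : Ov c μ (μ.map fun x => a • x)) : Ov c μ (μ.map fun x => (b * a * b⁻¹) • x) := by
  intro B hB
  have hb' : μ.map (fun x : X => b • x) = μ := hb
  have hm := meas_sm (X := X) b
  have h1 := h _ (hm hB)
  have h2 : μ.real ((fun x : X => b • x) ⁻¹' B) = μ.real B := by
    rw [Measure.real, Measure.real, ← Measure.map_apply hm hB, hb']
  have h3 : (μ.map fun x : X => (b * a * b⁻¹) • x).real Bᶜ =
      (μ.map fun x : X => a • x).real ((fun x : X => b • x) ⁻¹' B)ᶜ := by
    rw [Measure.real, Measure.real, Measure.map_apply (meas_sm _) hB.compl,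
      Measure.map_apply (meas_sm _) (hm hB).compl]
    conv_lhs => rw [← hb']
    rw [Measure.map_apply hm (meas_sm _ hB.compl)]
    congr 2
    ext x
    simp [mul_smul]
  rw [h3]
  linarith

/-- **Invariance under a root group.** -/
theorem root_inv {μ : Measure X} [IsFiniteMeasure μ] {𝒜 : Set (X → X)} (hS : Setup ι μ 𝒜)
    {κ : Measure X} (hκ : κ ≤ μ) (hκ0 : κ ≠ 0) (γ : ℝ → SLR ι) (Z : ι → ι → ℝ) (h0 : γ 0 = 1)
    (hd : ∀ p q, HasDerivAt (fun s => γ s p q) (Z p q) 0)
    (hAI : ∀ s : ℕ → ℝ, Tendsto s atTop (𝓝 0) → AI (fun k x => γ (s k) • x) κ)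
    {i j : ι} (hij : i ≠ j) (hZ : Z i j ≠ 0) (x : ℝ) : tv hij x ∈ stab μ := by
  have hfin : IsFiniteMeasure κ := isFiniteMeasure_of_le μ hκ
  have hc0 : 0 < κ.real univ := by
    rw [measureReal_def]
    refine ENNReal.toReal_pos ?_ (measure_ne_top _ _)
    rwa [Measure.measure_univ_ne_zero]
  set c : ℝ := κ.real univ / 2 with hc
  have hcpos : 0 < c := by positivity
  have hclt : c < κ.real univ := by rw [hc]; linarith
  have hex : ∀ t : ℝ, ex (pw i j) (pw_sum i j) t ∈ stab μ := fun t => hS.tor _ (ex_pos _ _ _)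
  have hexp0 : Tendsto (fun k : ℕ => Real.exp (-(2 * (k : ℝ)))) atTop (𝓝 0) :=
    Real.tendsto_exp_neg_atTop_nhds_zero.comp
      (tendsto_natCast_atTop_atTop.const_mul_atTop two_pos)
  have ho : ∀ y, Ov c μ (μ.map fun x : X => tv hij y • x) := by
    intro y
    have hs : Tendsto (fun k : ℕ => y / Z i j * Real.exp (-(2 * (k : ℝ)))) atTop (𝓝 0) := by
      have := hexp0.const_mul (y / Z i j)
      simpa using this
    have h1 := ov_of_AI (fun k => meas_sm _) hκ (hAI _ hs) hclt
    refine ov_closed (h := fun k x => (ex (pw i j) (pw_sum i j) k *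
      γ (y / Z i j * Real.exp (-(2 * k))) * (ex (pw i j) (pw_sum i j) k)⁻¹) • x)
      (fun k => meas_sm _) (meas_sm _) (fun x => ?_) ?_
    · exact (root_lim hij γ Z h0 hd hZ y).smul_const x
    · filter_upwards [h1] with k hk
      exact ov_conj (hex k) hk
  rw [mem_stab]
  refine flow_inv (u := fun s x => tv hij s • x) ?_ ?_ ?_ hS.inv hS.erg
    (fun f hf => hS.nrm f hf i j hij) ?_ hcpos ho x
  · exact ((tv_cont hij).comp continuous_fst).smul continuous_snd
  · intro s t x
    rw [← mul_smul, ← SpecialLinearGroup.transvection_add]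
  · intro x
    simp
  · intro s
    refine ⟨fun k x => ex (pw i j) (pw_sum i j) (-(k : ℝ)) • x,
      fun k x => ex (pw i j) (pw_sum i j) k • x,
      fun k => Real.exp (-(2 * (k : ℝ))) * s, ?_, fun k => ⟨meas_sm _, meas_sm _, hex _, ?_, ?_⟩⟩
    · simpa using hexp0.mul_const s
    · intro x
      simp only
      rw [← mul_smul, ← ex_add, add_neg_cancel, ex_zero, one_smul]
    · intro x
      simp only
      have e : -(k : ℝ) * 2 = -(2 * (k : ℝ)) := by ring
      rw [← mul_smul, ← mul_smul, ex_tv, pw_ij hij, e]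

/-- **Invariance under a conjugate torus.** -/
theorem conj_mem {μ : Measure X} [IsFiniteMeasure μ] {𝒜 : Set (X → X)} (hS : Setup ι μ 𝒜)
    {κ : Measure X} (hκ : κ ≤ μ) (hκ0 : κ ≠ 0) (g : SLR ι)
    (hAI : ∀ (v : ι → ℝ) (hv : ∑ m, v m = 0) (s : ℕ → ℝ), Tendsto s atTop (𝓝 0) →
      AI (fun k x => (g * ex v hv (s k) * g⁻¹) • x) κ) (t : SLR ι) (ht : IsPosDiag t) :
    g * t * g⁻¹ ∈ stab μ := by
  set R : ι → ι → Prop := fun i j => ∀ (h : i ≠ j) (x : ℝ), tv h x ∈ stab (X := X) μ with hR
  have htr : ∀ i j k, R i j → R j k → R i k := by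
    intro i j k h1 h2 hik x
    by_cases hij : i = j
    · subst hij
      exact h2 hik x
    by_cases hjk : j = k
    · subst hjk
      exact h1 hik x
    rw [tv_comm hij hjk hik]
    exact (stab μ).mul_mem ((stab μ).mul_mem ((stab μ).mul_mem (h1 hij x) (h2 hjk 1))
      ((stab μ).inv_mem (h1 hij x))) ((stab μ).inv_mem (h2 hjk 1))
  have hentry : ∀ (w : ι → ℝ) (hw : ∑ m, w m = 0) (s : ℝ) (i j : ι), i ≠ j →
      (g * ex w hw s * g⁻¹) i j ≠ 0 → R i j := by
    intro w hw s i j hij hne _ x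
    have hι : (Fintype.card ι : ℝ) ≠ 0 := by
      have : Nonempty ι := ⟨i⟩
      exact_mod_cast Fintype.card_ne_zero
    set a : ℝ := (∑ m, Real.exp (s * w m)) / Fintype.card ι with ha
    set v : ι → ℝ := fun m => Real.exp (s * w m) - a with hv
    have hvs : ∑ m, v m = 0 := by
      simp only [hv]
      rw [Finset.sum_sub_distrib, Finset.sum_const, Finset.card_univ, nsmul_eq_mul, ha,
        mul_div_cancel₀ _ hι, sub_self]
    have hN : ∑ m, v m * (g i m * g⁻¹ m j) ≠ 0 := by
      have h1 : ∑ m, v m * (g i m * g⁻¹ m j) = (g * ex w hw s * g⁻¹) i j := by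
        rw [conj_ex]
        simp only [hv, sub_mul]
        rw [Finset.sum_sub_distrib, ← Finset.mul_sum, sum_ginv, Matrix.one_apply_ne hij]
        ring
      rwa [h1]
    refine root_inv hS hκ hκ0 (fun s => g * ex v hvs s * g⁻¹)
      (fun p q => ∑ m, v m * (g p m * g⁻¹ m q)) ?_ (conj_deriv g v hvs) (hAI v hvs) hij hN x
    simp [ex_zero]
  obtain ⟨w, hw, rfl⟩ := exists_ex ht
  have hel := elim (stab (X := X) μ) (fun t ht => hS.tor t ht) R (fun i j h hr x => hr h x) htr
    Finset.univ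
  have hlim : Tendsto (fun m : ℕ => g * ex w hw (1 / ((m : ℝ) + 1)) * g⁻¹) atTop (𝓝 1) := by
    have h1 := (ex_tendsto w hw).comp tendsto_one_div_add_atTop_nhds_zero_nat
    have h2 := (h1.const_mul g).mul_const g⁻¹
    rw [mul_one, mul_inv_cancel] at h2
    exact h2
  obtain ⟨m, hm⟩ := (hlim.eventually hel).exists
  have h1 := hm (fun i j hij hne => hentry w hw _ i j hij hne) (fun i hi => absurd
    (Finset.mem_univ i) hi)
  have h2 : g * ex w hw 1 * g⁻¹ = (g * ex w hw (1 / ((m : ℝ) + 1)) * g⁻¹) ^ (m + 1) := by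
    rw [conj_pow, ← ex_nsmul]
    congr 3
    push_cast
    field_simp
  rw [h2]
  exact (stab μ).pow_mem h1 _

end action

end Pool.Agent.TH277.MR
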