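import Pool.Agent.TH277.MR.E

/-!
Equal or mutually singular.
-/

set_option autoImplicit false

open Filter Topology Matrix MeasureTheory Set
open scoped ENNReal

namespace Pool.Agent.TH277.MR

section abs

variable {X : Type*} [MeasurableSpace X]

/-- ergodicity with respect to a set of maps -/
def Erg (𝒜 : Set (X → X)) (μ : Measure X) : Prop :=
  ∀ E, MeasurableSet E → (∀ f ∈ 𝒜, f ⁻¹' E =ᵐ[μ] E) → μ E = 0 ∨ μ Eᶜ = 0

/-- the maps preserve the measure -/
def Pres (𝒜 : Set (X → X)) (μ : Measure X) : Prop :=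
  ∀ f ∈ 𝒜, Measurable f ∧ μ.map f = μ

/-- an ergodic measure is absolutely continuous with respect to each non-zero invariant measure
which is absolutely continuous with respect to it -/
lemma ac_of_inv {𝒜 : Set (X → X)} {μ ν : Measure X} [IsFiniteMeasure μ] [IsFiniteMeasure ν]
    (hμ : Pres 𝒜 μ) (he : Erg 𝒜 μ) (hν : Pres 𝒜 ν) (h0 : ν ≠ 0) (hac : ν ≪ μ) : μ ≪ ν := by
  obtain ⟨P, hP, hP1, hP2⟩ := carrier μ ν
  have hinv : ∀ f ∈ 𝒜, f ⁻¹' P =ᵐ[μ] P := by
    intro f hf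
    obtain ⟨hfm, hfμ⟩ := hμ f hf
    have h1 : ν (f ⁻¹' Pᶜ) = 0 := by
      rw [← Measure.map_apply hfm hP.compl, (hν f hf).2, hP1]
    have h5 : μ (f ⁻¹' Pᶜ ∩ P) = 0 := hP2 _ h1
    have h6 : μ (f ⁻¹' Pᶜ) = μ Pᶜ := by rw [← Measure.map_apply hfm hP.compl, hfμ]
    have h7 : f ⁻¹' Pᶜ ≤ᵐ[μ] Pᶜ := by
      have : μ (f ⁻¹' Pᶜ \ Pᶜ) = 0 := by rwa [sdiff_eq, compl_compl]
      exact ae_le_set.2 this
    have h8 : f ⁻¹' Pᶜ =ᵐ[μ] Pᶜ :=
      ae_eq_of_ae_subset_of_measure_ge h7 h6.ge (hfm hP.compl).nullMeasurableSet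
        (measure_ne_top _ _)
    have h9 : ((f ⁻¹' Pᶜ)ᶜ : Set X) =ᵐ[μ] (Pᶜᶜ : Set X) := h8.compl
    have e1 : ((f ⁻¹' Pᶜ)ᶜ : Set X) = f ⁻¹' P := by rw [preimage_compl, compl_compl]
    have e2 : (Pᶜᶜ : Set X) = P := compl_compl P
    rw [e1, e2] at h9
    exact h9
  rcases he P hP hinv with h1 | h1
  · exfalso
    apply h0
    rw [← Measure.measure_univ_eq_zero, ← union_compl_self P]
    exact measure_union_null (hac h1) hP1
  · refine Measure.AbsolutelyContinuous.mk fun A _ hA0 => ?_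
    refine measure_mono_null (fun x hx => ?_) (measure_union_null (hP2 A hA0) h1)
    by_cases h : x ∈ P
    · exact Or.inl ⟨hx, h⟩
    · exact Or.inr h

lemma map_sub_inv {μ κ : Measure X} [IsFiniteMeasure μ] {f : X → X} (hf : Measurable f)
    (hκ : κ ≤ μ) (h1 : μ.map f = μ) (h2 : κ.map f = κ) : (μ - κ).map f = μ - κ := by
  have : IsFiniteMeasure κ := isFiniteMeasure_of_le μ hκ
  have e : μ - κ + κ = μ := Measure.sub_add_cancel_of_le hκ
  have h3 : (μ - κ).map f + κ = μ - κ + κ := by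
    calc (μ - κ).map f + κ = (μ - κ).map f + κ.map f := by rw [h2]
      _ = ((μ - κ) + κ).map f := (Measure.map_add _ _ hf).symm
      _ = μ.map f := by rw [e]
      _ = μ := h1
      _ = μ - κ + κ := e.symm
  refine Measure.ext fun s hs => ?_
  have h4 := congrArg (fun ν : Measure X => ν s) h3
  simp only [Measure.add_apply] at h4
  exact (ENNReal.add_left_inj (measure_ne_top κ s)).1 h4

/-- **Equal or mutually singular.** -/
theorem eq_or_sing {𝒜 ℬ : Set (X → X)} {μ ν : Measure X} [IsFiniteMeasure μ] [IsFiniteMeasure ν]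
    (hu : μ univ = ν univ) (h1 : Pres 𝒜 μ) (h2 : Pres 𝒜 ν) (h3 : Pres ℬ μ) (h4 : Pres ℬ ν)
    (hμ : Erg 𝒜 μ) (hν : Erg ℬ ν) : μ = ν ∨ μ ⟂ₘ ν := by
  by_cases hs : μ ⟂ₘ ν
  · exact Or.inr hs
  left
  set κ := μ ⊓ ν with hκ
  have hκ0 : κ ≠ 0 := inf_ne hs
  have hκμ : κ ≤ μ := inf_le_left
  have hκν : κ ≤ ν := inf_le_right
  have hfin : IsFiniteMeasure κ := isFiniteMeasure_of_le μ hκμ
  have hκA : Pres 𝒜 κ := fun f hf =>
    ⟨(h1 f hf).1, inf_inv (h1 f hf).1 (h1 f hf).2 (h2 f hf).2⟩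
  have hκB : Pres ℬ κ := fun f hf =>
    ⟨(h3 f hf).1, inf_inv (h3 f hf).1 (h3 f hf).2 (h4 f hf).2⟩
  have eμ : μ - κ + κ = μ := Measure.sub_add_cancel_of_le hκμ
  have eν : ν - κ + κ = ν := Measure.sub_add_cancel_of_le hκν
  have hδμ : μ - κ ≤ μ := Measure.sub_le
  have hδν : ν - κ ≤ ν := Measure.sub_le
  have hf1 : IsFiniteMeasure (μ - κ) := isFiniteMeasure_of_le μ hδμ
  have hf2 : IsFiniteMeasure (ν - κ) := isFiniteMeasure_of_le ν hδν
  have hm : (μ - κ) univ = (ν - κ) univ := by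
    have a1 := congrArg (fun ρ : Measure X => ρ univ) eμ
    have a2 := congrArg (fun ρ : Measure X => ρ univ) eν
    simp only [Measure.add_apply] at a1 a2
    rw [hu, ← a2] at a1
    exact (ENNReal.add_left_inj (measure_ne_top κ univ)).1 a1
  by_cases h0 : μ - κ = 0
  · have h0' : ν - κ = 0 := by
      rw [← Measure.measure_univ_eq_zero, ← hm, h0]
      simp
    rw [← eμ, ← eν, h0, h0']
  exfalso
  have h0' : ν - κ ≠ 0 := by
    intro h
    apply h0
    rw [← Measure.measure_univ_eq_zero, hm, h]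
    simp
  have hsing : (μ - κ) ⟂ₘ (ν - κ) := by
    by_contra hns
    have hε := inf_ne hns
    apply hε
    have b1 : (μ - κ) ⊓ (ν - κ) + κ ≤ μ := by
      conv_rhs => rw [← eμ]
      exact add_le_add_left inf_le_left κ
    have b2 : (μ - κ) ⊓ (ν - κ) + κ ≤ ν := by
      conv_rhs => rw [← eν]
      exact add_le_add_left inf_le_right κ
    have b3 : (μ - κ) ⊓ (ν - κ) + κ ≤ κ := le_inf b1 b2
    rw [← Measure.measure_univ_eq_zero]
    have b4 := b3 univ
    rw [Measure.add_apply] at b4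
    have b5 : ((μ - κ) ⊓ (ν - κ)) univ + κ univ ≤ 0 + κ univ := by rwa [zero_add]
    exact le_antisymm ((ENNReal.add_le_add_iff_right (measure_ne_top κ univ)).1 b5) zero_le
  have hpB : Pres ℬ (ν - κ) := fun f hf =>
    ⟨(h3 f hf).1, map_sub_inv (h3 f hf).1 hκν (h4 f hf).2 (hκB f hf).2⟩
  have c1 : ν ≪ ν - κ := ac_of_inv h4 hν hpB h0' hδν.absolutelyContinuous
  have c2 : μ ≪ κ := ac_of_inv h1 hμ hκA hκ0 hκμ.absolutelyContinuous
  have c3 : μ - κ ≪ ν - κ := (hδμ.absolutelyContinuous.trans c2).trans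
    (hκν.absolutelyContinuous.trans c1)
  obtain ⟨s, _, hs1, hs2⟩ := hsing
  apply h0
  rw [← Measure.measure_univ_eq_zero, ← union_compl_self s]
  exact measure_union_null hs1 (c3 hs2)

end abs

end Pool.Agent.TH277.MR
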