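import Pool.Agent.TH277.MR.F

/-!
Products of special linear groups: invariance of a torus-ergodic measure under a conjugate torus.
-/

set_option autoImplicit false

open Filter Topology Matrix MeasureTheory Set
open scoped ENNReal

namespace Pool.Agent.TH277.MR

/-- the group `∏_v SL(n_v, ℝ)` -/
abbrev PG {I : Type*} (n : I → ℕ) := ∀ v : I, Matrix.SpecialLinearGroup (Fin (n v)) ℝ

/-- the conjugate by `g` of the group of all elements of `∏_v SL(n_v, ℝ)` with diagonal
components having positive entries -/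
def torus {I : Type*} {n : I → ℕ} (g : PG n) : Set (PG n) :=
  {a | ∃ t : PG n, (∀ v, IsPosDiag (t v)) ∧ a = g * t * g⁻¹}

/-- `μ` is invariant and ergodic under the elements of `A ⊆ G` together with the group `F` -/
structure IsErgodicFor {G X : Type*} [Group G] [MulAction G X] [MeasurableSpace X] (A : Set G)
    (F : Type*) [Group F] [MulAction F X] (μ : Measure X) : Prop where
  inv : ∀ a ∈ A, μ.map (fun x => a • x) = μ
  invF : ∀ f : F, μ.map (fun x => f • x) = μ
  erg : ∀ E : Set X, MeasurableSet E →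
    (∀ a ∈ A, (fun x => a • x) ⁻¹' E =ᵐ[μ] E) →
    (∀ f : F, (fun x => f • x) ⁻¹' E =ᵐ[μ] E) → μ E = 0 ∨ μ Eᶜ = 0

/-- the maps given by `A` and `F` -/
def fam {G X : Type*} [Group G] [MulAction G X] (A : Set G) (F : Type*) [Group F]
    [MulAction F X] : Set (X → X) :=
  {f | (∃ a ∈ A, f = fun x => a • x) ∨ ∃ b : F, f = fun x => b • x}

section gen

variable {G : Type*} [Group G] {X : Type*} [MeasurableSpace X] [MulAction G X]
  [MeasurableConstSMul G X]

/-- the stabiliser of a measure -/
def stabG (μ : Measure X) : Subgroup G where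
  carrier := {g | μ.map (fun x => g • x) = μ}
  one_mem' := by simp
  mul_mem' := by
    intro a b ha hb
    change μ.map (fun x => (a * b) • x) = μ
    have h : (fun x : X => (a * b) • x) = (fun x => a • x) ∘ fun x => b • x := by
      funext x
      exact mul_smul a b x
    rw [h, ← Measure.map_map (measurable_const_smul a) (measurable_const_smul b)]
    rw [show μ.map (fun x : X => b • x) = μ from hb, show μ.map (fun x : X => a • x) = μ from ha]
  inv_mem' := by
    intro a ha
    change μ.map (fun x => a⁻¹ • x) = μ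
    have ha' : μ.map (fun x : X => a • x) = μ := ha
    conv_lhs => rw [← ha']
    rw [Measure.map_map (measurable_const_smul _) (measurable_const_smul _)]
    have h : ((fun x : X => a⁻¹ • x) ∘ fun x => a • x) = id := by
      funext x
      simp
    rw [h, Measure.map_id]

lemma map_conj {μ : Measure X} {a : G} (c : G) (h : μ.map (fun x => a • x) = μ) :
    (μ.map fun x => c • x).map (fun x => (c * a * c⁻¹) • x) = μ.map fun x => c • x := by
  rw [Measure.map_map (measurable_const_smul _) (measurable_const_smul _)]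
  have e : (fun x : X => (c * a * c⁻¹) • x) ∘ (fun x => c • x) =
      (fun x => c • x) ∘ fun x => a • x := by
    funext x
    simp [mul_smul]
  rw [e, ← Measure.map_map (measurable_const_smul _) (measurable_const_smul _), h]

lemma map_inv_map {μ : Measure X} (c : G) :
    (μ.map fun x => c⁻¹ • x).map (fun x => c • x) = μ := by
  rw [Measure.map_map (measurable_const_smul _) (measurable_const_smul _)]
  have e : (fun x : X => c • x) ∘ (fun x => c⁻¹ • x) = id := by
    funext x
    simp
  rw [e, Measure.map_id]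

lemma map_inv_map' {μ : Measure X} (c : G) :
    (μ.map fun x => c • x).map (fun x => c⁻¹ • x) = μ := by
  rw [Measure.map_map (measurable_const_smul _) (measurable_const_smul _)]
  have e : (fun x : X => c⁻¹ • x) ∘ (fun x => c • x) = id := by
    funext x
    simp
  rw [e, Measure.map_id]

lemma sing_of_map {μ ν : Measure X} (c : G)
    (h : (μ.map fun x => c • x) ⟂ₘ (ν.map fun x => c • x)) : μ ⟂ₘ ν := by
  obtain ⟨s, hs, h1, h2⟩ := h
  rw [Measure.map_apply (measurable_const_smul _) hs] at h1
  rw [Measure.map_apply (measurable_const_smul _) hs.compl] at h2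
  exact ⟨_, measurable_const_smul c hs, h1, h2⟩

end gen

variable {I : Type*} [Fintype I] [DecidableEq I] {n : I → ℕ}

lemma posdiag_one {ι : Type*} [Fintype ι] [DecidableEq ι] : IsPosDiag (1 : SLR ι) :=
  ⟨fun i j hij => by simp [hij], fun i => by simp⟩

omit [Fintype I] in
lemma single_posdiag {v : I} {t : SLR (Fin (n v))} (ht : IsPosDiag t) (w : I) :
    IsPosDiag ((MonoidHom.mulSingle (fun v => Matrix.SpecialLinearGroup (Fin (n v)) ℝ) v t) w) := by
  rw [MonoidHom.mulSingle_apply]
  by_cases h : w = v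
  · subst h
    rwa [Pi.mulSingle_eq_same]
  · rw [Pi.mulSingle_eq_of_ne h]
    exact posdiag_one

/-- a positive diagonal matrix rescales the root elements -/
lemma posdiag_tv {ι : Type*} [Fintype ι] [DecidableEq ι] {t : SLR ι} (ht : IsPosDiag t) {i j : ι}
    (hij : i ≠ j) : ∃ χ : ℝ, χ ≠ 0 ∧ ∀ s, t * tv hij s = tv hij (χ * s) * t := by
  obtain ⟨w, hw, rfl⟩ := exists_ex ht
  exact ⟨_, (Real.exp_pos _).ne', fun s => ex_tv w hw hij 1 s⟩

omit [Fintype I] in
lemma single_comm {v : I} {t : PG n} {χ : ℝ} {i j : Fin (n v)} {hij : i ≠ j} {s : ℝ}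
    (h : t v * tv hij s = tv hij (χ * s) * t v) :
    t * MonoidHom.mulSingle (fun v => Matrix.SpecialLinearGroup (Fin (n v)) ℝ) v (tv hij s) =
    MonoidHom.mulSingle (fun v => Matrix.SpecialLinearGroup (Fin (n v)) ℝ) v (tv hij (χ * s)) * t := by
  funext w
  rw [Pi.mul_apply, Pi.mul_apply, MonoidHom.mulSingle_apply, MonoidHom.mulSingle_apply]
  by_cases hw : w = v
  · subst hw
    rw [Pi.mulSingle_eq_same, Pi.mulSingle_eq_same]
    exact h
  · rw [Pi.mulSingle_eq_of_ne hw, Pi.mulSingle_eq_of_ne hw, mul_one, one_mul]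

section action

variable {X : Type*} [TopologicalSpace X] [PolishSpace X] [MeasurableSpace X] [BorelSpace X]
  [MulAction (PG n) X] [ContinuousSMul (PG n) X] {F : Type*} [Group F] [MulAction F X]
  [MeasurableConstSMul F X] [SMulCommClass F (PG n) X]

lemma one_factor {μ : Measure X} [IsFiniteMeasure μ] (hμ : IsErgodicFor (torus (1 : PG n)) F μ)
    {κ : Measure X} (hκ : κ ≤ μ) (hκ0 : κ ≠ 0) (g : PG n) (v : I)
    (hAI : ∀ (u : Fin (n v) → ℝ) (hu : ∑ m, u m = 0) (s : ℕ → ℝ), Tendsto s atTop (𝓝 0) →
      AI (fun k x => (MonoidHom.mulSingle (fun v => Matrix.SpecialLinearGroup (Fin (n v)) ℝ) v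
        (g v * ex u hu (s k) * (g v)⁻¹)) • x) κ)
    (t : SLR (Fin (n v))) (ht : IsPosDiag t) :
    μ.map (fun x => (MonoidHom.mulSingle (fun v => Matrix.SpecialLinearGroup (Fin (n v)) ℝ) v
        (g v * t * (g v)⁻¹)) • x) = μ := by
  let act : MulAction (SLR (Fin (n v))) X := MulAction.compHom X
    (MonoidHom.mulSingle (fun v => Matrix.SpecialLinearGroup (Fin (n v)) ℝ) v)
  have cact : ContinuousSMul (SLR (Fin (n v))) X := by
    refine ⟨?_⟩
    have h1 : Continuous fun p : SLR (Fin (n v)) × X =>
        ((MonoidHom.mulSingle (fun v => Matrix.SpecialLinearGroup (Fin (n v)) ℝ) v p.1 : PG n)) •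
          p.2 := by
      refine Continuous.smul ?_ continuous_snd
      exact (continuous_mulSingle v).comp continuous_fst
    exact h1
  have hS : Setup (Fin (n v)) μ (fam (X := X) (torus (1 : PG n)) F) := by
    refine ⟨?_, ?_, ?_, ?_⟩
    · rintro f (⟨a, ha, rfl⟩ | ⟨b, rfl⟩)
      · exact ⟨measurable_const_smul a, hμ.inv a ha⟩
      · exact ⟨measurable_const_smul b, hμ.invF b⟩
    · intro E hE hf
      exact hμ.erg E hE (fun a ha => hf _ (Or.inl ⟨a, ha, rfl⟩)) (fun b => hf _ (Or.inr ⟨b, rfl⟩))
    · intro t ht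
      exact hμ.inv _ ⟨_, single_posdiag ht, by simp⟩
    · rintro f (⟨a, ⟨t, ht, rfl⟩, rfl⟩ | ⟨b, rfl⟩) i j hij
      · obtain ⟨χ, hχ, hc⟩ := posdiag_tv (ht v) hij
        refine ⟨χ, hχ, fun s x => ?_⟩
        change (1 * t * 1⁻¹ : PG n) • (MonoidHom.mulSingle
          (fun v => Matrix.SpecialLinearGroup (Fin (n v)) ℝ) v (tv hij s)) • x =
          (MonoidHom.mulSingle (fun v => Matrix.SpecialLinearGroup (Fin (n v)) ℝ) v
            (tv hij (χ * s))) • (1 * t * 1⁻¹ : PG n) • x
        rw [one_mul, inv_one, mul_one, ← mul_smul, ← mul_smul, single_comm (hc s)]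
      · refine ⟨1, one_ne_zero, fun s x => ?_⟩
        rw [one_mul]
        exact smul_comm b (MonoidHom.mulSingle
          (fun v => Matrix.SpecialLinearGroup (Fin (n v)) ℝ) v (tv hij s)) x
  exact conj_mem hS hκ hκ0 (g v) hAI t ht

/-- all of a conjugate torus preserves the measure -/
lemma all_factors {μ : Measure X} [IsFiniteMeasure μ]
    (hμ : IsErgodicFor (torus (1 : PG n)) F μ)
    {κ : Measure X} (hκ : κ ≤ μ) (hκ0 : κ ≠ 0) (g : PG n)
    (hAI : ∀ (v : I) (u : Fin (n v) → ℝ) (hu : ∑ m, u m = 0) (s : ℕ → ℝ),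
      Tendsto s atTop (𝓝 0) →
      AI (fun k x => (MonoidHom.mulSingle (fun v => Matrix.SpecialLinearGroup (Fin (n v)) ℝ) v
        (g v * ex u hu (s k) * (g v)⁻¹)) • x) κ) :
    ∀ a ∈ torus g, μ.map (fun x => a • x) = μ := by
  rintro a ⟨t, ht, rfl⟩
  have key : ∀ s : Finset I, (fun w => if w ∈ s then g w * t w * (g w)⁻¹ else 1 : PG n) ∈
      stabG (G := PG n) μ := by
    intro s
    induction s using Finset.induction_on with
    | empty =>
      have : (fun w => if w ∈ (∅ : Finset I) then g w * t w * (g w)⁻¹ else 1 : PG n) = 1 := by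
        funext w
        simp
      rw [this]
      exact (stabG μ).one_mem
    | insert v s hv ih =>
      have e : (fun w => if w ∈ insert v s then g w * t w * (g w)⁻¹ else 1 : PG n) =
          MonoidHom.mulSingle (fun v => Matrix.SpecialLinearGroup (Fin (n v)) ℝ) v
            (g v * t v * (g v)⁻¹) *
          (fun w => if w ∈ s then g w * t w * (g w)⁻¹ else 1 : PG n) := by
        funext w
        rw [Pi.mul_apply, MonoidHom.mulSingle_apply]
        by_cases hw : w = v
        · subst hw
          rw [Pi.mulSingle_eq_same]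
          simp [hv]
        · rw [Pi.mulSingle_eq_of_ne hw]
          simp [hw]
      rw [e]
      exact (stabG μ).mul_mem (one_factor hμ hκ hκ0 g v (hAI v) (t v) (ht v)) ih
  have h := key Finset.univ
  have e : (fun w => if w ∈ (Finset.univ : Finset I) then g w * t w * (g w)⁻¹ else 1 : PG n) =
      g * t * g⁻¹ := by
    funext w
    simp
  rw [e] at h
  exact h

omit [Fintype I] [DecidableEq I] in
lemma torus_conj (c g : PG n) {a : PG n} (ha : a ∈ torus g) : c * a * c⁻¹ ∈ torus (c * g) := by
  obtain ⟨t, ht, rfl⟩ := ha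
  exact ⟨t, ht, by group⟩

/-- transport of ergodicity -/
lemma erg_map {μ : Measure X} {g : PG n} (hμ : IsErgodicFor (torus g) F μ) (c : PG n) :
    IsErgodicFor (torus (c * g)) F (μ.map fun x => c • x) := by
  have hm : Measurable fun x : X => c • x := measurable_const_smul c
  have hq : Measure.QuasiMeasurePreserving (fun x : X => c • x) μ (μ.map fun x => c • x) :=
    ⟨hm, Measure.AbsolutelyContinuous.rfl⟩
  refine ⟨?_, ?_, ?_⟩
  · intro a ha
    have h1 : c⁻¹ * a * c ∈ torus g := by
      have := torus_conj c⁻¹ (c * g) ha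
      simpa using this
    have h2 := map_conj c (hμ.inv _ h1)
    have e : c * (c⁻¹ * a * c) * c⁻¹ = a := by group
    rwa [e] at h2
  · intro f
    rw [Measure.map_map (measurable_const_smul _) hm]
    have e : (fun x : X => f • x) ∘ (fun x => c • x) = (fun x => c • x) ∘ fun x => f • x := by
      funext x
      exact smul_comm f c x
    rw [e, ← Measure.map_map hm (measurable_const_smul _), hμ.invF]
  · intro E hE h1 h2
    have h3 := hμ.erg _ (hm hE) (fun a ha => ?_) (fun f => ?_)
    · rw [Measure.map_apply hm hE, Measure.map_apply hm hE.compl]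
      exact h3
    · have h4 := hq.preimage_ae_eq (h1 _ (torus_conj c g ha))
      have e : (fun x : X => c • x) ⁻¹' ((fun x : X => (c * a * c⁻¹) • x) ⁻¹' E) =
          (fun x : X => a • x) ⁻¹' ((fun x : X => c • x) ⁻¹' E) := by
        ext x
        simp [mul_smul]
      rwa [e] at h4
    · have h4 := hq.preimage_ae_eq (h2 f)
      have e : (fun x : X => c • x) ⁻¹' ((fun x : X => f • x) ⁻¹' E) =
          (fun x : X => f • x) ⁻¹' ((fun x : X => c • x) ⁻¹' E) := by
        ext x
        simp only [mem_preimage]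
        rw [smul_comm]
      rwa [e] at h4

/-- **Invariance under another torus.** If `μ` is ergodic for one torus and `F`, and is not
singular to a finite measure invariant under another torus, then `μ` is invariant under it. -/
theorem other_torus {μ ρ : Measure X} [IsFiniteMeasure μ] [IsFiniteMeasure ρ] {g₁ g₂ : PG n}
    (hμ : IsErgodicFor (torus g₁) F μ) (hρ : ∀ a ∈ torus g₂, ρ.map (fun x => a • x) = ρ)
    (hns : ¬ μ ⟂ₘ ρ) : ∀ a ∈ torus g₂, μ.map (fun x => a • x) = μ := by
  set c : PG n := g₁⁻¹ with hc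
  have hμ' := erg_map hμ c
  rw [hc, inv_mul_cancel, ← hc] at hμ'
  set μ' := μ.map fun x => c • x with hμ'def
  set ρ' := ρ.map fun x => c • x with hρ'def
  have hns' : ¬ μ' ⟂ₘ ρ' := fun h => hns (sing_of_map c h)
  have hρ' : ∀ a ∈ torus (c * g₂), ρ'.map (fun x => a • x) = ρ' := by
    intro a ha
    have h1 : c⁻¹ * a * c ∈ torus g₂ := by
      have := torus_conj c⁻¹ (c * g₂) ha
      simpa using this
    have h2 := map_conj c (hρ _ h1)
    have e : c * (c⁻¹ * a * c) * c⁻¹ = a := by group
    rwa [e] at h2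
  have hκ0 : μ' ⊓ ρ' ≠ 0 := inf_ne hns'
  have hκμ : μ' ⊓ ρ' ≤ μ' := inf_le_left
  have hκρ : μ' ⊓ ρ' ≤ ρ' := inf_le_right
  have hfin : IsFiniteMeasure (μ' ⊓ ρ') := isFiniteMeasure_of_le μ' hκμ
  have h := all_factors hμ' hκμ hκ0 (c * g₂) (fun v u hu s hs => ?_)
  · intro a ha
    have h1 := h _ (torus_conj c g₂ ha)
    have h2 := map_conj c⁻¹ h1
    have e : c⁻¹ * (c * a * c⁻¹) * c⁻¹⁻¹ = a := by group
    rw [e] at h2
    have e2 : (μ'.map fun x => c⁻¹ • x) = μ := map_inv_map' c
    rwa [e2] at h2
  · refine AI_of_ac hκρ.absolutelyContinuous (fun k => measurable_const_smul _) (fun x => ?_)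
      fun ε hε => Eventually.of_forall fun k => ?_
    · have h1 : Tendsto (fun k => (c * g₂) v * ex u hu (s k) * ((c * g₂) v)⁻¹) atTop (𝓝 1) := by
        have h2 := (((ex_tendsto u hu).comp hs).const_mul ((c * g₂) v)).mul_const ((c * g₂) v)⁻¹
        rw [mul_one, mul_inv_cancel] at h2
        exact h2
      have h3 := ((continuous_mulSingle (A := fun v : I =>
        Matrix.SpecialLinearGroup (Fin (n v)) ℝ) v).tendsto 1).comp h1
      have h4 := h3.smul_const x
      rw [Pi.mulSingle_one, one_smul] at h4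
      exact h4
    · rw [hρ' _ ?_]
      · refine Measure.le_iff.2 fun B _ => ?_
        rw [Measure.smul_apply, smul_eq_mul]
        refine le_mul_of_one_le_left zero_le ?_
        rw [ENNReal.one_le_ofReal]
        linarith
      · refine ⟨MonoidHom.mulSingle (fun v => Matrix.SpecialLinearGroup (Fin (n v)) ℝ) v
          (ex u hu (s k)), single_posdiag (ex_pos _ _ _), ?_⟩
        funext w
        change Pi.mulSingle (M := fun v : I => Matrix.SpecialLinearGroup (Fin (n v)) ℝ) v
          ((c * g₂) v * ex u hu (s k) * ((c * g₂) v)⁻¹) w = (c * g₂) w *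
          Pi.mulSingle (M := fun v : I => Matrix.SpecialLinearGroup (Fin (n v)) ℝ) v
          (ex u hu (s k)) w * ((c * g₂) w)⁻¹
        by_cases hw : w = v
        · subst hw
          rw [Pi.mulSingle_eq_same, Pi.mulSingle_eq_same]
        · rw [Pi.mulSingle_eq_of_ne hw, Pi.mulSingle_eq_of_ne hw, mul_one, mul_inv_cancel]

end action

end Pool.Agent.TH277.MR
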