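import Pool.Agent.TH277.MR.F

/-!
Overlap of two measures; translates along a flow normalised with dense multipliers.
-/

set_option autoImplicit false

open Filter Topology MeasureTheory Set
open scoped ENNReal

namespace Pool.Agent.TH277.MR

section basic

variable {X : Type*} [MeasurableSpace X]

lemma Ov.symm {c : ℝ} {μ ν : Measure X} (h : Ov c μ ν) : Ov c ν μ := by
  intro B hB
  have := h Bᶜ hB.compl
  rw [compl_compl] at this
  linarith

lemma Ov.map {c : ℝ} {μ ν : Measure X} {f : X → X} (hf : Measurable f) (h : Ov c μ ν) :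
    Ov c (μ.map f) (ν.map f) := by
  intro B hB
  have := h _ (hf hB)
  rw [Measure.real, Measure.real, Measure.map_apply hf hB, Measure.map_apply hf hB.compl]
  exact this

lemma Ov.not_sing {c : ℝ} (hc : 0 < c) {μ ν : Measure X} (h : Ov c μ ν) : ¬ μ ⟂ₘ ν := by
  rintro ⟨s, hs, h1, h2⟩
  have := h s hs
  rw [Measure.real, Measure.real, h1, h2] at this
  simp at this
  linarith

lemma exists_Ov {μ ν : Measure X} [IsFiniteMeasure μ] [IsFiniteMeasure ν] (h : ¬ μ ⟂ₘ ν) :
    ∃ c, 0 < c ∧ Ov c μ ν := by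
  have h0 := inf_ne h
  have hμ : μ ⊓ ν ≤ μ := inf_le_left
  have hν : μ ⊓ ν ≤ ν := inf_le_right
  have hfin : IsFiniteMeasure (μ ⊓ ν) := isFiniteMeasure_of_le μ hμ
  refine ⟨(μ ⊓ ν).real univ, ?_, fun B hB => ?_⟩
  · rw [measureReal_def]
    refine ENNReal.toReal_pos ?_ (measure_ne_top _ _)
    rwa [Measure.measure_univ_ne_zero]
  · have h1 := real_mono hμ B
    have h2 := real_mono hν Bᶜ
    have h3 : (μ ⊓ ν).real B + (μ ⊓ ν).real Bᶜ = (μ ⊓ ν).real univ :=
      measureReal_add_measureReal_compl hB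
    linarith

end basic

section top

variable {X : Type*} [TopologicalSpace X] [PolishSpace X] [MeasurableSpace X] [BorelSpace X]

/-- the overlap of `μ` with the images of `ν` is upper semicontinuous -/
lemma ov_closed₂ {c : ℝ} {μ ν : Measure X} [IsFiniteMeasure μ] [IsFiniteMeasure ν]
    {h : ℕ → X → X} {g : X → X}
    (hm : ∀ k, Measurable (h k)) (hg : Measurable g)
    (hc : ∀ x, Tendsto (fun k => h k x) atTop (𝓝 (g x)))
    (ho : ∀ᶠ k in atTop, Ov c μ (ν.map (h k))) : Ov c μ (ν.map g) := by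
  intro B hB
  refine le_of_forall_pos_le_add fun ε' hε' => ?_
  obtain ⟨ε, hε, hεε⟩ : ∃ ε : ℝ, 0 < ε ∧ ε' = ε + ε := ⟨ε' / 2, by linarith, by ring⟩
  obtain ⟨U, hBU, hUo, hU⟩ := Set.exists_isOpen_lt_add (μ := μ) B (measure_ne_top _ _)
    (ε := ENNReal.ofReal ε) (by simpa using hε)
  have hUm := hUo.measurableSet
  have hlim : limsup (fun k => ν (h k ⁻¹' Uᶜ)) atTop ≤ ν (g ⁻¹' Uᶜ) := by
    have h1 : ∀ k, ν (h k ⁻¹' Uᶜ) = ∫⁻ x, (h k ⁻¹' Uᶜ).indicator 1 x ∂ν := fun k => by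
      rw [lintegral_indicator_one (hm k hUm.compl)]
    have h2 : ν (g ⁻¹' Uᶜ) = ∫⁻ x, (g ⁻¹' Uᶜ).indicator 1 x ∂ν := by
      rw [lintegral_indicator_one (hg hUm.compl)]
    simp_rw [h1]
    rw [h2]
    refine (limsup_lintegral_le (μ := ν) (f := fun k => (h k ⁻¹' Uᶜ).indicator (1 : X → ℝ≥0∞))
      (fun _ => (1 : ℝ≥0∞))
      (fun k => measurable_one.indicator (hm k hUm.compl)) (fun k => ?_) (by simp)).trans ?_
    · exact ae_of_all _ fun x => indicator_le_self' (fun _ _ => zero_le) x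
    · refine lintegral_mono fun x => ?_
      by_cases hx : g x ∈ Uᶜ
      · rw [indicator_of_mem (show x ∈ g ⁻¹' Uᶜ from hx)]
        refine limsup_le_of_le (by isBoundedDefault) (Eventually.of_forall fun k => ?_)
        exact indicator_le_self' (fun _ _ => zero_le) x
      · have hx' : g x ∈ U := by simpa using hx
        have h3 : ∀ᶠ k in atTop, h k x ∈ U := (hc x).eventually (hUo.mem_nhds hx')
        have h4 : (fun k => (h k ⁻¹' Uᶜ).indicator (1 : X → ℝ≥0∞) x) =ᶠ[atTop] fun _ => 0 := by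
          filter_upwards [h3] with k hk
          exact indicator_of_notMem (by simpa using hk) _
        rw [limsup_congr h4, limsup_const]
        exact zero_le
  have hfin : ν (g ⁻¹' Uᶜ) ≠ ∞ := measure_ne_top _ _
  have h5 : ∀ᶠ k in atTop, ν (h k ⁻¹' Uᶜ) < ν (g ⁻¹' Uᶜ) + ENNReal.ofReal ε := by
    refine eventually_lt_of_limsup_lt (lt_of_le_of_lt hlim ?_)
    exact ENNReal.lt_add_right hfin (by simpa using hε)
  obtain ⟨k, hk1, hk2⟩ := (ho.and h5).exists
  have h6 := hk1 U hUm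
  rw [Measure.real, Measure.real, Measure.map_apply (hm k) hUm.compl] at h6
  have h7 : (ν (h k ⁻¹' Uᶜ)).toReal ≤ (ν (g ⁻¹' Uᶜ)).toReal + ε := by
    have := ENNReal.toReal_mono (by finiteness) hk2.le
    rwa [ENNReal.toReal_add hfin (by finiteness), ENNReal.toReal_ofReal hε.le] at this
  have h8 : (μ U).toReal ≤ (μ B).toReal + ε := by
    have := ENNReal.toReal_mono (by finiteness) hU.le
    rwa [ENNReal.toReal_add (measure_ne_top _ _) (by finiteness), ENNReal.toReal_ofReal hε.le]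
      at this
  have h9 : (ν (g ⁻¹' Uᶜ)).toReal ≤ (ν (g ⁻¹' Bᶜ)).toReal :=
    ENNReal.toReal_mono (measure_ne_top _ _)
      (measure_mono (preimage_mono (compl_subset_compl.2 hBU)))
  rw [Measure.real, Measure.real, Measure.map_apply hg hB.compl, hεε]
  linarith

/-- **Translates along a flow with dense multipliers.** -/
theorem translates {𝒜 : Set (X → X)} {u : ℝ → X → X}
    (huc : Continuous fun p : ℝ × X => u p.1 p.2)
    (hadd : ∀ s t x, u (s + t) x = u s (u t x)) (h0 : ∀ x, u 0 x = x)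
    {μ ν : Measure X} [IsProbabilityMeasure μ] [IsProbabilityMeasure ν]
    (hμ : Pres 𝒜 μ) (hν : Pres 𝒜 ν) (eμ : Erg 𝒜 μ) (eν : Erg 𝒜 ν)
    (hn : ∀ f ∈ 𝒜, ∃ χ : ℝ, χ ≠ 0 ∧ ∀ s x, f (u s x) = u (χ * s) (f x))
    (hd : ∀ r : ℝ, 0 < r → ∀ ε : ℝ, 0 < ε → ∃ f g : X → X, ∃ χ : ℝ, f ∈ 𝒜 ∧ Measurable g ∧
      (∀ x, g (f x) = x) ∧ |χ - r| < ε ∧ ∀ s x, f (u s x) = u (χ * s) (f x))
    {s : ℝ} (hs : s ≠ 0) (hns : ¬ μ ⟂ₘ ν.map (u s)) :
    μ = ν ∧ ∀ t, μ.map (u t) = μ := by
  have hum : ∀ t, Measurable (u t) := fun t =>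
    (huc.comp (continuous_const.prodMk continuous_id)).measurable
  obtain ⟨c, hc, hov⟩ := exists_Ov hns
  -- sequences of multipliers
  have hseq : ∀ r : ℝ, 0 ≤ r → ∃ (f g : ℕ → X → X) (χ : ℕ → ℝ), Tendsto χ atTop (𝓝 r) ∧
      ∀ k, f k ∈ 𝒜 ∧ Measurable (g k) ∧ (∀ x, g k (f k x) = x) ∧
        ∀ s x, f k (u s x) = u (χ k * s) (f k x) := by
    intro r hr
    have h1 : ∀ k : ℕ, ∃ f g : X → X, ∃ χ : ℝ, f ∈ 𝒜 ∧ Measurable g ∧ (∀ x, g (f x) = x) ∧
        |χ - (r + 1 / ((k : ℝ) + 1))| < 1 / ((k : ℝ) + 1) ∧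
        ∀ s x, f (u s x) = u (χ * s) (f x) := fun k =>
      hd (r + 1 / ((k : ℝ) + 1)) (by positivity) (1 / ((k : ℝ) + 1)) (by positivity)
    choose f g χ h1 h2 h3 h4 h5 using h1
    refine ⟨f, g, χ, ?_, fun k => ⟨h1 k, h2 k, h3 k, h5 k⟩⟩
    have h6 : Tendsto (fun k : ℕ => 1 / ((k : ℝ) + 1)) atTop (𝓝 0) :=
      tendsto_one_div_add_atTop_nhds_zero_nat
    rw [tendsto_iff_dist_tendsto_zero]
    have h9 := h6.const_mul 2
    rw [mul_zero] at h9
    refine squeeze_zero (fun k => dist_nonneg) (fun k => ?_) h9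
    rw [Real.dist_eq]
    have h7 := abs_lt.1 (h4 k)
    have h8 : (0 : ℝ) < 1 / ((k : ℝ) + 1) := by positivity
    rw [abs_le]
    constructor <;> linarith [h7.1, h7.2]
  -- all positive multiples of `s`, and zero
  have hall : ∀ r : ℝ, 0 ≤ r → Ov c μ (ν.map (u (r * s))) := by
    intro r hr
    obtain ⟨f, g, χ, hχ, hf⟩ := hseq r hr
    refine ov_closed₂ (h := fun k => u (χ k * s)) (fun k => hum _) (hum _) (fun x => ?_)
      (Eventually.of_forall fun k => ?_)
    · have h1 : Tendsto (fun k => (χ k * s, x)) atTop (𝓝 (r * s, x)) :=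
        (hχ.mul_const s).prodMk_nhds tendsto_const_nhds
      exact (huc.tendsto (r * s, x)).comp h1
    · obtain ⟨h1, h2, h3, h4⟩ := hf k
      obtain ⟨hfm, hfμ⟩ := hμ _ h1
      obtain ⟨_, hfν⟩ := hν _ h1
      have h5 := hov.map hfm
      rw [hfμ, Measure.map_map hfm (hum s)] at h5
      have e : f k ∘ u s = u (χ k * s) ∘ f k := by
        funext x
        exact h4 s x
      rw [e, ← Measure.map_map (hum _) hfm, hfν] at h5
      exact h5
  have hid : ν.map (u 0) = ν := by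
    have : u 0 = id := by
      funext x
      exact h0 x
    rw [this, Measure.map_id]
  have hμν : μ = ν := by
    have h1 := hall 0 le_rfl
    rw [zero_mul, hid] at h1
    rcases eq_or_sing (by rw [measure_univ, measure_univ]) hμ hν hμ hν eμ eν with h | h
    · exact h
    · exact absurd h (h1.not_sing hc)
  subst hμν
  refine ⟨rfl, ?_⟩
  have hpos : ∀ t, Ov c μ (μ.map (u t)) := by
    intro t
    by_cases h : 0 ≤ t / s
    · have h1 := hall (t / s) h
      rwa [div_mul_cancel₀ _ hs] at h1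
    · have h1 := hall (-(t / s)) (by linarith [not_le.1 h])
      have h2 : -(t / s) * s = -t := by
        rw [neg_mul, div_mul_cancel₀ _ hs]
      rw [h2] at h1
      have h3 := (h1.map (hum t)).symm
      rw [Measure.map_map (hum _) (hum _)] at h3
      have e : u t ∘ u (-t) = id := by
        funext x
        simp only [Function.comp_apply, id]
        rw [← hadd, add_neg_cancel, h0]
      rwa [e, Measure.map_id] at h3
  intro t
  refine flow_inv huc hadd h0 hμ eμ hn (fun s => ?_) hc hpos t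
  obtain ⟨f, g, χ, hχ, hf⟩ := hseq 0 le_rfl
  refine ⟨f, g, fun k => χ k * s, by simpa using hχ.mul_const s, fun k => ?_⟩
  obtain ⟨h1, h2, h3, h4⟩ := hf k
  exact ⟨(hμ _ h1).1, h2, (hμ _ h1).2, h3, fun x => h4 s x⟩

end top

end Pool.Agent.TH277.MR
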