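import Pool.Agent.TH277.MR.H

/-!
A pigeonhole principle for overlaps, and closedness of the stabiliser of a measure.
-/

set_option autoImplicit false

open Filter Topology MeasureTheory Set
open scoped ENNReal

namespace Pool.Agent.TH277.MR

section basic

variable {X : Type*} [MeasurableSpace X]

lemma Ov.mono {c : ℝ} {μ ν μ' ν' : Measure X} [IsFiniteMeasure μ'] [IsFiniteMeasure ν']
    (h : Ov c μ ν) (h1 : μ ≤ μ') (h2 : ν ≤ ν') : Ov c μ' ν' := by
  intro B hB
  have := h B hB
  have a1 := real_mono h1 B
  have a2 := real_mono h2 Bᶜ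
  linarith

/-- many large parts of one probability measure: two of them overlap -/
lemma pigeon {N : ℕ} {c : ℝ} (hN : 2 ≤ N * c) {μ : Measure X} [IsProbabilityMeasure μ]
    (ν : Fin N → Measure X) (hν : ∀ i, ν i ≤ μ) (hc : ∀ i, c ≤ (ν i).real univ) :
    ∃ i j : Fin N, i < j ∧ Ov (1 / (2 * (N : ℝ) ^ 2)) (ν i) (ν j) := by
  by_contra hcon
  push Not at hcon
  have hN0 : (N : ℝ) ≠ 0 := by
    intro h
    rw [h, zero_mul] at hN
    linarith
  have hNpos : (0 : ℝ) < N := lt_of_le_of_ne (Nat.cast_nonneg N) (Ne.symm hN0)
  set δ : ℝ := 1 / (2 * (N : ℝ) ^ 2) with hδ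
  have hfin : ∀ i, IsFiniteMeasure (ν i) := fun i => isFiniteMeasure_of_le μ (hν i)
  have hB : ∀ i j : Fin N, i < j → ∃ B : Set X, MeasurableSet B ∧
      (ν i).real B + (ν j).real Bᶜ < δ := by
    intro i j hij
    have := hcon i j hij
    unfold Ov at this
    push Not at this
    exact this
  choose! B hBm hBd using hB
  set D : Fin N → Fin N → Set X := fun i j =>
    if i < j then B i j else if j < i then (B j i)ᶜ else univ with hD
  have hDm : ∀ i j, MeasurableSet (D i j) := by
    intro i j
    simp only [hD]
    split_ifs with h1 h2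
    · exact hBm i j h1
    · exact (hBm j i h2).compl
    · exact MeasurableSet.univ
  have hDs : ∀ i j, (ν j).real (D i j)ᶜ ≤ δ := by
    intro i j
    simp only [hD]
    split_ifs with h1 h2
    · have := hBd i j h1
      have := measureReal_nonneg (μ := ν i) (s := B i j)
      linarith
    · rw [compl_compl]
      have := hBd j i h2
      have := measureReal_nonneg (μ := ν i) (s := (B j i)ᶜ)
      linarith
    · rw [compl_univ, measureReal_empty]
      positivity
  set C : Fin N → Set X := fun j => ⋂ i, D i j with hC
  have hCm : ∀ j, MeasurableSet (C j) := fun j => MeasurableSet.iInter fun i => hDm i j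
  have hdisj : Pairwise (Function.onFun Disjoint C) := by
    have hlt : ∀ i j : Fin N, i < j → Disjoint (C i) (C j) := by
      intro i j hij
      rw [Set.disjoint_left]
      intro x hx hy
      have h1 : x ∈ D j i := mem_iInter.1 hx j
      have h2 : x ∈ D i j := mem_iInter.1 hy i
      simp only [hD, if_pos hij, if_neg (not_lt.2 hij.le)] at h1 h2
      exact h1 h2
    intro i j hij
    rcases lt_or_gt_of_ne hij with h | h
    · exact hlt i j h
    · exact (hlt j i h).symm
  have hbig : ∀ j, c - N * δ ≤ μ.real (C j) := by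
    intro j
    have h1 : (ν j).real (C j)ᶜ ≤ ∑ i : Fin N, (ν j).real (D i j)ᶜ := by
      have : (C j)ᶜ = ⋃ i, (D i j)ᶜ := by rw [hC]; exact compl_iInter _
      rw [this]
      exact measureReal_iUnion_fintype_le _
    have h2 : ∑ i : Fin N, (ν j).real (D i j)ᶜ ≤ N * δ := by
      refine (Finset.sum_le_sum fun i _ => hDs i j).trans ?_
      rw [Finset.sum_const, Finset.card_univ, Fintype.card_fin, nsmul_eq_mul]
    have h3 : (ν j).real (C j) + (ν j).real (C j)ᶜ = (ν j).real univ :=
      measureReal_add_measureReal_compl (hCm j)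
    have h4 := hc j
    have h5 := real_mono (hν j) (C j)
    linarith
  have hsum : ∑ j, μ.real (C j) ≤ 1 := by
    have h1 : μ.real (⋃ j, C j) = ∑ j, μ.real (C j) := by
      rw [measureReal_iUnion_fintype hdisj hCm]
    rw [← h1]
    exact measureReal_le_one
  have h6 : (N : ℝ) * (c - N * δ) ≤ ∑ j, μ.real (C j) := by
    have := Finset.sum_le_sum (s := Finset.univ) fun j _ => hbig j
    rwa [Finset.sum_const, Finset.card_univ, Fintype.card_fin, nsmul_eq_mul] at this
  have h7 : (N : ℝ) * (N * δ) = 1 / 2 := by
    rw [hδ]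
    field_simp
  nlinarith

end basic

section top

variable {X : Type*} [TopologicalSpace X] [PolishSpace X] [MeasurableSpace X] [BorelSpace X]

/-- a pointwise limit of maps preserving a probability measure preserves it -/
lemma pres_lim {ν : Measure X} [IsProbabilityMeasure ν] {h : ℕ → X → X} {g : X → X}
    (hm : ∀ k, Measurable (h k)) (hg : Measurable g)
    (hc : ∀ x, Tendsto (fun k => h k x) atTop (𝓝 (g x)))
    (hp : ∀ k, ν.map (h k) = ν) : ν.map g = ν := by
  have h1 : Ov 1 ν ν := by
    intro B hB
    have : ν.real B + ν.real Bᶜ = ν.real univ := measureReal_add_measureReal_compl hB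
    rw [this, measureReal_def, measure_univ]
    simp
  have h2 : Ov 1 ν (ν.map g) := ov_closed₂ hm hg hc (Eventually.of_forall fun k => by
    rw [hp k]
    exact h1)
  have hfin : IsProbabilityMeasure (ν.map g) := Measure.isProbabilityMeasure_map hg.aemeasurable
  refine eq_of_le_univ (Measure.le_iff.2 fun B hB => ?_) (by rw [measure_univ, measure_univ])
  have h3 := h2 B hB
  have h4 : (ν.map g).real B + (ν.map g).real Bᶜ = (ν.map g).real univ :=
    measureReal_add_measureReal_compl hB
  have h5 : (ν.map g).real univ = 1 := by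
    rw [measureReal_def, measure_univ]
    simp
  have h6 : (ν.map g).real B ≤ ν.real B := by linarith
  exact (ENNReal.toReal_le_toReal (measure_ne_top _ _) (measure_ne_top _ _)).1 h6

end top

end Pool.Agent.TH277.MR
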