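import Pool.Agent.TH277.MR.E

/-!
Elimination without assuming that the torus lies in the group; root elements as limits of
conjugates of a sequence of small elements.
-/

set_option autoImplicit false

open Filter Topology Matrix MeasureTheory Set
open scoped ENNReal

namespace Pool.Agent.TH277.MR

variable {ι : Type*} [Fintype ι] [DecidableEq ι]

/-- **Elimination near the identity**, up to a positive diagonal factor. -/
theorem elim' (H : Subgroup (SLR ι)) (R : ι → ι → Prop)
    (hR : ∀ i j (h : i ≠ j), R i j → ∀ x, tv h x ∈ H)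
    (htr : ∀ i j k, R i j → R j k → R i k) (S : Finset ι) :
    ∀ᶠ M : SLR ι in 𝓝 1, (∀ i j, i ≠ j → M i j ≠ 0 → R i j) →
      (∀ i, i ∉ S → ∀ j, j ≠ i → M i j = 0 ∧ M j i = 0) →
      ∃ h₁ ∈ H, ∃ h₂ ∈ H, ∃ d, IsPosDiag d ∧ M = h₁ * d * h₂ := by
  induction S using Finset.induction_on with
  | empty =>
    filter_upwards [diag_near] with M hM _ h2
    exact ⟨1, H.one_mem, 1, H.one_mem, M, ⟨fun i j hij => (h2 i (by simp) j hij.symm).1, hM⟩,
      by simp⟩
  | insert k S hkS ih =>
    filter_upwards [(Ph_tendsto k).eventually ih, diag_near] with M hM hpos h1 h2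
    have hk : M k k ≠ 0 := (hpos k).ne'
    obtain ⟨g₁, hg₁, g₂, hg₂, d, hd, hPh⟩ := hM (fun i j hij hne => by
        by_cases hik : i = k
        · subst hik
          exact absurd (Ph_row hk hij.symm) hne
        · by_cases hjk : j = k
          · subst hjk
            exact absurd (Ph_col hk hik) hne
          · rw [Ph_of_ne hk hik] at hne
            by_cases h3 : M i j = 0
            · have h4 : M i k ≠ 0 := fun h => hne (by rw [h3, h]; simp)
              have h5 : M k j ≠ 0 := fun h => hne (by rw [h3, h]; simp)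
              exact htr _ _ _ (h1 i k hik h4) (h1 k j (Ne.symm hjk) h5)
            · exact h1 i j hij h3) (fun i hi j hj => by
        by_cases hik : i = k
        · subst hik
          exact ⟨Ph_row hk hj, Ph_col hk hj⟩
        · have hi' : i ∉ insert k S := by simp [hik, hi]
          have e1 := h2 i hi' j hj
          have e2 := h2 i hi' k (Ne.symm hik)
          refine ⟨?_, ?_⟩
          · rw [Ph_of_ne hk hik, e1.1, e2.1]
            simp
          · by_cases hjk : j = k
            · subst hjk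
              exact Ph_row hk hik
            · rw [Ph_of_ne hk hjk, e1.2, e2.2]
              simp)
    have hL : LL k M ∈ H := LL_mem H k M fun i h hi x => hR i k h (h1 i k h hi) x
    have hU : UU k M ∈ H := UU_mem H k M fun j h hj x => hR k j h (h1 k j h hj) x
    refine ⟨(LL k M)⁻¹ * g₁, H.mul_mem (H.inv_mem hL) hg₁, g₂ * (UU k M)⁻¹,
      H.mul_mem hg₂ (H.inv_mem hU), d, hd, ?_⟩
    have h3 : M = (LL k M)⁻¹ * Ph k M * (UU k M)⁻¹ := by
      unfold Ph
      group
    calc M = (LL k M)⁻¹ * Ph k M * (UU k M)⁻¹ := h3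
      _ = (LL k M)⁻¹ * g₁ * d * (g₂ * (UU k M)⁻¹) := by
        rw [hPh]
        group

/-- **Root elements as limits**, sequence version. -/
theorem root_lim' {i j : ι} (hij : i ≠ j) (M : ℕ → SLR ι) (σ : ℕ → ℝ) (Z : ι → ι → ℝ)
    (hσ : ∀ k, 0 < σ k) (hσ0 : Tendsto σ atTop (𝓝 0))
    (hM : ∀ p q, Tendsto (fun k => (M k p q - (1 : Matrix ι ι ℝ) p q) / σ k) atTop (𝓝 (Z p q)))
    (hZ : Z i j ≠ 0) {x : ℝ} (hx : 0 < x / Z i j) :
    Tendsto (fun k => ex (pw i j) (pw_sum i j) (Real.log (x / Z i j / σ k) / 2) * M k *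
      (ex (pw i j) (pw_sum i j) (Real.log (x / Z i j / σ k) / 2))⁻¹) atTop (𝓝 (tv hij x)) := by
  set c : ℝ := x / Z i j with hc
  have hcσ : ∀ k, 0 < c / σ k := fun k => div_pos hx (hσ k)
  have hinf : Tendsto (fun k => c / σ k) atTop atTop := by
    have h1 : Tendsto (fun k => (σ k)⁻¹) atTop atTop :=
      tendsto_inv_nhdsGT_zero.comp
        (tendsto_nhdsWithin_iff.2 ⟨hσ0, Eventually.of_forall fun k => hσ k⟩)
    exact h1.const_mul_atTop hx
  have htinf : Tendsto (fun k => Real.log (c / σ k) / 2) atTop atTop :=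
    (Real.tendsto_log_atTop.comp hinf).atTop_div_const two_pos
  rw [tendsto_sl]
  intro p q
  simp_rw [ex_conj]
  have e1 : ∀ k, M k p q = (1 : Matrix ι ι ℝ) p q +
      σ k * ((M k p q - (1 : Matrix ι ι ℝ) p q) / σ k) := fun k => by
    rw [mul_div_cancel₀ _ (hσ k).ne']
    ring
  simp_rw [fun k => show Real.exp (Real.log (c / σ k) / 2 * (pw i j p - pw i j q)) * M k p q =
    Real.exp (Real.log (c / σ k) / 2 * (pw i j p - pw i j q)) * ((1 : Matrix ι ι ℝ) p q +
      σ k * ((M k p q - (1 : Matrix ι ι ℝ) p q) / σ k)) by rw [← e1 k]]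
  rw [tv_apply]
  by_cases hpq : p = i ∧ q = j
  · obtain ⟨rfl, rfl⟩ := hpq
    rw [Matrix.one_apply_ne hij, if_pos ⟨rfl, rfl⟩, pw_ij hij]
    have e2 : ∀ k, Real.exp (Real.log (c / σ k) / 2 * 2) * (0 +
        σ k * ((M k p q - 0) / σ k)) = c * ((M k p q - 0) / σ k) := fun k => by
      rw [div_mul_cancel₀ _ two_ne_zero, Real.exp_log (hcσ k), zero_add, ← mul_assoc,
        div_mul_cancel₀ _ (hσ k).ne']
    simp_rw [e2]
    have h4 : 0 + x = c * Z p q := by
      rw [hc, div_mul_cancel₀ _ hZ, zero_add]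
    rw [h4]
    have h5 := hM p q
    rw [Matrix.one_apply_ne hij] at h5
    exact h5.const_mul c
  · have hz : (if i = p ∧ j = q then x else 0) = 0 := by
      rw [if_neg]
      exact fun h => hpq ⟨h.1.symm, h.2.symm⟩
    rw [hz, add_zero]
    have hle := pw_diff hij hpq
    have h5 : Tendsto (fun k => Real.exp (Real.log (c / σ k) / 2 * (pw i j p - pw i j q)) *
        σ k) atTop (𝓝 0) := by
      have h6 : Tendsto (fun k => c * Real.exp (-(Real.log (c / σ k) / 2))) atTop (𝓝 0) := by
        have := (Real.tendsto_exp_neg_atTop_nhds_zero.comp htinf).const_mul c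
        rwa [mul_zero] at this
      refine squeeze_zero' (Eventually.of_forall fun k => by
        have := (hσ k).le
        positivity) ?_ h6
      filter_upwards [htinf.eventually_ge_atTop 0] with k hk
      have h7 : σ k = c * Real.exp (-(Real.log (c / σ k) / 2 * 2)) := by
        rw [Real.exp_neg, div_mul_cancel₀ _ two_ne_zero, Real.exp_log (hcσ k), inv_div,
          mul_div_cancel₀ _ hx.ne']
      calc Real.exp (Real.log (c / σ k) / 2 * (pw i j p - pw i j q)) * σ k
          = c * Real.exp (Real.log (c / σ k) / 2 * (pw i j p - pw i j q) +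
            -(Real.log (c / σ k) / 2 * 2)) := by
            rw [Real.exp_add]
            nth_rw 2 [h7]
            ring
        _ ≤ c * Real.exp (-(Real.log (c / σ k) / 2)) := by
            refine mul_le_mul_of_nonneg_left (Real.exp_le_exp.2 ?_) hx.le
            nlinarith [mul_le_mul_of_nonneg_left hle hk]
    have h7 := h5.mul (hM p q)
    rw [zero_mul] at h7
    have h8 : Tendsto (fun k => Real.exp (Real.log (c / σ k) / 2 * (pw i j p - pw i j q)) *
        (1 : Matrix ι ι ℝ) p q) atTop (𝓝 ((1 : Matrix ι ι ℝ) p q)) := by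
      by_cases h9 : p = q
      · subst h9
        simp
      · simp [Matrix.one_apply_ne h9]
    have h10 := h8.add h7
    rw [add_zero] at h10
    refine h10.congr fun k => ?_
    ring

/-- the commutator of `g⁻¹` and a small diagonal element, to first order -/
lemma comm_entry (g : SLR ι) (v : ι → ℝ) (hv : ∑ m, v m = 0) (s : ℝ) (p q : ι) :
    (g⁻¹ * ex v hv s * g * (ex v hv s)⁻¹) p q - (1 : Matrix ι ι ℝ) p q =
      ∑ m, (Real.exp (s * (v m - v q)) - 1) * (g⁻¹ p m * g m q) := by
  have h1 : (g⁻¹ * ex v hv s * g * (ex v hv s)⁻¹) p q =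
      (g⁻¹ * ex v hv s * g⁻¹⁻¹) p q * Real.exp (-s * v q) := by
    rw [ex_inv, inv_inv]
    change (((g⁻¹ * ex v hv s * g : SLR ι) : Matrix ι ι ℝ) *
      Matrix.diagonal (fun i => Real.exp (-s * v i))) p q = _
    rw [Matrix.mul_diagonal]
  rw [h1, conj_ex, inv_inv, Finset.sum_mul]
  have h2 : (1 : Matrix ι ι ℝ) p q = ∑ m, g⁻¹ p m * g m q := by
    have := sum_ginv g⁻¹ p q
    rw [inv_inv] at this
    exact this.symm
  rw [h2, ← Finset.sum_sub_distrib]
  refine Finset.sum_congr rfl fun m _ => ?_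
  have h3 : Real.exp (s * (v m - v q)) = Real.exp (s * v m) * Real.exp (-s * v q) := by
    rw [← Real.exp_add]
    ring_nf
  rw [h3]
  ring

lemma exp_sub_div {σ V : ℕ → ℝ} {v : ℝ} (hσ : ∀ k, 0 < σ k) (hσ0 : Tendsto σ atTop (𝓝 0))
    (hV : Tendsto V atTop (𝓝 v)) :
    Tendsto (fun k => (Real.exp (σ k * V k) - 1) / σ k) atTop (𝓝 v) := by
  have h1 : Tendsto (fun k => σ k * V k) atTop (𝓝 0) := by
    have := hσ0.mul hV
    rwa [zero_mul] at this
  have h2 : Tendsto (fun k => σ k * V k ^ 2) atTop (𝓝 0) := by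
    have := hσ0.mul (hV.pow 2)
    rwa [zero_mul] at this
  have h3 : Tendsto (fun k => (Real.exp (σ k * V k) - 1) / σ k - V k) atTop (𝓝 0) := by
    refine squeeze_zero_norm' ?_ h2
    filter_upwards [h1.abs.eventually (gt_mem_nhds (show |(0 : ℝ)| < 1 by simp))] with k hk
    have h4 := Real.abs_exp_sub_one_sub_id_le hk.le
    have h5 : (Real.exp (σ k * V k) - 1) / σ k - V k =
        (Real.exp (σ k * V k) - 1 - σ k * V k) / σ k := by
      have := (hσ k).ne'
      field_simp
    rw [Real.norm_eq_abs, h5, abs_div, abs_of_pos (hσ k), div_le_iff₀ (hσ k)]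
    refine h4.trans (le_of_eq ?_)
    ring
  have h6 := h3.add hV
  rw [zero_add] at h6
  exact h6.congr fun k => by ring

/-- first order behaviour of `g⁻¹ t g t⁻¹` for small diagonal `t` -/
lemma comm_lim (g : SLR ι) (v : ι → ℝ) (V : ℕ → ι → ℝ) (hV : ∀ k, ∑ m, V k m = 0)
    (σ : ℕ → ℝ) (hσ : ∀ k, 0 < σ k) (hσ0 : Tendsto σ atTop (𝓝 0))
    (hVv : ∀ m, Tendsto (fun k => V k m) atTop (𝓝 (v m))) (p q : ι) :
    Tendsto (fun k => ((g⁻¹ * ex (V k) (hV k) (σ k) * g * (ex (V k) (hV k) (σ k))⁻¹) p q -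
      (1 : Matrix ι ι ℝ) p q) / σ k) atTop (𝓝 (∑ m, (v m - v q) * (g⁻¹ p m * g m q))) := by
  simp_rw [comm_entry, Finset.sum_div]
  refine tendsto_finsetSum _ fun m _ => ?_
  have h1 := exp_sub_div hσ hσ0 ((hVv m).sub (hVv q))
  have h2 := h1.mul_const (g⁻¹ p m * g m q)
  refine h2.congr fun k => ?_
  ring

end Pool.Agent.TH277.MR
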