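import Pool.Agent.TH277.MR.K
import Pool.Agent.TH277.MR.L
import Pool.Agent.TH277.MR.G

/-!
Actions of a group `A` through a dense homomorphism to the torus: translates of ergodic measures.
-/

set_option autoImplicit false

open Filter Topology Matrix MeasureTheory Set
open scoped ENNReal

namespace Pool.Agent.TH277.MR

variable {I : Type*} [Fintype I] [DecidableEq I] {n : I → ℕ}

/-- inclusion of one factor -/
abbrev sg (v : I) (h : SLR (Fin (n v))) : PG n :=
  MonoidHom.mulSingle (fun v => Matrix.SpecialLinearGroup (Fin (n v)) ℝ) v h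

/-- positive diagonal elements of the product -/
def PD (t : PG n) : Prop := ∀ v, IsPosDiag (t v)

omit [Fintype I] in
lemma sg_same (v : I) (h : SLR (Fin (n v))) : sg v h v = h := by
  change Pi.mulSingle (M := fun v : I => Matrix.SpecialLinearGroup (Fin (n v)) ℝ) v h v = h
  rw [Pi.mulSingle_eq_same]

omit [Fintype I] in
lemma sg_ne {v w : I} (hw : w ≠ v) (h : SLR (Fin (n v))) : sg v h w = 1 := by
  change Pi.mulSingle (M := fun v : I => Matrix.SpecialLinearGroup (Fin (n v)) ℝ) v h w = 1
  rw [Pi.mulSingle_eq_of_ne hw]

omit [Fintype I] in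
lemma sg_PD {v : I} {t : SLR (Fin (n v))} (ht : IsPosDiag t) : PD (sg v t) :=
  fun w => single_posdiag ht w

/-- an element of the product lies in a subgroup if its components do -/
lemma mem_of_factors (H : Subgroup (PG n)) (h : PG n) (hh : ∀ v, sg v (h v) ∈ H) : h ∈ H := by
  have key : ∀ s : Finset I, (fun w => if w ∈ s then h w else 1 : PG n) ∈ H := by
    intro s
    induction s using Finset.induction_on with
    | empty =>
      have : (fun w => if w ∈ (∅ : Finset I) then h w else 1 : PG n) = 1 := by
        funext w
        simp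
      rw [this]
      exact H.one_mem
    | insert v s hv ih =>
      have e : (fun w => if w ∈ insert v s then h w else 1 : PG n) =
          sg v (h v) * (fun w => if w ∈ s then h w else 1 : PG n) := by
        funext w
        rw [Pi.mul_apply]
        by_cases hw : w = v
        · subst hw
          rw [sg_same]
          simp [hv]
        · rw [sg_ne hw]
          simp [hw]
      rw [e]
      exact H.mul_mem (hh v) ih
  have h1 := key Finset.univ
  have e : (fun w => if w ∈ (Finset.univ : Finset I) then h w else 1 : PG n) = h := by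
    funext w
    simp
  rwa [e] at h1

/-- diagonal elements commute -/
lemma posdiag_comm {ι : Type*} [Fintype ι] [DecidableEq ι] {s t : SLR ι} (hs : IsPosDiag s)
    (ht : IsPosDiag t) : s * t = t * s := by
  obtain ⟨w, hw, rfl⟩ := exists_ex hs
  obtain ⟨w', hw', rfl⟩ := exists_ex ht
  apply Subtype.ext
  change Matrix.diagonal _ * Matrix.diagonal _ = Matrix.diagonal _ * Matrix.diagonal _
  rw [Matrix.diagonal_mul_diagonal, Matrix.diagonal_mul_diagonal]
  congr 1
  funext i
  ring

omit [Fintype I] [DecidableEq I] in
lemma PD_comm {s t : PG n} (hs : PD s) (ht : PD t) : s * t = t * s := by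
  funext v
  exact posdiag_comm (hs v) (ht v)

/-- the explicit multiplier -/
lemma posdiag_tv' {ι : Type*} [Fintype ι] [DecidableEq ι] {t : SLR ι} (ht : IsPosDiag t) {i j : ι}
    (hij : i ≠ j) (s : ℝ) : t * tv hij s = tv hij (t i i / t j j * s) * t := by
  obtain ⟨w, hw, rfl⟩ := exists_ex ht
  rw [ex_tv w hw hij 1 s, ex_apply, ex_apply, if_pos rfl, if_pos rfl, ← Real.exp_sub]
  ring_nf

lemma fct (ι : Type*) [Fintype ι] [DecidableEq ι] : FirstCountableTopology (SLR ι) := by
  have h1 : FirstCountableTopology (ι → ℝ) := inferInstance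
  have h2 : FirstCountableTopology (ι → ι → ℝ) := inferInstance
  have h3 : FirstCountableTopology (Matrix ι ι ℝ) := h2
  exact (SpecialLinearGroup.isClosedEmbedding_val
    (n := ι) (R := ℝ)).isInducing.firstCountableTopology

omit [DecidableEq I] in
lemma fctP (n : I → ℕ) : FirstCountableTopology (PG n) := by
  have : ∀ v, FirstCountableTopology (Matrix.SpecialLinearGroup (Fin (n v)) ℝ) :=
    fun v => fct (Fin (n v))
  infer_instance

end Pool.Agent.TH277.MR
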