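import Pool.Agent.TH277.MR.M

/-!
Actions of a group `A` through a dense homomorphism to the torus: first consequences.
-/

set_option autoImplicit false

open Filter Topology Matrix MeasureTheory Set
open scoped ENNReal

namespace Pool.Agent.TH277.MR

variable {I : Type*} [Fintype I] [DecidableEq I] {n : I → ℕ}

/-- `A` acts on `X` compatibly with `G_∞ = ∏_v SL(n_v, ℝ)`, acting on `G_∞` by conjugation through
a homomorphism to the positive diagonal group with dense image -/
structure DenseAct {I : Type*} {n : I → ℕ} (X : Type*) [MulAction (PG n) X] {A : Type*} [Group A]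
    [MulAction A X] (π : A →* PG n) : Prop where
  pos : ∀ (a : A) (v : I), IsPosDiag (π a v)
  act : ∀ (a : A) (g : PG n) (x : X), a • g • x = (π a * g * (π a)⁻¹) • a • x
  dense : ∀ t : PG n, (∀ v, IsPosDiag (t v)) → t ∈ closure (Set.range π)

variable {X : Type*} [TopologicalSpace X] [PolishSpace X] [MeasurableSpace X] [BorelSpace X]
  [MulAction (PG n) X] [ContinuousSMul (PG n) X] {A : Type*} [Group A] [MulAction A X]
  [MeasurableConstSMul A X] {π : A →* PG n}

omit [Fintype I] [DecidableEq I] [PolishSpace X] in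
lemma map_act (hπ : DenseAct X π) {ν : Measure X} {a : A} (ha : ν.map (fun x => a • x) = ν)
    (M : PG n) : (ν.map fun x => M • x).map (fun x => a • x) =
      ν.map fun x => (π a * M * (π a)⁻¹) • x := by
  have hm : ∀ g : PG n, Measurable fun x : X => g • x := fun g => measurable_const_smul g
  have hma : Measurable fun x : X => a • x := measurable_const_smul a
  rw [Measure.map_map hma (hm M)]
  have e : (fun x : X => a • x) ∘ (fun x => M • x) =
      (fun x => (π a * M * (π a)⁻¹) • x) ∘ fun x => a • x := by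
    funext x
    exact hπ.act a M x
  rw [e, ← Measure.map_map (hm _) hma, ha]

omit [Fintype I] [DecidableEq I] [PolishSpace X] in
lemma ov_act (hπ : DenseAct X π) {ν : Measure X} (hν : ∀ a : A, ν.map (fun x => a • x) = ν)
    {c : ℝ} {M : PG n} (h : Ov c ν (ν.map fun x => M • x)) (a : A) :
    Ov c ν (ν.map fun x => (π a * M * (π a)⁻¹) • x) := by
  have h1 := h.map (f := fun x : X => a • x) (measurable_const_smul a)
  rwa [hν a, map_act hπ (hν a) M] at h1

omit [DecidableEq I] [TopologicalSpace X] [PolishSpace X] [MeasurableSpace X] [BorelSpace X]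
  [ContinuousSMul (PG n) X] [MeasurableConstSMul A X] in
lemma exists_seq (hπ : DenseAct X π) {t : PG n} (ht : PD t) :
    ∃ a : ℕ → A, Tendsto (fun k => π (a k)) atTop (𝓝 t) := by
  have := fctP n
  obtain ⟨x, hx, hlim⟩ := mem_closure_iff_seq_limit.1 (hπ.dense t ht)
  choose a ha using hx
  refine ⟨a, ?_⟩
  simpa only [ha] using hlim

omit [DecidableEq I] in
lemma ov_torus (hπ : DenseAct X π) {ν : Measure X} [IsFiniteMeasure ν]
    (hν : ∀ a : A, ν.map (fun x => a • x) = ν)
    {c : ℝ} {M : PG n} (h : Ov c ν (ν.map fun x => M • x)) {t : PG n} (ht : PD t) :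
    Ov c ν (ν.map fun x => (t * M * t⁻¹) • x) := by
  obtain ⟨a, ha⟩ := exists_seq hπ ht
  refine ov_closed₂ (h := fun k x => (π (a k) * M * (π (a k))⁻¹) • x)
    (fun k => measurable_const_smul _) (measurable_const_smul _) (fun x => ?_)
    (Eventually.of_forall fun k => ov_act hπ hν h (a k))
  exact ((ha.mul_const M).mul ha.inv).smul_const x

omit [Fintype I] [DecidableEq I] in
lemma mem_stab_lim {ν : Measure X} [IsProbabilityMeasure ν] {M : ℕ → PG n} {L : PG n}
    (hM : ∀ k, M k ∈ stabG ν) (hL : Tendsto M atTop (𝓝 L)) : L ∈ stabG ν :=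
  pres_lim (h := fun k x => M k • x) (fun k => measurable_const_smul _)
    (measurable_const_smul _) (fun x => hL.smul_const x) hM

omit [DecidableEq I] in
lemma stab_conj (hπ : DenseAct X π) {ν : Measure X} [IsProbabilityMeasure ν]
    (hν : ∀ a : A, ν.map (fun x => a • x) = ν) {M : PG n} (hM : M ∈ stabG ν) {t : PG n}
    (ht : PD t) : t * M * t⁻¹ ∈ stabG ν := by
  obtain ⟨a, ha⟩ := exists_seq hπ ht
  refine mem_stab_lim (M := fun k => π (a k) * M * (π (a k))⁻¹) (fun k => ?_)
    ((ha.mul_const M).mul ha.inv)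
  change ν.map (fun x => (π (a k) * M * (π (a k))⁻¹) • x) = ν
  rw [← map_act hπ (hν (a k)) M]
  have h1 : ν.map (fun x => M • x) = ν := hM
  rw [h1, hν]

lemma tv_zero {ι : Type*} [Fintype ι] [DecidableEq ι] {i j : ι} (hij : i ≠ j) :
    tv hij 0 = 1 := SpecialLinearGroup.transvection_coeff_zero hij

omit [Fintype I] in
lemma sg_tv_zero {v : I} {i j : Fin (n v)} (hij : i ≠ j) : sg v (tv hij 0) = 1 := by
  rw [tv_zero]
  exact map_one (MonoidHom.mulSingle (fun v => Matrix.SpecialLinearGroup (Fin (n v)) ℝ) v)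

/-- the maps given by `A` -/
def maps (A : Type*) [Group A] (X : Type*) [MulAction A X] : Set (X → X) :=
  {f | ∃ a : A, f = fun x => a • x}

omit [Fintype I] [DecidableEq I] [PolishSpace X] in
/-- a positive diagonal element whose translate overlaps the ergodic measure preserves it -/
lemma torus_mem (hπ : DenseAct X π) {ν : Measure X} [IsProbabilityMeasure ν]
    (hν : ∀ a : A, ν.map (fun x => a • x) = ν) (he : Erg (maps A X) ν) {c : ℝ} (hc : 0 < c)
    {d : PG n} (hd : PD d) (h : Ov c ν (ν.map fun x => d • x)) : d ∈ stabG ν := by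
  have hmd : Measurable fun x : X => d • x := measurable_const_smul d
  have hcomm : ∀ a : A, π a * d * (π a)⁻¹ = d := fun a => by
    rw [PD_comm (hπ.pos a) hd, mul_inv_cancel_right]
  have hprob : IsProbabilityMeasure (ν.map fun x => d • x) :=
    Measure.isProbabilityMeasure_map hmd.aemeasurable
  have hq : Measure.QuasiMeasurePreserving (fun x : X => d • x) ν (ν.map fun x => d • x) :=
    ⟨hmd, Measure.AbsolutelyContinuous.rfl⟩
  have h1 : Pres (maps A X) ν := by
    rintro f ⟨a, rfl⟩
    exact ⟨measurable_const_smul a, hν a⟩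
  have h2 : Pres (maps A X) (ν.map fun x => d • x) := by
    rintro f ⟨a, rfl⟩
    refine ⟨measurable_const_smul a, ?_⟩
    rw [map_act hπ (hν a) d, hcomm]
  have h3 : Erg (maps A X) (ν.map fun x => d • x) := by
    intro E hE hf
    have h4 := he _ (hmd hE) (fun f hff => ?_)
    · rw [Measure.map_apply hmd hE, Measure.map_apply hmd hE.compl]
      exact h4
    · obtain ⟨a, rfl⟩ := hff
      have h5 := hq.preimage_ae_eq (hf _ ⟨a, rfl⟩)
      have e : (fun x : X => d • x) ⁻¹' ((fun x : X => a • x) ⁻¹' E) =
          (fun x : X => a • x) ⁻¹' ((fun x : X => d • x) ⁻¹' E) := by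
        ext x
        simp only [mem_preimage]
        rw [hπ.act a d x, hcomm]
      rwa [e] at h5
  rcases eq_or_sing (by rw [measure_univ, measure_univ]) h1 h2 h1 h2 he h3 with h6 | h6
  · exact h6.symm
  · exact absurd h6 (h.not_sing hc)

/-- **Root groups.** -/
theorem root_mem (hπ : DenseAct X π) {ν : Measure X} [IsProbabilityMeasure ν]
    (hν : ∀ a : A, ν.map (fun x => a • x) = ν) (he : Erg (maps A X) ν) {c : ℝ} (hc : 0 < c)
    (M : ℕ → PG n) (hM1 : Tendsto M atTop (𝓝 1)) (ho : ∀ k, Ov c ν (ν.map fun x => M k • x))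
    {v : I} {i j : Fin (n v)} (hij : i ≠ j) (σ : ℕ → ℝ) (Z : Fin (n v) → Fin (n v) → ℝ)
    (hσ : ∀ k, 0 < σ k) (hσ0 : Tendsto σ atTop (𝓝 0))
    (hM : ∀ p q, Tendsto (fun k => (M k v p q - (1 : Matrix (Fin (n v)) (Fin (n v)) ℝ) p q) / σ k)
      atTop (𝓝 (Z p q)))
    (hZ : Z i j ≠ 0) (x : ℝ) : sg v (tv hij x) ∈ stabG ν := by
  have hov1 : ∀ x, 0 < x / Z i j → Ov c ν (ν.map fun y => sg v (tv hij x) • y) := by
    intro x hx
    have hl := root_lim' hij (fun k => M k v) σ Z hσ hσ0 hM hZ hx
    set t : ℕ → ℝ := fun k => Real.log (x / Z i j / σ k) / 2 with ht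
    refine ov_closed₂ (h := fun k y => (sg v (ex (pw i j) (pw_sum i j) (t k)) * M k *
      (sg v (ex (pw i j) (pw_sum i j) (t k)))⁻¹) • y) (fun k => measurable_const_smul _)
      (measurable_const_smul _) (fun y => ?_)
      (Eventually.of_forall fun k => ov_torus hπ hν (ho k) (sg_PD (ex_pos _ _ _)))
    refine Tendsto.smul_const ?_ y
    rw [tendsto_pi_nhds]
    intro w
    by_cases hw : w = v
    · subst hw
      simp only [Pi.mul_apply, Pi.inv_apply, sg_same]
      exact hl
    · simp only [Pi.mul_apply, Pi.inv_apply, sg_ne hw, one_mul, inv_one, mul_one]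
      exact (tendsto_pi_nhds.1 hM1) w
  have hinv : ∀ x, Ov c ν (ν.map fun y => sg v (tv hij x) • y) →
      Ov c ν (ν.map fun y => sg v (tv hij (-x)) • y) := by
    intro x h
    have h3 := (h.map (f := fun y : X => sg v (tv hij (-x)) • y) (measurable_const_smul _)).symm
    rw [Measure.map_map (measurable_const_smul _) (measurable_const_smul _)] at h3
    have e : (fun y : X => sg v (tv hij (-x)) • y) ∘ (fun y => sg v (tv hij x) • y) = id := by
      funext y
      simp only [Function.comp_apply, id]
      rw [← mul_smul, ← map_mul, ← SpecialLinearGroup.transvection_add, neg_add_cancel,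
        SpecialLinearGroup.transvection_coeff_zero, map_one, one_smul]
    rwa [e, Measure.map_id] at h3
  have hc1 : c ≤ 1 := by
    have := ho 0 univ MeasurableSet.univ
    rw [compl_univ, measureReal_empty, add_zero, measureReal_def, measure_univ] at this
    simpa using this
  have hall : ∀ x, Ov c ν (ν.map fun y => sg v (tv hij x) • y) := by
    intro x
    rcases lt_trichotomy (x / Z i j) 0 with h | h | h
    · have h1 := hinv _ (hov1 (-x) (by rw [neg_div]; linarith))
      rwa [neg_neg] at h1
    · have hx : x = 0 := by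
        rcases div_eq_zero_iff.1 h with h | h
        · exact h
        · exact absurd h hZ
      subst hx
      have e : (fun y : X => sg v (tv hij 0) • y) = id := by
        funext y
        rw [sg_tv_zero, one_smul]
        rfl
      rw [e, Measure.map_id]
      intro B hB
      have : ν.real B + ν.real Bᶜ = ν.real univ := measureReal_add_measureReal_compl hB
      rw [this, measureReal_def, measure_univ]
      simpa using hc1
    · exact hov1 x h
  have hscale : ∀ (a : A) (s : ℝ) (y : X), a • sg v (tv hij s) • y =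
      sg v (tv hij (π a v i i / π a v j j * s)) • a • y := by
    intro a s y
    rw [hπ.act]
    congr 1
    rw [mul_inv_eq_iff_eq_mul]
    exact single_comm (posdiag_tv' (hπ.pos a v) hij s)
  refine flow_inv (u := fun s y => sg v (tv hij s) • y) ?_ ?_ ?_ (𝒜 := maps A X) ?_ he ?_ ?_ hc
    hall x
  · refine Continuous.smul ?_ continuous_snd
    exact (continuous_mulSingle v).comp ((tv_cont hij).comp continuous_fst)
  · intro s t y
    rw [← mul_smul, ← map_mul, ← SpecialLinearGroup.transvection_add]
  · intro y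
    rw [sg_tv_zero, one_smul]
  · rintro f ⟨a, rfl⟩
    exact ⟨measurable_const_smul a, hν a⟩
  · rintro f ⟨a, rfl⟩
    exact ⟨_, (div_pos ((hπ.pos a v).2 i) ((hπ.pos a v).2 j)).ne', fun s y => hscale a s y⟩
  · intro s
    have hk : ∀ k : ℕ, ∃ a : A, π a v i i / π a v j j < 2 * Real.exp (-(2 * (k : ℝ))) := by
      intro k
      obtain ⟨a, ha⟩ := exists_seq hπ (sg_PD (v := v) (ex_pos (pw i j) (pw_sum i j) (-(k : ℝ))))
      have h1 := (tendsto_pi_nhds.1 ha) v
      rw [sg_same] at h1
      have h2 := (tendsto_sl.1 h1) i i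
      have h3 := (tendsto_sl.1 h1) j j
      rw [ex_apply, if_pos rfl] at h2 h3
      have h4 := h2.div h3 (Real.exp_pos _).ne'
      rw [← Real.exp_sub] at h4
      have h5 : -(k : ℝ) * pw i j i - -(k : ℝ) * pw i j j = -(2 * (k : ℝ)) := by
        have := pw_ij hij
        linear_combination (-(k : ℝ)) * this
      rw [h5] at h4
      have h6 : Real.exp (-(2 * (k : ℝ))) < 2 * Real.exp (-(2 * (k : ℝ))) := by
        have := Real.exp_pos (-(2 * (k : ℝ)))
        linarith
      obtain ⟨l, hl⟩ := (h4.eventually (gt_mem_nhds h6)).exists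
      exact ⟨a l, hl⟩
    choose a ha using hk
    refine ⟨fun k y => a k • y, fun k y => (a k)⁻¹ • y,
      fun k => π (a k) v i i / π (a k) v j j * s, ?_, fun k => ⟨measurable_const_smul _,
        measurable_const_smul _, hν _, fun y => inv_smul_smul _ y, fun y => hscale _ s y⟩⟩
    have hexp0 : Tendsto (fun k : ℕ => 2 * Real.exp (-(2 * (k : ℝ)))) atTop (𝓝 0) := by
      have := (Real.tendsto_exp_neg_atTop_nhds_zero.comp
        (tendsto_natCast_atTop_atTop (R := ℝ).const_mul_atTop two_pos)).const_mul 2
      rwa [mul_zero] at this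
    have h0 : Tendsto (fun k => π (a k) v i i / π (a k) v j j) atTop (𝓝 0) :=
      squeeze_zero (fun k => (div_pos ((hπ.pos _ v).2 i) ((hπ.pos _ v).2 j)).le)
        (fun k => (ha k).le) hexp0
    have := h0.mul_const s
    rwa [zero_mul] at this

end Pool.Agent.TH277.MR
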