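import Pool.Agent.TH277.MR.N

/-!
Actions of a group `A` through a dense homomorphism to the torus: recurrence and translates.
-/

set_option autoImplicit false

open Filter Topology Matrix MeasureTheory Set
open scoped ENNReal

namespace Pool.Agent.TH277.MR

section diag

variable {ι : Type*} [Fintype ι] [DecidableEq ι]

lemma posdiag_mul_entry {s t : SLR ι} (hs : IsPosDiag s) (ht : IsPosDiag t) (m : ι) :
    (s * t) m m = s m m * t m m := by
  obtain ⟨w, hw, rfl⟩ := exists_ex hs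
  obtain ⟨w', hw', rfl⟩ := exists_ex ht
  change ((Matrix.diagonal (fun i => Real.exp (1 * w i)) : Matrix ι ι ℝ) *
    Matrix.diagonal (fun i => Real.exp (1 * w' i))) m m = _
  rw [Matrix.diagonal_mul_diagonal, Matrix.diagonal_apply_eq, ex_apply, ex_apply, if_pos rfl,
    if_pos rfl]

lemma posdiag_log {t : SLR ι} (ht : IsPosDiag t) : ∑ i, Real.log (t i i) = 0 := by
  obtain ⟨w, hw, rfl⟩ := exists_ex ht
  simp_rw [ex_apply]
  simpa using hw

lemma posdiag_ex {t : SLR ι} (ht : IsPosDiag t) {σ : ℝ} (hσ : σ ≠ 0)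
    (h : ∑ i, Real.log (t i i) / σ = 0) : t = ex (fun i => Real.log (t i i) / σ) h σ := by
  obtain ⟨w, hw, ht'⟩ := exists_ex ht
  apply Subtype.ext
  ext p q
  change t p q = (ex _ h σ) p q
  rw [ex_apply]
  by_cases hpq : p = q
  · subst hpq
    rw [if_pos rfl, mul_div_cancel₀ _ hσ, Real.exp_log (ht.2 p)]
  · rw [if_neg hpq]
    exact ht.1 p q hpq

end diag

variable {I : Type*} [Fintype I] [DecidableEq I] {n : I → ℕ}

/-- logarithms of the diagonal entries -/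
noncomputable def Lg (t : PG n) (w : I) (m : Fin (n w)) : ℝ := Real.log (t w m m)

omit [Fintype I] [DecidableEq I] in
lemma Lg_mul {s t : PG n} (hs : PD s) (ht : PD t) (w : I) (m : Fin (n w)) :
    Lg (s * t) w m = Lg s w m + Lg t w m := by
  unfold Lg
  rw [Pi.mul_apply, posdiag_mul_entry (hs w) (ht w),
    Real.log_mul ((hs w).2 m).ne' ((ht w).2 m).ne']

/-- one-parameter groups of the torus -/
noncomputable def exP (V : ∀ w : I, Fin (n w) → ℝ) (hV : ∀ w, ∑ m, V w m = 0) (s : ℝ) : PG n :=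
  fun w => ex (V w) (hV w) s

omit [Fintype I] [DecidableEq I] in
lemma exP_PD (V : ∀ w : I, Fin (n w) → ℝ) (hV : ∀ w, ∑ m, V w m = 0) (s : ℝ) :
    PD (exP V hV s) := fun w => ex_pos _ _ _

/-- the commutator `g⁻¹ t g t⁻¹` -/
def Wc (g t : PG n) : PG n := g⁻¹ * (t * g * t⁻¹)

omit [Fintype I] [DecidableEq I] in
lemma Wc_mul (g s t : PG n) : Wc g (s * t) = Wc g s * (s * Wc g t * s⁻¹) := by
  unfold Wc
  group

variable {X : Type*} [TopologicalSpace X] [PolishSpace X] [MeasurableSpace X] [BorelSpace X]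
  [MulAction (PG n) X] [ContinuousSMul (PG n) X] {A : Type*} [Group A] [MulAction A X]
  [MeasurableConstSMul A X] {π : A →* PG n}

omit [Fintype I] [DecidableEq I] [TopologicalSpace X] [PolishSpace X] [MeasurableSpace X]
  [BorelSpace X] [ContinuousSMul (PG n) X] [MeasurableConstSMul A X] in
lemma Lg_inv_mul (hπ : DenseAct X π) (a b : A) (w : I) (m : Fin (n w)) :
    Lg (π (a⁻¹ * b)) w m = Lg (π b) w m - Lg (π a) w m := by
  have h1 : Lg (π (a * (a⁻¹ * b))) w m = Lg (π a) w m + Lg (π (a⁻¹ * b)) w m := by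
    rw [map_mul]
    exact Lg_mul (hπ.pos a) (hπ.pos _) w m
  rw [mul_inv_cancel_left] at h1
  linarith

omit [DecidableEq I] [TopologicalSpace X] [PolishSpace X] [MeasurableSpace X] [BorelSpace X]
  [ContinuousSMul (PG n) X] [MeasurableConstSMul A X] in
lemma exists_near (hπ : DenseAct X π) (V : ∀ w : I, Fin (n w) → ℝ) (hV : ∀ w, ∑ m, V w m = 0)
    (s : ℝ) {ε : ℝ} (hε : 0 < ε) : ∃ a : A, ∀ w m, |Lg (π a) w m - s * V w m| < ε := by
  obtain ⟨a, ha⟩ := exists_seq hπ (exP_PD V hV s)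
  have h1 : ∀ w m, Tendsto (fun k => Lg (π (a k)) w m) atTop (𝓝 (s * V w m)) := by
    intro w m
    have h2 := (tendsto_sl.1 ((tendsto_pi_nhds.1 ha) w)) m m
    have h3 : (exP V hV s w) m m = Real.exp (s * V w m) := by
      change (ex (V w) (hV w) s) m m = _
      rw [ex_apply, if_pos rfl]
    rw [h3] at h2
    have h4 := h2.log (Real.exp_pos _).ne'
    rwa [Real.log_exp] at h4
  have h5 : ∀ᶠ k in atTop, ∀ w m, |Lg (π (a k)) w m - s * V w m| < ε := by
    rw [eventually_all]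
    intro w
    rw [eventually_all]
    intro m
    have h6 := (h1 w m).sub_const (s * V w m)
    rw [sub_self] at h6
    have h7 := h6.abs
    rw [abs_zero] at h7
    exact h7.eventually (gt_mem_nhds hε)
  obtain ⟨k, hk⟩ := h5.exists
  exact ⟨a k, hk⟩

omit [DecidableEq I] [PolishSpace X] in
/-- **Recurrence.** -/
lemma recur (hπ : DenseAct X π) {μ ν : Measure X} [IsProbabilityMeasure μ]
    [IsProbabilityMeasure ν] (hμ : ∀ a : A, μ.map (fun x => a • x) = μ)
    (hν : ∀ a : A, ν.map (fun x => a • x) = ν) (g : PG n) {κ : Measure X} (hκ1 : κ ≤ μ)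
    (hκ2 : κ ≤ ν.map fun x => g • x) {N : ℕ} (hN : 2 ≤ N * κ.real univ)
    (V : ∀ w : I, Fin (n w) → ℝ) (hV : ∀ w, ∑ m, V w m = 0) {τ ε : ℝ} (hε : 0 < ε) :
    ∃ (a : A) (l : ℝ), 1 ≤ l ∧ l ≤ N ∧ (∀ w m, |Lg (π a) w m - l * τ * V w m| ≤ ε) ∧
      Ov (1 / (2 * (N : ℝ) ^ 2)) ν (ν.map fun x => Wc g (π a) • x) := by
  have hb : ∀ i : Fin N, ∃ b : A, ∀ w m, |Lg (π b) w m - (i : ℝ) * τ * V w m| < ε / 2 := fun i => by
    exact exists_near hπ V hV ((i : ℝ) * τ) (by linarith)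
  choose b hb using hb
  have hmb : ∀ c : A, Measurable fun x : X => c • x := fun c => measurable_const_smul c
  have hmg : ∀ c : PG n, Measurable fun x : X => c • x := fun c => measurable_const_smul c
  have hfκ : IsFiniteMeasure κ := isFiniteMeasure_of_le μ hκ1
  obtain ⟨i, j, hij, hov⟩ := pigeon hN (μ := μ) (fun i => κ.map fun x => b i • x)
    (fun i => by
      calc κ.map (fun x => b i • x) ≤ μ.map (fun x => b i • x) := Measure.map_mono hκ1 (hmb _)
        _ = μ := hμ _)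
    (fun i => by
      rw [measureReal_def, measureReal_def, Measure.map_apply (hmb _) MeasurableSet.univ,
        preimage_univ])
  have h1 := hov.map (hmb (b i)⁻¹)
  rw [Measure.map_map (hmb _) (hmb _), Measure.map_map (hmb _) (hmb _)] at h1
  have e1 : (fun x : X => (b i)⁻¹ • x) ∘ (fun x => b i • x) = id := by
    funext x
    simp
  have e2 : (fun x : X => (b i)⁻¹ • x) ∘ (fun x => b j • x) =
      fun x => ((b i)⁻¹ * b j) • x := by
    funext x
    simp [mul_smul]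
  rw [e1, e2, Measure.map_id] at h1
  have hle : κ.map (fun x => ((b i)⁻¹ * b j) • x) ≤
      ν.map fun x => (π ((b i)⁻¹ * b j) * g * (π ((b i)⁻¹ * b j))⁻¹) • x := by
    rw [← map_act hπ (hν _) g]
    exact Measure.map_mono hκ2 (hmb _)
  have h2 := (h1.mono hκ2 hle).map (hmg g⁻¹)
  rw [map_inv_map' g, Measure.map_map (hmg _) (hmg _)] at h2
  have e3 : (fun x : X => g⁻¹ • x) ∘ (fun x => (π ((b i)⁻¹ * b j) * g *
      (π ((b i)⁻¹ * b j))⁻¹) • x) = fun x => Wc g (π ((b i)⁻¹ * b j)) • x := by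
    funext x
    unfold Wc
    rw [Function.comp_apply, ← mul_smul]
  rw [e3] at h2
  have hij' : (i : ℕ) < j := hij
  refine ⟨(b i)⁻¹ * b j, (j : ℝ) - i, ?_, ?_, fun w m => ?_, h2⟩
  · have : (i : ℝ) + 1 ≤ j := by exact_mod_cast hij'
    linarith
  · have h3 : (j : ℝ) ≤ N := by exact_mod_cast j.2.le
    have h4 : (0 : ℝ) ≤ (i : ℕ) := Nat.cast_nonneg _
    linarith
  · rw [Lg_inv_mul hπ]
    have h3 := abs_lt.1 (hb i w m)
    have h4 := abs_lt.1 (hb j w m)
    rw [abs_le]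
    constructor <;> nlinarith [h3.1, h3.2, h4.1, h4.2]

/-- the data produced by recurrence along a direction -/
structure Seqs (ν : Measure X) (π : A →* PG n) (g : PG n) (δ : ℝ)
    (V : ∀ w : I, Fin (n w) → ℝ) (a : ℕ → A) (σ : ℕ → ℝ)
    (U : ℕ → ∀ w : I, Fin (n w) → ℝ) : Prop where
  pos : ∀ k, 0 < σ k
  lim : Tendsto σ atTop (𝓝 0)
  sum : ∀ k w, ∑ m, U k w m = 0
  dir : ∀ w m, Tendsto (fun k => U k w m) atTop (𝓝 (V w m))
  eq : ∀ k w, π (a k) w = ex (U k w) (sum k w) (σ k)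
  ov : ∀ k, Ov δ ν (ν.map fun x => Wc g (π (a k)) • x)

omit [DecidableEq I] [PolishSpace X] in
lemma seqs (hπ : DenseAct X π) {μ ν : Measure X} [IsProbabilityMeasure μ]
    [IsProbabilityMeasure ν] (hμ : ∀ a : A, μ.map (fun x => a • x) = μ)
    (hν : ∀ a : A, ν.map (fun x => a • x) = ν) (g : PG n) {κ : Measure X} (hκ1 : κ ≤ μ)
    (hκ2 : κ ≤ ν.map fun x => g • x) {N : ℕ} (hN : 2 ≤ N * κ.real univ)
    (V : ∀ w : I, Fin (n w) → ℝ) (hV : ∀ w, ∑ m, V w m = 0) :
    ∃ (a : ℕ → A) (σ : ℕ → ℝ) (U : ℕ → ∀ w : I, Fin (n w) → ℝ),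
      Seqs ν π g (1 / (2 * (N : ℝ) ^ 2)) V a σ U := by
  have h1 : ∀ k : ℕ, ∃ (a : A) (l : ℝ), 1 ≤ l ∧ l ≤ N ∧
      (∀ w m, |Lg (π a) w m - l * (1 / ((k : ℝ) + 1)) * V w m| ≤ (1 / ((k : ℝ) + 1)) ^ 2) ∧
      Ov (1 / (2 * (N : ℝ) ^ 2)) ν (ν.map fun x => Wc g (π a) • x) := fun k =>
    recur hπ hμ hν g hκ1 hκ2 hN V hV (by positivity)
  choose a l hl1 hlN hL hov using h1
  have hτ : ∀ k : ℕ, (0 : ℝ) < 1 / ((k : ℝ) + 1) := fun k => by positivity
  have hσ : ∀ k : ℕ, 0 < l k * (1 / ((k : ℝ) + 1)) := fun k =>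
    mul_pos (by linarith [hl1 k]) (hτ k)
  have hsum : ∀ k w, ∑ m, Lg (π (a k)) w m / (l k * (1 / ((k : ℝ) + 1))) = 0 := by
    intro k w
    rw [← Finset.sum_div]
    have : ∑ m, Lg (π (a k)) w m = 0 := posdiag_log (hπ.pos (a k) w)
    rw [this, zero_div]
  have hτ0 : Tendsto (fun k : ℕ => 1 / ((k : ℝ) + 1)) atTop (𝓝 0) :=
    tendsto_one_div_add_atTop_nhds_zero_nat
  refine ⟨a, fun k => l k * (1 / ((k : ℝ) + 1)),
    fun k w m => Lg (π (a k)) w m / (l k * (1 / ((k : ℝ) + 1))), ?_⟩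
  refine ⟨hσ, ?_, hsum, fun w m => ?_, fun k w => ?_, hov⟩
  · have h2 := hτ0.const_mul (N : ℝ)
    rw [mul_zero] at h2
    exact squeeze_zero (fun k => (hσ k).le)
      (fun k => mul_le_mul_of_nonneg_right (hlN k) (hτ k).le) h2
  · rw [tendsto_iff_dist_tendsto_zero]
    refine squeeze_zero (fun k => dist_nonneg) (fun k => ?_) hτ0
    rw [Real.dist_eq]
    have h3 : Lg (π (a k)) w m / (l k * (1 / ((k : ℝ) + 1))) - V w m =
        (Lg (π (a k)) w m - l k * (1 / ((k : ℝ) + 1)) * V w m) / (l k * (1 / ((k : ℝ) + 1))) := by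
      rw [sub_div, mul_comm (l k * (1 / ((k : ℝ) + 1))) (V w m), mul_div_assoc (V w m),
        div_self (hσ k).ne', mul_one]
    rw [h3, abs_div, abs_of_pos (hσ k), div_le_iff₀ (hσ k)]
    refine (hL k w m).trans ?_
    rw [sq]
    refine mul_le_mul_of_nonneg_left ?_ (hτ k).le
    exact le_mul_of_one_le_left (hτ k).le (hl1 k)
  · exact posdiag_ex (hπ.pos (a k) w) (hσ k).ne' (hsum k w)

omit [Fintype I] [DecidableEq I] in
lemma Wc_apply (g : PG n) (t : PG n) (w : I) :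
    Wc g t w = (g w)⁻¹ * t w * g w * (t w)⁻¹ := by
  unfold Wc
  simp only [Pi.mul_apply, Pi.inv_apply]
  group

end Pool.Agent.TH277.MR
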