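import Pool.Agent.TH277.MR.H

/-!
Translates along a locally compact abelian group normalised by an ergodic group.
-/

set_option autoImplicit false

open MeasureTheory Filter Topology Set
open scoped ENNReal Pointwise

namespace Pool.Agent.TH277.MR.PB

open Pool.Agent.TH277.MR

section gam

variable {V : Type*} [AddCommGroup V] [TopologicalSpace V] [IsTopologicalAddGroup V]
  [LocallyCompactSpace V] [MeasurableSpace V] [BorelSpace V] [SecondCountableTopology V]

/-- closed compact sets covering the group -/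
def kk (V : Type*) [AddCommGroup V] [TopologicalSpace V] [IsTopologicalAddGroup V]
    [LocallyCompactSpace V] [SecondCountableTopology V] (n : ℕ) : Set V :=
  closure (compactCovering V n)

omit [MeasurableSpace V] [BorelSpace V] in
lemma kk_compact (n : ℕ) : IsCompact (kk V n) := (isCompact_compactCovering V n).closure

omit [MeasurableSpace V] [BorelSpace V] in
lemma kk_closed (n : ℕ) : IsClosed (kk V n) := isClosed_closure

omit [MeasurableSpace V] [BorelSpace V] in
lemma kk_cover : ⋃ n, kk V n = univ := by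
  refine eq_univ_of_forall fun x => ?_
  obtain ⟨n, hn⟩ := mem_iUnion.1 ((iUnion_compactCovering V).symm ▸ mem_univ x)
  exact mem_iUnion.2 ⟨n, subset_closure hn⟩

/-- weights -/
noncomputable def wt (m : Measure V) (n : ℕ) : ℝ≥0∞ :=
  (2 : ℝ≥0∞)⁻¹ ^ (n + 1) * (1 + m (kk V n))⁻¹

/-- a finite measure equivalent to Haar measure -/
noncomputable def gam (m : Measure V) : Measure V :=
  Measure.sum fun n : ℕ => wt m n • m.restrict (kk V n)

variable {m : Measure V} [m.IsAddHaarMeasure]

lemma wt_ne (n : ℕ) : wt m n ≠ 0 := by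
  unfold wt
  refine mul_ne_zero (pow_ne_zero _ (by simp)) ?_
  rw [ENNReal.inv_ne_zero]
  have := (kk_compact (V := V) n).measure_lt_top (μ := m)
  finiteness

lemma wt_mul {a : ℝ≥0∞} {n : ℕ} (ha : a ≤ m (kk V n)) : wt m n * a ≤ (2 : ℝ≥0∞)⁻¹ ^ (n + 1) := by
  unfold wt
  rw [mul_assoc]
  refine mul_le_of_le_one_right zero_le ?_
  calc (1 + m (kk V n))⁻¹ * a ≤ (1 + m (kk V n))⁻¹ * (1 + m (kk V n)) := by
        gcongr
        exact ha.trans le_add_self
    _ ≤ 1 := ENNReal.inv_mul_le_one _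

lemma tsum_half : ∑' n : ℕ, (2 : ℝ≥0∞)⁻¹ ^ (n + 1) = 1 := by
  rw [ENNReal.tsum_geometric_add_one, ENNReal.one_sub_inv_two, inv_inv]
  exact ENNReal.inv_mul_cancel (by norm_num) (by norm_num)

lemma gam_fin : IsFiniteMeasure (gam m) := by
  refine ⟨?_⟩
  unfold gam
  rw [Measure.sum_apply _ MeasurableSet.univ]
  refine lt_of_le_of_lt (b := 1) ?_ ENNReal.one_lt_top
  rw [← tsum_half]
  refine ENNReal.tsum_le_tsum fun n => ?_
  rw [Measure.smul_apply, Measure.restrict_apply_univ, smul_eq_mul]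
  exact wt_mul le_rfl

lemma gam_ac : gam m ≪ m := by
  refine Measure.AbsolutelyContinuous.mk fun B hB h0 => ?_
  unfold gam
  rw [Measure.sum_apply _ hB, ENNReal.tsum_eq_zero]
  intro n
  rw [Measure.smul_apply, Measure.restrict_apply hB, smul_eq_mul,
    measure_mono_null inter_subset_left h0, mul_zero]

lemma ac_gam : m ≪ gam m := by
  refine Measure.AbsolutelyContinuous.mk fun B hB h0 => ?_
  unfold gam at h0
  rw [Measure.sum_apply _ hB, ENNReal.tsum_eq_zero] at h0
  have h1 : B ⊆ ⋃ n, B ∩ kk V n := by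
    rw [← inter_iUnion, kk_cover, inter_univ]
  refine measure_mono_null h1 (measure_iUnion_null fun n => ?_)
  have h2 := h0 n
  rw [Measure.smul_apply, Measure.restrict_apply hB, smul_eq_mul, mul_eq_zero] at h2
  rcases h2 with h2 | h2
  · exact absurd h2 (wt_ne n)
  · exact h2

/-- the defect of invariance -/
noncomputable def err (m : Measure V) (r : V) : ℝ≥0∞ :=
  ∑' n : ℕ, wt m n * m ((r +ᵥ kk V n) \ kk V n)

lemma err_tendsto : Tendsto (err m) (𝓝 0) (𝓝 0) := by
  have hb : ∀ (r : V) (n : ℕ), wt m n * m ((r +ᵥ kk V n) \ kk V n) ≤ (2 : ℝ≥0∞)⁻¹ ^ (n + 1) :=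
    fun r n => wt_mul ((measure_mono sdiff_subset).trans (measure_vadd _ _ _).le)
  have hw : ∀ n, wt m n ≠ ∞ := fun n => by
    unfold wt
    refine ENNReal.mul_ne_top (by finiteness) ?_
    rw [ENNReal.inv_ne_top]
    exact (lt_of_lt_of_le one_pos le_self_add).ne'
  have h1 : Tendsto (fun r : V => ∑' n : ℕ, (wt m n * m ((r +ᵥ kk V n) \ kk V n)).toReal) (𝓝 0)
      (𝓝 (∑' _ : ℕ, (0 : ℝ))) := by
    refine tendsto_tsum_of_dominated_convergence (bound := fun n => (1 / 2 : ℝ) ^ (n + 1))
      ((summable_nat_add_iff 1).2 summable_geometric_two) (fun n => ?_)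
      (Eventually.of_forall fun r n => ?_)
    · have h2 : Tendsto (fun r : V => wt m n * m ((r +ᵥ kk V n) \ kk V n)) (𝓝 0)
          (𝓝 (wt m n * 0)) :=
        ENNReal.Tendsto.const_mul
          (tendsto_measure_vadd_sdiff_isCompact_isClosed (kk_compact n) (kk_closed n))
          (Or.inr (hw n))
      rw [mul_zero] at h2
      have h3 := (ENNReal.tendsto_toReal ENNReal.zero_ne_top).comp h2
      rw [ENNReal.toReal_zero] at h3
      exact h3
    · rw [Real.norm_of_nonneg ENNReal.toReal_nonneg]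
      have h4 := ENNReal.toReal_mono (by finiteness) (hb r n)
      simpa [one_div] using h4
  rw [tsum_zero] at h1
  have h5 : ∀ r : V, err m r = ENNReal.ofReal
      (∑' n : ℕ, (wt m n * m ((r +ᵥ kk V n) \ kk V n)).toReal) := fun r => by
    unfold err
    have h6 : (∑' n : ℕ, wt m n * m ((r +ᵥ kk V n) \ kk V n)) ≠ ∞ :=
      ((ENNReal.tsum_le_tsum (hb r)).trans_lt (by rw [tsum_half]; exact ENNReal.one_lt_top)).ne
    rw [← ENNReal.tsum_toReal_eq (fun n => ((hb r n).trans_lt (by finiteness)).ne),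
      ENNReal.ofReal_toReal h6]
  have h7 : err m = fun r : V => ENNReal.ofReal
      (∑' n : ℕ, (wt m n * m ((r +ᵥ kk V n) \ kk V n)).toReal) := funext h5
  rw [h7]
  have := ENNReal.tendsto_ofReal h1
  simpa using this

lemma gam_shift {G : V → ℝ≥0∞} (hG1 : ∀ s, G s ≤ 1) (r : V) :
    ∫⁻ s, G (r + s) ∂(gam m) ≤ ∫⁻ s, G s ∂(gam m) + err m r := by
  unfold gam err
  rw [lintegral_sum_measure, lintegral_sum_measure, ← ENNReal.tsum_add]
  refine ENNReal.tsum_le_tsum fun n => ?_
  rw [lintegral_smul_measure, lintegral_smul_measure, smul_eq_mul, smul_eq_mul, ← mul_add]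
  gcongr
  have hK : MeasurableSet (kk V n) := (kk_closed n).measurableSet
  have hrK : MeasurableSet (r +ᵥ kk V n) := hK.const_vadd r
  have h1 : ∫⁻ s in kk V n, G (r + s) ∂m = ∫⁻ s in (r +ᵥ kk V n), G s ∂m := by
    rw [← lintegral_indicator hK, ← lintegral_indicator hrK,
      ← lintegral_add_left_eq_self ((r +ᵥ kk V n).indicator G) r]
    refine lintegral_congr fun s => ?_
    by_cases hs : s ∈ kk V n
    · rw [indicator_of_mem hs, indicator_of_mem]
      exact vadd_mem_vadd_set hs
    · rw [indicator_of_notMem hs, indicator_of_notMem]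
      intro h
      apply hs
      obtain ⟨t, ht, hts⟩ := h
      have : t = s := by
        simpa [vadd_eq_add] using hts
      rwa [← this]
  rw [h1]
  calc ∫⁻ s in (r +ᵥ kk V n), G s ∂m
      ≤ ∫⁻ s in (kk V n ∪ ((r +ᵥ kk V n) \ kk V n)), G s ∂m :=
        lintegral_mono_set fun x hx => by
          by_cases h : x ∈ kk V n
          · exact Or.inl h
          · exact Or.inr ⟨hx, h⟩
    _ ≤ ∫⁻ s in kk V n, G s ∂m + ∫⁻ s in ((r +ᵥ kk V n) \ kk V n), G s ∂m :=
        lintegral_union_le _ _ _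
    _ ≤ ∫⁻ s in kk V n, G s ∂m + m ((r +ᵥ kk V n) \ kk V n) := by
        gcongr
        calc ∫⁻ s in ((r +ᵥ kk V n) \ kk V n), G s ∂m
            ≤ ∫⁻ _ in ((r +ᵥ kk V n) \ kk V n), 1 ∂m := lintegral_mono hG1
          _ = m ((r +ᵥ kk V n) \ kk V n) := by simp

end gam

section flow

variable {V : Type*} [MeasurableSpace V] {X : Type*} [MeasurableSpace X]

/-- the average of the images of `μ` under the flow -/
noncomputable def avg (γ : Measure V) (u : V → X → X) (μ : Measure X) : Measure X :=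
  (γ.prod μ).map fun p => u p.1 p.2

variable {u : V → X → X} (hu : Measurable fun p : V × X => u p.1 p.2)

include hu in
lemma meas_u (s : V) : Measurable (u s) := hu.comp measurable_prodMk_left

lemma avg_fin (γ : Measure V) [IsFiniteMeasure γ] (μ : Measure X) [IsFiniteMeasure μ] :
    IsFiniteMeasure (avg γ u μ) := by
  unfold avg
  infer_instance

include hu in
lemma avg_lint (γ : Measure V) (μ : Measure X) [IsFiniteMeasure μ] {H : X → ℝ≥0∞}
    (hH : Measurable H) : ∫⁻ x, H x ∂(avg γ u μ) = ∫⁻ s, ∫⁻ x, H (u s x) ∂μ ∂γ := by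
  unfold avg
  rw [lintegral_map hH hu]
  exact lintegral_prod (fun p : V × X => H (u p.1 p.2)) (hH.comp hu).aemeasurable

include hu in
lemma avg_apply (γ : Measure V) (μ : Measure X) [IsFiniteMeasure μ] {B : Set X}
    (hB : MeasurableSet B) : avg γ u μ B = ∫⁻ s, μ (u s ⁻¹' B) ∂γ := by
  unfold avg
  rw [Measure.map_apply hu hB, Measure.prod_apply (hu hB)]
  rfl

include hu in
lemma meas_G (μ : Measure X) [IsFiniteMeasure μ] {B : Set X} (hB : MeasurableSet B) :
    Measurable fun s => μ (u s ⁻¹' B) :=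
  measurable_measure_prodMk_left (hu hB)

include hu in
lemma meas_H (μ : Measure X) [IsFiniteMeasure μ] {H : X → ℝ≥0∞} (hH : Measurable H) :
    Measurable fun s => ∫⁻ x, H (u s x) ∂μ :=
  (hH.comp hu).lintegral_prod_right'

end flow

section ai

variable {X : Type*} [TopologicalSpace X] [PolishSpace X] [MeasurableSpace X] [BorelSpace X]

/-- almost invariance passes to absolutely continuous measures -/
lemma AI_of_ac' {ρ κ : Measure X} [IsFiniteMeasure ρ] [IsFiniteMeasure κ] (hκ : κ ≪ ρ)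
    {h : ℕ → X → X} (hm : ∀ k, Measurable (h k))
    (hc : ∀ x, Tendsto (fun k => h k x) atTop (𝓝 x))
    (hq : ∀ ε : ℝ, 0 < ε → ∀ᶠ k in atTop, ∀ H : X → ℝ≥0∞, Measurable H → (∀ x, H x ≤ 1) →
      ∫⁻ x, H (h k x) ∂ρ ≤ ∫⁻ x, H x ∂ρ + ENNReal.ofReal ε) :
    AI h κ := by
  intro ε hε
  have hLD : κ.HaveLebesgueDecomposition ρ := Measure.haveLebesgueDecomposition_of_sigmaFinite κ ρ
  set F : X → ℝ := fun x => (κ.rnDeriv ρ x).toReal with hF
  have hFi : Integrable F ρ := Measure.integrable_toReal_rnDeriv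
  have hF0 : ∀ x, 0 ≤ F x := fun x => ENNReal.toReal_nonneg
  have hFs : ∀ s : Set X, ∫ x in s, F x ∂ρ = κ.real s := fun s =>
    Measure.setIntegral_toReal_rnDeriv hκ s
  obtain ⟨g₀, hg₀, hg₀i⟩ := hFi.exists_boundedContinuous_integral_sub_le (ε := ε / 5)
    (by linarith)
  set g : X → ℝ := fun x => max (g₀ x) 0 with hg
  have hgc : Continuous g := g₀.continuous.max continuous_const
  have hg0 : ∀ x, 0 ≤ g x := fun x => le_max_right _ _
  have hgb : ∀ x, ‖g x‖ ≤ ‖g₀‖ := fun x => by
    rw [Real.norm_of_nonneg (hg0 x)]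
    exact max_le ((le_abs_self _).trans (g₀.norm_coe_le_norm x)) (norm_nonneg _)
  have hgi : Integrable g ρ := Integrable.of_bound hgc.aestronglyMeasurable ‖g₀‖
    (ae_of_all _ hgb)
  have hd : ∫ x, |F x - g x| ∂ρ ≤ ε / 5 := by
    refine le_trans (integral_mono (hFi.sub hgi).abs (hFi.sub hg₀i).norm fun x => ?_) hg₀
    change |F x - max (g₀ x) 0| ≤ |F x - g₀ x|
    rcases le_total (g₀ x) 0 with h1 | h1
    · rw [max_eq_right h1, sub_zero]
      rw [abs_of_nonneg (hF0 x), abs_of_nonneg (by linarith [hF0 x])]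
      linarith
    · rw [max_eq_left h1]
  have hdi : Integrable (fun x => |F x - g x|) ρ := (hFi.sub hgi).abs
  have hghi : ∀ k, Integrable (fun x => g (h k x)) ρ := fun k =>
    Integrable.of_bound (hgc.measurable.comp (hm k)).aestronglyMeasurable ‖g₀‖
      (ae_of_all _ fun x => hgb _)
  -- continuity
  have hlim : Tendsto (fun k => ∫ x, |g x - g (h k x)| ∂ρ) atTop (𝓝 0) := by
    have h1 : Tendsto (fun k => ∫ x, |g x - g (h k x)| ∂ρ) atTop (𝓝 (∫ _, (0 : ℝ) ∂ρ)) := by
      refine tendsto_integral_of_dominated_convergence (fun _ => 2 * ‖g₀‖)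
        (fun k => (hgi.sub (hghi k)).abs.aestronglyMeasurable) (integrable_const _)
        (fun k => ae_of_all _ fun x => ?_) (ae_of_all _ fun x => ?_)
      · rw [Real.norm_eq_abs, abs_abs]
        refine (abs_sub _ _).trans ?_
        have := hgb x
        have := hgb (h k x)
        simp only [Real.norm_eq_abs] at *
        linarith
      · have h2 : Tendsto (fun k => g (h k x)) atTop (𝓝 (g x)) := (hgc.tendsto x).comp (hc x)
        have h3 := (tendsto_const_nhds (x := g x)).sub h2
        rw [sub_self] at h3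
        simpa using h3.abs
    simpa using h1
  set M : ℝ := ‖g₀‖ + 1 with hMdef
  have hM : 0 < M := by positivity
  filter_upwards [hq (ε / (5 * M)) (by positivity),
    hlim.eventually (gt_mem_nhds (show (0 : ℝ) < ε / 5 by linarith))] with k hk1 hk2
  intro B hB
  have hB' := hm k hB
  -- step one
  have s1 : κ.real (h k ⁻¹' B) ≤ ∫ x in h k ⁻¹' B, g x ∂ρ + ε / 5 := by
    rw [← hFs]
    have h1 : ∫ x in h k ⁻¹' B, F x ∂ρ ≤ ∫ x in h k ⁻¹' B, (g x + |F x - g x|) ∂ρ :=
      integral_mono hFi.integrableOn (hgi.add hdi).integrableOn fun x => by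
        have := le_abs_self (F x - g x)
        simp only
        linarith
    rw [integral_add hgi.integrableOn hdi.integrableOn] at h1
    have h2 : ∫ x in h k ⁻¹' B, |F x - g x| ∂ρ ≤ ∫ x, |F x - g x| ∂ρ :=
      setIntegral_le_integral hdi (ae_of_all _ fun x => abs_nonneg _)
    linarith
  have s2 : ∫ x in h k ⁻¹' B, g x ∂ρ ≤ ∫ x in h k ⁻¹' B, g (h k x) ∂ρ + ε / 5 := by
    have hi : Integrable (fun x => |g x - g (h k x)|) ρ := (hgi.sub (hghi k)).abs
    have h1 : ∫ x in h k ⁻¹' B, g x ∂ρ ≤ ∫ x in h k ⁻¹' B, (g (h k x) + |g x - g (h k x)|) ∂ρ :=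
      integral_mono hgi.integrableOn ((hghi k).add hi).integrableOn fun x => by
        have := le_abs_self (g x - g (h k x))
        simp only
        linarith
    rw [integral_add (hghi k).integrableOn hi.integrableOn] at h1
    have h2 : ∫ x in h k ⁻¹' B, |g x - g (h k x)| ∂ρ ≤ ∫ x, |g x - g (h k x)| ∂ρ :=
      setIntegral_le_integral hi (ae_of_all _ fun x => abs_nonneg _)
    linarith
  have s3 : ∫ x in h k ⁻¹' B, g (h k x) ∂ρ ≤ ∫ x in B, g x ∂ρ + ε / 5 := by
    set F1 : X → ℝ := fun x => B.indicator g x / M with hF1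
    have f1m : Measurable F1 := (hgc.measurable.indicator hB).div_const M
    have f1n : ∀ x, 0 ≤ F1 x := fun x =>
      div_nonneg (indicator_nonneg (fun y _ => hg0 y) x) hM.le
    have f1b : ∀ x, F1 x ≤ 1 := fun x => by
      change B.indicator g x / M ≤ 1
      rw [div_le_one hM]
      have h1 : B.indicator g x ≤ g x := indicator_le_self' (fun y _ => hg0 y) x
      have h2 := hgb x
      rw [Real.norm_of_nonneg (hg0 x)] at h2
      linarith
    have f1i : Integrable F1 ρ := Integrable.of_bound f1m.aestronglyMeasurable 1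
      (ae_of_all _ fun x => by rw [Real.norm_of_nonneg (f1n x)]; exact f1b x)
    have f1hi : Integrable (fun x => F1 (h k x)) ρ :=
      Integrable.of_bound (f1m.comp (hm k)).aestronglyMeasurable 1
        (ae_of_all _ fun x => by rw [Real.norm_of_nonneg (f1n _)]; exact f1b _)
    have h1 := hk1 (fun x => ENNReal.ofReal (F1 x)) (ENNReal.measurable_ofReal.comp f1m)
      (fun x => ENNReal.ofReal_le_one.2 (f1b x))
    have hi0 : 0 ≤ ∫ x, F1 x ∂ρ := integral_nonneg f1n
    rw [← ofReal_integral_eq_lintegral_ofReal f1hi (ae_of_all _ fun x => f1n _),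
      ← ofReal_integral_eq_lintegral_ofReal f1i (ae_of_all _ f1n),
      ← ENNReal.ofReal_add hi0 (by positivity)] at h1
    have h2 := (ENNReal.ofReal_le_ofReal_iff (by positivity)).1 h1
    have e1 : ∫ x, F1 x ∂ρ = (∫ x in B, g x ∂ρ) / M := by
      rw [← integral_indicator hB, ← integral_div]
    have e2 : ∫ x, F1 (h k x) ∂ρ = (∫ x in h k ⁻¹' B, g (h k x) ∂ρ) / M := by
      rw [← integral_indicator hB', ← integral_div]
      refine integral_congr_ae (ae_of_all _ fun x => ?_)
      change B.indicator g (h k x) / M = (h k ⁻¹' B).indicator (fun x => g (h k x)) x / M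
      by_cases hx : h k x ∈ B
      · rw [indicator_of_mem hx, indicator_of_mem (show x ∈ h k ⁻¹' B from hx)]
      · rw [indicator_of_notMem hx, indicator_of_notMem (show x ∉ h k ⁻¹' B from hx)]
    rw [e1, e2] at h2
    have h3 := mul_le_mul_of_nonneg_right h2 hM.le
    rw [add_mul, div_mul_cancel₀ _ hM.ne', div_mul_cancel₀ _ hM.ne'] at h3
    have h4 : ε / (5 * M) * M = ε / 5 := by field_simp
    linarith
  have s6 : ∫ x in B, g x ∂ρ ≤ κ.real B + ε / 5 := by
    rw [← hFs]
    have h1 : ∫ x in B, g x ∂ρ ≤ ∫ x in B, (F x + |F x - g x|) ∂ρ :=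
      integral_mono hgi.integrableOn (hFi.add hdi).integrableOn fun x => by
        have := neg_abs_le (F x - g x)
        simp only
        linarith
    rw [integral_add hFi.integrableOn hdi.integrableOn] at h1
    have h2 : ∫ x in B, |F x - g x| ∂ρ ≤ ∫ x, |F x - g x| ∂ρ :=
      setIntegral_le_integral hdi (ae_of_all _ fun x => abs_nonneg _)
    linarith
  linarith

end ai

section ergodic

variable {V : Type*} [AddCommGroup V] [TopologicalSpace V] [IsTopologicalAddGroup V]
  [LocallyCompactSpace V] [MeasurableSpace V] [BorelSpace V] [SecondCountableTopology V]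

section null

variable {X : Type*} [MeasurableSpace X] {u : V → X → X}
  (hu : Measurable fun p : V × X => u p.1 p.2) {m : Measure V} [m.IsAddHaarMeasure]

include hu in
lemma avg_null (μ : Measure X) [IsFiniteMeasure μ] {B : Set X}
    (hB : MeasurableSet B) : avg (gam m) u μ B = 0 ↔ ∀ᵐ s ∂m, μ (u s ⁻¹' B) = 0 := by
  rw [avg_apply hu _ μ hB, lintegral_eq_zero_iff (meas_G hu μ hB)]
  exact ⟨fun h => ac_gam.ae_le h, fun h => gam_ac.ae_le h⟩

include hu in
lemma avg_shift (hadd : ∀ s t x, u (s + t) x = u s (u t x)) (μ : Measure X)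
    [IsProbabilityMeasure μ] (r : V) {H : X → ℝ≥0∞} (hH : Measurable H) (hH1 : ∀ x, H x ≤ 1) :
    ∫⁻ x, H (u r x) ∂(avg (gam m) u μ) ≤ ∫⁻ x, H x ∂(avg (gam m) u μ) + err m r := by
  rw [avg_lint hu _ μ hH, avg_lint hu (gam m) μ (H := fun x => H (u r x)) (hH.comp (meas_u hu r))]
  simp_rw [← hadd]
  refine gam_shift (G := fun s => ∫⁻ x, H (u s x) ∂μ) (fun s => ?_) r
  calc ∫⁻ x, H (u s x) ∂μ ≤ ∫⁻ _, 1 ∂μ := lintegral_mono fun x => hH1 _
    _ = 1 := by simp

/-- automorphisms preserve the null sets of Haar measure -/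
lemma null_aut (φ : V ≃ₜ+ V) {N : Set V} (h : m N = 0) :
    m (φ ⁻¹' N) = 0 := by
  have h1 : (m.map φ).IsAddHaarMeasure := φ.isAddHaarMeasure_map m
  have h2 : m.map φ ≪ m := Measure.absolutelyContinuous_isAddHaarMeasure _ _
  have h3 : m.map φ N = m (φ ⁻¹' N) := φ.toHomeomorph.toMeasurableEquiv.map_apply N
  rw [← h3]
  exact h2 h

end null

variable {X : Type*} [TopologicalSpace X] [PolishSpace X] [MeasurableSpace X] [BorelSpace X]

/-- **Overlap along a normalised group gives invariance.** -/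
theorem flow_inv {m : Measure V} [m.IsAddHaarMeasure]
    {u : V → X → X} (huc : Continuous fun p : V × X => u p.1 p.2)
    (hadd : ∀ s t x, u (s + t) x = u s (u t x)) (h0 : ∀ x, u 0 x = x)
    {μ : Measure X} [IsProbabilityMeasure μ] {𝒜 : Set (X → X)}
    (hA : Pres 𝒜 μ) (herg : Erg 𝒜 μ)
    (hn : ∀ f ∈ 𝒜, ∃ φ : V ≃ₜ+ V, ∀ s x, f (u s x) = u (φ s) (f x))
    (hcon : ∀ s : V, ∃ (f g : ℕ → X → X) (r : ℕ → V), Tendsto r atTop (𝓝 0) ∧
      ∀ k, Measurable (f k) ∧ Measurable (g k) ∧ μ.map (f k) = μ ∧ (∀ x, g k (f k x) = x) ∧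
        ∀ x, f k (u s x) = u (r k) (f k x))
    {c : ℝ} (hc : 0 < c) {W : Set V} (hW : m W ≠ 0) (ho : ∀ s ∈ W, Ov c μ (μ.map (u s))) (s : V) :
    μ.map (u s) = μ := by
  have hsec : SecondCountableTopology X := inferInstance
  have hu : Measurable fun p : V × X => u p.1 p.2 := huc.measurable
  have hum := meas_u hu
  have hgf : IsFiniteMeasure (gam m) := gam_fin
  have hfin := avg_fin (u := u) (gam m) μ
  obtain ⟨P, hP, hP1, hP2⟩ := carrier μ (avg (gam m) u μ)
  have hPae : ∀ᵐ s ∂m, μ (u s ⁻¹' Pᶜ) = 0 := (avg_null hu μ hP.compl).1 hP1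
  -- `Pᶜ` is invariant
  have hinv : ∀ f ∈ 𝒜, f ⁻¹' P =ᵐ[μ] P := by
    intro f hf
    obtain ⟨hfm, hfμ⟩ := hA f hf
    obtain ⟨φ, hφ⟩ := hn f hf
    have h1 : avg (gam m) u μ (f ⁻¹' Pᶜ) = 0 := by
      rw [avg_null hu μ (hfm hP.compl)]
      have h2 : ∀ s, μ (u s ⁻¹' (f ⁻¹' Pᶜ)) = μ (u (φ s) ⁻¹' Pᶜ) := fun s => by
        have h3 : u s ⁻¹' (f ⁻¹' Pᶜ) = f ⁻¹' (u (φ s) ⁻¹' Pᶜ) := by
          ext x
          simp [hφ]
        rw [h3, ← Measure.map_apply hfm (hum _ hP.compl), hfμ]
      simp_rw [h2]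
      have h4 : m {s : V | ¬ μ (u s ⁻¹' Pᶜ) = 0} = 0 := hPae
      change m (φ ⁻¹' {s : V | ¬ μ (u s ⁻¹' Pᶜ) = 0}) = 0
      exact null_aut φ h4
    have h5 : μ (f ⁻¹' Pᶜ ∩ P) = 0 := hP2 _ h1
    have h6 : μ (f ⁻¹' Pᶜ) = μ Pᶜ := by rw [← Measure.map_apply hfm hP.compl, hfμ]
    have h7 : f ⁻¹' Pᶜ ≤ᵐ[μ] Pᶜ := by
      have : μ (f ⁻¹' Pᶜ \ Pᶜ) = 0 := by rwa [sdiff_eq, compl_compl]
      exact ae_le_set.2 this
    have h8 : f ⁻¹' Pᶜ =ᵐ[μ] Pᶜ :=
      ae_eq_of_ae_subset_of_measure_ge h7 h6.ge (hfm hP.compl).nullMeasurableSet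
        (measure_ne_top _ _)
    have h9 : ((f ⁻¹' Pᶜ)ᶜ : Set X) =ᵐ[μ] (Pᶜᶜ : Set X) := h8.compl
    have e1 : ((f ⁻¹' Pᶜ)ᶜ : Set X) = f ⁻¹' P := by rw [preimage_compl, compl_compl]
    have e2 : (Pᶜᶜ : Set X) = P := compl_compl P
    rw [e1, e2] at h9
    exact h9
  have hPc : μ Pᶜ = 0 := by
    rcases herg P hP hinv with h1 | h1
    · exfalso
      obtain ⟨s, hsW, hs⟩ : ∃ s ∈ W, μ (u s ⁻¹' Pᶜ) = 0 := by
        by_contra hcon'
        push Not at hcon'
        exact hW (measure_mono_null (fun s hs => hcon' s hs) hPae)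
      have h2 := ho s hsW P hP
      rw [Measure.real, Measure.real, Measure.map_apply (hum s) hP.compl, hs, h1] at h2
      simp at h2
      linarith
    · exact h1
  have hac : μ ≪ avg (gam m) u μ := by
    refine Measure.AbsolutelyContinuous.mk fun A _ hA0 => ?_
    refine measure_mono_null (fun x hx => ?_) (measure_union_null (hP2 A hA0) hPc)
    by_cases h : x ∈ P
    · exact Or.inl ⟨hx, h⟩
    · exact Or.inr h
  obtain ⟨f, g, r, hr, hfg⟩ := hcon s
  have hAI : AI (fun k => u (r k)) μ := by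
    refine AI_of_ac' hac (fun k => hum _) (fun x => ?_) fun ε hε => ?_
    · have h1 : Tendsto (fun k => (r k, x)) atTop (𝓝 ((0 : V), x)) :=
        hr.prodMk_nhds tendsto_const_nhds
      have h2 := (huc.tendsto (0, x)).comp h1
      rw [h0] at h2
      exact h2
    · have h1 : Tendsto (fun k => err m (r k)) atTop (𝓝 0) := err_tendsto.comp hr
      filter_upwards [h1.eventually (gt_mem_nhds (show (0 : ℝ≥0∞) < ENNReal.ofReal ε by
        simpa using hε))] with k hk
      intro H hH hH1
      refine (avg_shift hu hadd μ (r k) hH hH1).trans ?_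
      gcongr
  refine Measure.ext fun B hB => ?_
  rw [Measure.map_apply (hum s) hB]
  refine (ENNReal.toReal_eq_toReal_iff' (measure_ne_top _ _) (measure_ne_top _ _)).1 ?_
  change μ.real (u s ⁻¹' B) = μ.real B
  refine eq_of_abs_sub_nonpos (le_of_forall_pos_le_add fun ε hε => ?_)
  obtain ⟨k, hk⟩ := (AI_both (fun k => hum _) hAI hε).exists
  obtain ⟨hf, hg, hfμ, hgf, hfu⟩ := hfg k
  have h1 := hk _ (hg hB)
  have h2 : μ.real (u (r k) ⁻¹' (g k ⁻¹' B)) = μ.real (u s ⁻¹' B) := by
    have h3 : u s ⁻¹' B = f k ⁻¹' (u (r k) ⁻¹' (g k ⁻¹' B)) := by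
      ext x
      simp only [mem_preimage]
      rw [← hfu, hgf]
    rw [h3, Measure.real, Measure.real, ← Measure.map_apply hf (hum _ (hg hB)), hfμ]
  have h4 : μ.real (g k ⁻¹' B) = μ.real B := by
    have h3 : B = f k ⁻¹' (g k ⁻¹' B) := by
      ext x
      simp only [mem_preimage]
      rw [hgf]
    conv_rhs => rw [h3]
    rw [Measure.real, Measure.real, ← Measure.map_apply hf (hg hB), hfμ]
  rw [h2, h4] at h1
  linarith

/-- **Translates by elements whose conjugates accumulate on a normalised group.** -/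
theorem translates (m : Measure V) [m.IsAddHaarMeasure]
    {G : Type*} [Group G] [TopologicalSpace G] [FirstCountableTopology G] [MulAction G X]
    [ContinuousSMul G X]
    {A : Type*} [Group A] [MulAction A X] [MeasurableConstSMul A X]
    {u : V → G} (hu : Continuous u) (h0 : u 0 = 1) (hadd : ∀ s t, u (s + t) = u s * u t)
    (α : A → G → G) (hα : ∀ (a : A) (g : G) (x : X), a • g • x = α a g • a • x)
    (φ : A → V ≃ₜ+ V) (hφ : ∀ (a : A) (s : V), α a (u s) = u (φ a s))
    (hcon : ∀ t : V, (0 : V) ∈ closure (range fun a => φ a t))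
    (μ ν : Measure X) [IsProbabilityMeasure μ] [IsProbabilityMeasure ν]
    [ErgodicSMul A X μ] [ErgodicSMul A X ν] {g : G}
    (hs : m {s : V | u s ∈ closure (range fun a : A => α a g)} ≠ 0)
    (hns : ¬ μ ⟂ₘ ν.map (fun x => g • x)) :
    μ = ν ∧ ∀ t, μ.map (fun x => u t • x) = μ := by
  have hcg : ∀ g : G, Measurable fun x : X => g • x := fun g =>
    (continuous_const_smul g).measurable
  have hpres : ∀ ρ : Measure X, ErgodicSMul A X ρ →
      Pres {f : X → X | ∃ a : A, f = fun x => a • x} ρ := by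
    rintro ρ hρ f ⟨a, rfl⟩
    exact ⟨measurable_const_smul a, (measurePreserving_smul a ρ).map_eq⟩
  have herg : ∀ ρ : Measure X, ErgodicSMul A X ρ →
      Erg {f : X → X | ∃ a : A, f = fun x => a • x} ρ := by
    intro ρ hρ E hE hf
    have h1 := hρ.aeconst_of_forall_preimage_smul_ae_eq hE (fun a => hf _ ⟨a, rfl⟩)
    rcases eventuallyConst_set.1 h1 with h2 | h2
    · right
      exact h2
    · left
      rw [measure_eq_zero_iff_ae_notMem]
      exact h2
  obtain ⟨c, hc, hov⟩ := exists_Ov hns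
  -- the overlap is invariant under conjugation
  have hconj : ∀ (g : G) (a : A), Ov c μ (ν.map fun x => g • x) →
      Ov c μ (ν.map fun x => α a g • x) := by
    intro g a h
    have hfm : Measurable fun x : X => a • x := measurable_const_smul a
    have h5 := h.map hfm
    rw [(measurePreserving_smul a μ).map_eq, Measure.map_map hfm (hcg g)] at h5
    have e : (fun x : X => a • x) ∘ (fun x => g • x) = (fun x => α a g • x) ∘ fun x => a • x := by
      funext x
      simp only [Function.comp_apply]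
      rw [hα]
    rw [e, ← Measure.map_map (hcg _) hfm, (measurePreserving_smul a ν).map_eq] at h5
    exact h5
  -- and closed
  have hclos : ∀ (S : Set G) (g : G), (∀ h ∈ S, Ov c μ (ν.map fun x => h • x)) → g ∈ closure S →
      Ov c μ (ν.map fun x => g • x) := by
    intro S g hS hg
    obtain ⟨t, ht, htg⟩ := mem_closure_iff_seq_limit.1 hg
    refine ov_closed₂ (h := fun k x => t k • x) (fun k => hcg _) (hcg _) (fun x => ?_)
      (Eventually.of_forall fun k => hS _ (ht k))
    exact htg.smul_const x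
  have hall : ∀ s ∈ {s : V | u s ∈ closure (range fun a : A => α a g)},
      Ov c μ (ν.map fun x => u s • x) := by
    intro s hs
    refine hclos _ _ ?_ hs
    rintro h ⟨a, rfl⟩
    exact hconj g a hov
  obtain ⟨w, hw⟩ := nonempty_of_measure_ne_zero hs
  have hμν : μ = ν := by
    have h1 : Ov c μ (ν.map fun x => u 0 • x) := by
      refine hclos (range fun a : A => u (φ a w)) _ ?_ ?_
      · rintro h ⟨a, rfl⟩
        have h2 := hconj (u w) a (hall w hw)
        rwa [hφ] at h2
      · have h4 : u '' closure (range fun a => φ a w) ⊆ closure (u '' range fun a => φ a w) :=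
          image_closure_subset_closure_image hu
        have h5 := h4 ⟨0, hcon w, rfl⟩
        rwa [← range_comp] at h5
    have h6 : ν.map (fun x => u 0 • x) = ν := by
      rw [h0]
      simp
    rw [h6] at h1
    rcases eq_or_sing (by rw [measure_univ, measure_univ]) (hpres μ inferInstance)
      (hpres ν inferInstance) (hpres μ inferInstance) (hpres ν inferInstance)
      (herg μ inferInstance) (herg ν inferInstance) with h | h
    · exact h
    · exact absurd h (h1.not_sing hc)
  subst hμν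
  refine ⟨rfl, fun t => ?_⟩
  refine flow_inv (m := m) (u := fun s x => u s • x) (V := V)
    ((hu.comp continuous_fst).smul continuous_snd)
    (fun s t x => by rw [hadd, mul_smul]) (fun x => by rw [h0, one_smul])
    (hpres μ inferInstance) (herg μ inferInstance)
    ?_ (fun t => ?_) hc hs hall t
  · rintro f ⟨a, rfl⟩
    refine ⟨φ a, fun s x => ?_⟩
    change a • u s • x = u (φ a s) • a • x
    rw [hα, hφ]
  · obtain ⟨r, hr, hr0⟩ := mem_closure_iff_seq_limit.1 (hcon t)
    choose a ha using hr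
    refine ⟨fun k x => a k • x, fun k x => (a k)⁻¹ • x, r, hr0, fun k => ?_⟩
    refine ⟨measurable_const_smul _, measurable_const_smul _,
      (measurePreserving_smul (a k) μ).map_eq, fun x => inv_smul_smul _ x, fun x => ?_⟩
    change a k • u t • x = u (r k) • (a k • x)
    rw [hα, hφ, ← ha k]

end ergodic

end Pool.Agent.TH277.MR.PB
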