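import Pool.Agent.TH277.MR.P3

/-!
The decomposition theorem gives the dichotomy for ergodic measures and a real flow.
-/

set_option autoImplicit false

open MeasureTheory Filter Topology Set
open scoped ENNReal Pointwise

namespace Pool.Agent.TH277.MR.PB

open Pool.Agent.TH277.MR

section erg

variable {X : Type*} [MeasurableSpace X] {A : Type*} [Group A] [MulAction A X]
  [MeasurableConstSMul A X]

/-- an invariant part of an ergodic measure is zero or everything -/
lemma part_erg {μ : Measure X} [IsProbabilityMeasure μ] [hμ : ErgodicSMul A X μ] {P : Set X}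
    (hP : MeasurableSet P)
    (h : ∀ a : A, (μ.restrict P).map (fun x => a • x) = μ.restrict P) : μ P = 0 ∨ μ Pᶜ = 0 := by
  have h1 : ∀ a : A, (fun x : X => a • x) ⁻¹' P =ᵐ[μ] P := by
    intro a
    have ham : Measurable fun x : X => a • x := measurable_const_smul a
    have haμ : μ.map (fun x => a • x) = μ := (measurePreserving_smul a μ).map_eq
    have h2 : μ (((fun x : X => a • x) ⁻¹' Pᶜ) ∩ P) = 0 := by
      have h3 : (μ.restrict P).map (fun x => a • x) Pᶜ = μ.restrict P Pᶜ := by rw [h a]
      rw [Measure.map_apply ham hP.compl, Measure.restrict_apply (ham hP.compl),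
        Measure.restrict_apply hP.compl] at h3
      rw [h3]
      simp
    have h4 : P ≤ᵐ[μ] (fun x : X => a • x) ⁻¹' P := by
      refine ae_le_set.2 ?_
      rw [← h2]
      congr 1
      ext x
      simp only [Set.mem_sdiff, mem_inter_iff, mem_preimage, mem_compl_iff]
      tauto
    exact (ae_eq_of_ae_subset_of_measure_ge h4
      (by rw [← Measure.map_apply ham hP, haμ]) hP.nullMeasurableSet (measure_ne_top _ _)).symm
  have h5 := hμ.aeconst_of_forall_preimage_smul_ae_eq hP h1
  rcases eventuallyConst_set.1 h5 with h2 | h2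
  · right
    exact h2
  · left
    rw [measure_eq_zero_iff_ae_notMem]
    exact h2

/-- comparable ergodic measures are equal -/
lemma eq_of_ac {μ ν : Measure X} [IsProbabilityMeasure μ] [IsProbabilityMeasure ν]
    [hμ : ErgodicSMul A X μ] [hν : ErgodicSMul A X ν] (h : μ ≪ ν) : μ = ν := by
  have hpres : ∀ ρ : Measure X, ErgodicSMul A X ρ →
      Pres {f : X → X | ∃ a : A, f = fun x => a • x} ρ := by
    rintro ρ hρ f ⟨a, rfl⟩
    exact ⟨measurable_const_smul a, (measurePreserving_smul a ρ).map_eq⟩
  have herg : ∀ ρ : Measure X, ErgodicSMul A X ρ →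
      Erg {f : X → X | ∃ a : A, f = fun x => a • x} ρ := by
    intro ρ hρ E hE hf
    have h1 := hρ.aeconst_of_forall_preimage_smul_ae_eq hE (fun a => hf _ ⟨a, rfl⟩)
    rcases eventuallyConst_set.1 h1 with h2 | h2
    · right
      exact h2
    · left
      rw [measure_eq_zero_iff_ae_notMem]
      exact h2
  rcases eq_or_sing (by rw [measure_univ, measure_univ]) (hpres μ inferInstance)
    (hpres ν inferInstance) (hpres μ inferInstance) (hpres ν inferInstance)
    (herg μ inferInstance) (herg ν inferInstance) with h1 | h1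
  · exact h1
  · exfalso
    obtain ⟨s, hs, h2, h3⟩ := h1
    have h4 : μ sᶜ = 0 := h h3
    have h5 : μ univ ≤ μ s + μ sᶜ := by
      rw [← union_compl_self s]
      exact measure_union_le _ _
    rw [measure_univ, h2, h4] at h5
    simp at h5

end erg

section flow

/-- a real flow as an action of the multiplicative copy of the line -/
@[reducible] def flowAct {X : Type*} (u : ℝ → X → X) (h0 : ∀ x, u 0 x = x)
    (hadd : ∀ s t x, u (s + t) x = u s (u t x)) : MulAction (Multiplicative ℝ) X where
  smul g x := u g.toAdd x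
  one_smul x := h0 x
  mul_smul g h x := hadd g.toAdd h.toAdd x

variable {X : Type*} [TopologicalSpace X] [PolishSpace X] [MeasurableSpace X] [BorelSpace X]
  {A : Type*} [Group A] [MulAction A X] [MeasurableConstSMul A X]

/-- **The dichotomy for a real flow**, from the decomposition theorem. -/
theorem real_flow (u : ℝ → X → X) (hu : Continuous fun p : ℝ × X => u p.1 p.2)
    (h0 : ∀ x, u 0 x = x) (hadd : ∀ s t x, u (s + t) x = u s (u t x))
    (χ : A →* ℝˣ) (hχ : ∀ (a : A) (s : ℝ) (x : X), a • u s x = u ((χ a : ℝ) * s) (a • x))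
    (hd : ∀ r : ℝ, 0 < r → ∀ ε : ℝ, 0 < ε → ∃ a : A, |(χ a : ℝ) - r| < ε)
    (μ ν : Measure X) [IsProbabilityMeasure μ] [IsProbabilityMeasure ν]
    [ErgodicSMul A X μ] [ErgodicSMul A X ν] :
    (μ = ν ∧ ∀ s, μ.map (u s) = μ) ∨ ∀ s, s ≠ 0 → μ ⟂ₘ ν.map (u s) := by
  let _ := flowAct u h0 hadd
  have hcs : ContinuousSMul (Multiplicative ℝ) X :=
    ⟨hu.comp ((continuous_toAdd.comp continuous_fst).prodMk continuous_snd)⟩
  have hcl : ∀ s r : ℝ, 0 ≤ r → r * s ∈ closure (range fun a : A => (χ a : ℝ) * s) := by
    intro s r hr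
    have h1 : r ∈ closure (range fun a : A => (χ a : ℝ)) := by
      rw [Metric.mem_closure_iff]
      intro ε hε
      obtain ⟨a, ha⟩ := hd (r + ε / 2) (by positivity) (ε / 2) (by positivity)
      refine ⟨_, ⟨a, rfl⟩, ?_⟩
      rw [Real.dist_eq, abs_sub_comm]
      have h2 := abs_lt.1 ha
      rw [abs_lt]
      constructor <;> linarith [h2.1, h2.2]
    have h2 : Continuous fun t : ℝ => t * s := continuous_mul_const s
    have h3 := image_closure_subset_closure_image (s := range fun a : A => (χ a : ℝ)) h2
      ⟨r, h1, rfl⟩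
    rwa [← range_comp] at h3
  obtain ⟨P, hP, hPi, hPν, hPu, hPs⟩ := decomp (X := X) (V := ℝ) (A := A) (volume : Measure ℝ)
    (G := Multiplicative ℝ) (fun a g => Multiplicative.ofAdd ((χ a : ℝ) * g.toAdd))
    (fun a g x => hχ a g.toAdd x) (u := Multiplicative.ofAdd) continuous_ofAdd rfl
    (fun s t => rfl)
    (fun a => { AddEquiv.mk' (Equiv.mulLeft₀ (χ a : ℝ) (χ a).ne_zero) (fun x y => mul_add _ _ _)
      with
      continuous_toFun := continuous_const_mul _
      continuous_invFun := continuous_const_mul _ })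
    (fun a s => rfl) (fun t => by
      have := hcl t 0 le_rfl
      rw [zero_mul] at this
      exact this) μ ν
  rcases part_erg (A := A) hP hPi with h | h
  · right
    intro s hs
    have h1 : μ.restrict Pᶜ = μ := Measure.restrict_eq_self_of_ae_mem
      (measure_eq_zero_iff_ae_notMem.1 h)
    have h2 := hPs (Multiplicative.ofAdd s) ?_
    · rw [h1] at h2
      exact h2
    · refine lt_of_lt_of_le ?_ (measure_mono
        (show (fun t => t / s) ⁻¹' Ioi (0 : ℝ) ⊆ _ from fun t ht => ?_))
      · have h3 : IsOpen ((fun t : ℝ => t / s) ⁻¹' Ioi (0 : ℝ)) :=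
          isOpen_Ioi.preimage (continuous_id.div_const s)
        exact h3.measure_pos _ ⟨s, by simp [div_self hs]⟩
      · have h4 := hcl s (t / s) (le_of_lt ht)
        rw [div_mul_cancel₀ _ hs] at h4
        have h5 := image_closure_subset_closure_image
          (s := range fun a : A => (χ a : ℝ) * s) continuous_ofAdd ⟨t, h4, rfl⟩
        rw [← range_comp] at h5
        exact h5
  · left
    have h1 : μ.restrict P = μ := Measure.restrict_eq_self_of_ae_mem (mem_ae_iff.2 h)
    rw [h1] at hPν hPu
    exact ⟨eq_of_ac (A := A) hPν, hPu⟩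

end flow

end Pool.Agent.TH277.MR.PB
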