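import Pool.Agent.TH277.MR.P4

/-!
One Borel set for all translates of a measure along a flow.
-/

set_option autoImplicit false

open MeasureTheory Filter Topology Set
open scoped ENNReal Pointwise

namespace Pool.Agent.TH277.MR.PB

open Pool.Agent.TH277.MR

section usc

variable {X : Type*} [TopologicalSpace X] [MeasurableSpace X] [OpensMeasurableSpace X]
  {Y : Type*} [TopologicalSpace Y]

/-- if a closed set is null for `u t ν`, then its mass tends to zero along translates -/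
lemma mass_zero {ν : Measure X} [IsFiniteMeasure ν] {u : ℝ → X → X}
    (huc : Continuous fun p : ℝ × X => u p.1 p.2) (hum : ∀ s, Measurable (u s)) {C : Set X}
    (hC : IsClosed C) {t : ℝ} (h0 : ν (u t ⁻¹' C) = 0) {tk : ℕ → ℝ}
    (ht : Tendsto tk atTop (𝓝 t)) : Tendsto (fun k => ν (u (tk k) ⁻¹' C)) atTop (𝓝 0) := by
  have h1 : ∀ k, ν (u (tk k) ⁻¹' C) = ∫⁻ x, (u (tk k) ⁻¹' C).indicator 1 x ∂ν := fun k => by
    rw [lintegral_indicator_one (hum _ hC.measurableSet)]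
  simp_rw [h1]
  have h2 : (0 : ℝ≥0∞) = ∫⁻ _, 0 ∂ν := by simp
  rw [h2]
  refine tendsto_lintegral_of_dominated_convergence (fun _ => 1)
    (fun k => measurable_one.indicator (hum _ hC.measurableSet))
    (fun k => ae_of_all _ fun x => indicator_le_self' (fun _ _ => zero_le) x) (by simp) ?_
  filter_upwards [measure_eq_zero_iff_ae_notMem.1 h0] with x hx
  have h3 : Tendsto (fun k => u (tk k) x) atTop (𝓝 (u t x)) := by
    have h4 : Tendsto (fun k => (tk k, x)) atTop (𝓝 (t, x)) :=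
      ht.prodMk_nhds tendsto_const_nhds
    exact (huc.tendsto (t, x)).comp h4
  have h5 : ∀ᶠ k in atTop, u (tk k) x ∈ Cᶜ := h3.eventually (hC.isOpen_compl.mem_nhds hx)
  refine tendsto_const_nhds.congr' ?_
  filter_upwards [h5] with k hk
  rw [indicator_of_notMem (by simpa using hk)]

end usc

section unif

variable {X : Type*} [TopologicalSpace X] [MeasurableSpace X] [OpensMeasurableSpace X]

/-- the uniform measure on the unit interval -/
noncomputable def tau : Measure ℝ := (volume : Measure ℝ).restrict (Ico 0 1)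

instance : IsProbabilityMeasure tau := ⟨by simp [tau]⟩

/-- averages of the mass over a grid of multipliers tend to zero -/
lemma avg_zero {ν : Measure X} [IsFiniteMeasure ν] {u : ℝ → X → X}
    (huc : Continuous fun p : ℝ × X => u p.1 p.2) (hum : ∀ s, Measurable (u s)) {C : Set X}
    (hC : IsClosed C) (h0 : ∀ᵐ t : ℝ, ν (u t ⁻¹' C) = 0)
    (χ : ℕ → ℕ → ℝ) (hχ : ∀ N i, |χ N i - (1 + (i : ℝ) / (N + 1))| < 1 / ((N : ℝ) + 1))
    {s : ℝ} (hs : s ≠ 0) {sk : ℕ → ℝ} (hsk : Tendsto sk atTop (𝓝 s)) {Nk : ℕ → ℕ}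
    (hN : Tendsto Nk atTop atTop) :
    Tendsto (fun k => ∫⁻ θ, ν (u (χ (Nk k) ⌊((Nk k : ℝ) + 1) * θ⌋₊ * sk k) ⁻¹' C) ∂tau)
      atTop (𝓝 0) := by
  have h2 : (0 : ℝ≥0∞) = ∫⁻ _, 0 ∂tau := by simp
  rw [h2]
  have h1n : Tendsto (fun k => 1 / ((Nk k : ℝ) + 1)) atTop (𝓝 0) :=
    tendsto_one_div_add_atTop_nhds_zero_nat.comp hN
  refine tendsto_lintegral_of_dominated_convergence (fun _ => ν univ) (fun k => ?_)
    (fun k => ae_of_all _ fun θ => measure_mono (subset_univ _)) ?_ ?_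
  · have h3 : Measurable fun θ : ℝ => ⌊((Nk k : ℝ) + 1) * θ⌋₊ :=
      Nat.measurable_floor.comp (measurable_const_mul _)
    exact (measurable_of_countable
      (fun i : ℕ => ν (u (χ (Nk k) i * sk k) ⁻¹' C))).comp h3
  · simp
  · have h4 : ∀ᵐ θ : ℝ, ν (u ((1 + θ) * s) ⁻¹' C) = 0 := by
      have h5 : volume {t : ℝ | ¬ ν (u t ⁻¹' C) = 0} = 0 := h0
      change volume ((fun θ : ℝ => 1 + θ) ⁻¹' ((fun y : ℝ => y * s) ⁻¹'
        {t : ℝ | ¬ ν (u t ⁻¹' C) = 0})) = 0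
      rw [measure_preimage_add, Real.volume_preimage_mul_right hs, h5, mul_zero]
    have h6 : ∀ᵐ θ ∂tau, ν (u ((1 + θ) * s) ⁻¹' C) = 0 := ae_restrict_of_ae h4
    have h7 : ∀ᵐ θ ∂tau, θ ∈ Ico (0 : ℝ) 1 := ae_restrict_mem measurableSet_Ico
    filter_upwards [h6, h7] with θ hθ hθ'
    refine mass_zero huc hum hC hθ (Tendsto.mul ?_ hsk)
    rw [tendsto_iff_dist_tendsto_zero]
    have h9 := h1n.const_mul 2
    rw [mul_zero] at h9
    refine squeeze_zero (fun k => dist_nonneg) (fun k => ?_) h9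
    rw [Real.dist_eq]
    have hpos : (0 : ℝ) < (Nk k : ℝ) + 1 := by positivity
    set i := ⌊((Nk k : ℝ) + 1) * θ⌋₊ with hi
    have a1 : (i : ℝ) ≤ ((Nk k : ℝ) + 1) * θ := Nat.floor_le (by have := hθ'.1; positivity)
    have a2 : ((Nk k : ℝ) + 1) * θ < i + 1 := Nat.lt_floor_add_one _
    have a3 : (i : ℝ) / (Nk k + 1) ≤ θ := by
      rw [div_le_iff₀ hpos]
      linarith
    have a4 : θ < (i : ℝ) / (Nk k + 1) + 1 / ((Nk k : ℝ) + 1) := by
      rw [← add_div, lt_div_iff₀ hpos]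
      linarith
    have a5 := abs_lt.1 (hχ (Nk k) i)
    rw [abs_le]
    constructor <;> linarith [a5.1, a5.2]

/-- uniformly on compact sets of non-zero parameters -/
lemma avg_unif {ν : Measure X} [IsFiniteMeasure ν] {u : ℝ → X → X}
    (huc : Continuous fun p : ℝ × X => u p.1 p.2) (hum : ∀ s, Measurable (u s)) {C : Set X}
    (hC : IsClosed C) (h0 : ∀ᵐ t : ℝ, ν (u t ⁻¹' C) = 0)
    (χ : ℕ → ℕ → ℝ) (hχ : ∀ N i, |χ N i - (1 + (i : ℝ) / (N + 1))| < 1 / ((N : ℝ) + 1))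
    {K : Set ℝ} (hK : IsCompact K) (hK0 : (0 : ℝ) ∉ K) {ε : ℝ≥0∞} (hε : ε ≠ 0) :
    ∃ N : ℕ, ∀ s ∈ K, ∫⁻ θ, ν (u (χ N ⌊((N : ℝ) + 1) * θ⌋₊ * s) ⁻¹' C) ∂tau ≤ ε := by
  by_contra hcon
  push Not at hcon
  choose s hsK hs using hcon
  obtain ⟨t, htK, ψ, hψ, ht⟩ := hK.tendsto_subseq hsK
  have ht0 : t ≠ 0 := fun h => hK0 (h ▸ htK)
  have h1 := avg_zero huc hum hC h0 χ hχ ht0 ht hψ.tendsto_atTop
  have h2 : ε ≤ 0 := ge_of_tendsto' h1 fun k => (hs (ψ k)).le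
  exact hε (le_antisymm h2 zero_le)

end unif

section sets

variable {X : Type*} [MeasurableSpace X]

lemma markov {ρ : Measure X} [SFinite ρ] {M : Set (ℝ × X)} (hM : MeasurableSet M) :
    ρ {x | (2 : ℝ≥0∞)⁻¹ ≤ tau ((fun θ => (θ, x)) ⁻¹' M)} ≤
      2 * ∫⁻ θ, ρ (Prod.mk θ ⁻¹' M) ∂tau := by
  have h1 := meas_ge_le_lintegral_div (μ := ρ) (f := fun x => tau ((fun θ => (θ, x)) ⁻¹' M))
    (measurable_measure_prodMk_right hM).aemeasurable (ε := (2 : ℝ≥0∞)⁻¹) (by simp) (by simp)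
  rw [← Measure.prod_apply_symm hM, Measure.prod_apply hM, ENNReal.div_eq_inv_mul, inv_inv] at h1
  exact h1

end sets

section final

variable {X : Type*} [TopologicalSpace X] [PolishSpace X] [MeasurableSpace X] [BorelSpace X]
  {A : Type*} [Group A] [MulAction A X] [MeasurableConstSMul A X]

/-- a set of large mass for `μ` and small mass for all translates of `ν` -/
lemma one_set {u : ℝ → X → X} (huc : Continuous fun p : ℝ × X => u p.1 p.2)
    (χ : A → ℝ) (hχ : ∀ (a : A) (s : ℝ) (x : X), a • u s x = u (χ a * s) (a • x))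
    (b : ℕ → ℕ → A) (hb : ∀ N i, |χ (b N i) - (1 + (i : ℝ) / (N + 1))| < 1 / ((N : ℝ) + 1))
    {μ ν : Measure X} [IsProbabilityMeasure μ] [IsProbabilityMeasure ν]
    [SMulInvariantMeasure A X μ] [SMulInvariantMeasure A X ν] {C : Set X} (hC : IsClosed C)
    (h0 : ∀ᵐ t : ℝ, ν (u t ⁻¹' C) = 0) {K : Set ℝ} (hK : IsCompact K) (hK0 : (0 : ℝ) ∉ K)
    {ε : ℝ≥0∞} (hε : ε ≠ 0) :
    ∃ D : Set X, MeasurableSet D ∧ μ Dᶜ ≤ 2 * μ Cᶜ ∧ ∀ s ∈ K, ν (u s ⁻¹' D) ≤ 2 * ε := by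
  have hum : ∀ s, Measurable (u s) := fun s =>
    (huc.comp (continuous_const.prodMk continuous_id)).measurable
  obtain ⟨N, hN⟩ := avg_unif huc hum hC h0 (fun N i => χ (b N i)) hb hK hK0 hε
  set J : ℝ → A := fun θ => b N ⌊((N : ℝ) + 1) * θ⌋₊ with hJ
  have hJm : Measurable fun p : ℝ × X => J p.1 • p.2 := by
    have h1 : Measurable fun q : ℕ × X => b N q.1 • q.2 :=
      measurable_from_prod_countable_right fun i => measurable_const_smul (b N i)
    have h2 : Measurable fun p : ℝ × X => (⌊((N : ℝ) + 1) * p.1⌋₊, p.2) :=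
      (Nat.measurable_floor.comp ((measurable_const_mul _).comp measurable_fst)).prodMk
        measurable_snd
    exact h1.comp h2
  have hCm := hC.measurableSet
  have hM1 : MeasurableSet {p : ℝ × X | J p.1 • p.2 ∈ Cᶜ} := hJm hCm.compl
  refine ⟨{x | tau ((fun θ => (θ, x)) ⁻¹' {p : ℝ × X | J p.1 • p.2 ∈ Cᶜ}) < 2⁻¹},
    measurableSet_lt (measurable_measure_prodMk_right hM1) measurable_const, ?_, fun s hs => ?_⟩
  · have e : {x | tau ((fun θ => (θ, x)) ⁻¹' {p : ℝ × X | J p.1 • p.2 ∈ Cᶜ}) < 2⁻¹}ᶜ =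
        {x | (2 : ℝ≥0∞)⁻¹ ≤ tau ((fun θ => (θ, x)) ⁻¹' {p : ℝ × X | J p.1 • p.2 ∈ Cᶜ})} := by
      ext x
      simp only [mem_compl_iff, mem_setOf_eq, not_lt]
    rw [e]
    refine (markov hM1).trans ?_
    gcongr
    have h1 : ∀ θ, μ (Prod.mk θ ⁻¹' {p : ℝ × X | J p.1 • p.2 ∈ Cᶜ}) = μ Cᶜ := fun θ =>
      measure_preimage_smul_of_nullMeasurableSet hCm.compl.nullMeasurableSet (J θ)
    simp_rw [h1]
    simp
  · have hM2 : MeasurableSet {p : ℝ × X | J p.1 • u s p.2 ∈ C} :=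
      (hJm.comp (measurable_fst.prodMk ((hum s).comp measurable_snd))) hCm
    calc ν (u s ⁻¹' {x | tau ((fun θ => (θ, x)) ⁻¹' {p : ℝ × X | J p.1 • p.2 ∈ Cᶜ}) < 2⁻¹})
        ≤ ν {x | (2 : ℝ≥0∞)⁻¹ ≤ tau ((fun θ => (θ, x)) ⁻¹' {p : ℝ × X | J p.1 • u s p.2 ∈ C})} := by
          refine measure_mono fun x hx => ?_
          have hx' : tau {θ | J θ • u s x ∈ Cᶜ} < 2⁻¹ := hx
          change (2 : ℝ≥0∞)⁻¹ ≤ tau {θ | J θ • u s x ∈ C}
          by_contra hcon
          push Not at hcon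
          have hmθ : MeasurableSet {θ | J θ • u s x ∈ C} :=
            (hJm.comp (measurable_id.prodMk measurable_const)) hCm
          have h2 : tau {θ | J θ • u s x ∈ C} + tau {θ | J θ • u s x ∈ C}ᶜ = 1 :=
            prob_add_prob_compl hmθ
          have h3 : {θ | J θ • u s x ∈ C}ᶜ = {θ | J θ • u s x ∈ Cᶜ} := rfl
          rw [h3] at h2
          have h4 := ENNReal.add_lt_add hcon hx'
          rw [h2, ENNReal.inv_two_add_inv_two] at h4
          exact lt_irrefl _ h4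
      _ ≤ 2 * ∫⁻ θ, ν (Prod.mk θ ⁻¹' {p : ℝ × X | J p.1 • u s p.2 ∈ C}) ∂tau := markov hM2
      _ = 2 * ∫⁻ θ, ν (u (χ (J θ) * s) ⁻¹' C) ∂tau := by
          congr 1
          refine lintegral_congr fun θ => ?_
          have h5 : Prod.mk θ ⁻¹' {p : ℝ × X | J p.1 • u s p.2 ∈ C} =
              (fun x : X => J θ • x) ⁻¹' (u (χ (J θ) * s) ⁻¹' C) := by
            ext x
            simp only [mem_preimage, mem_setOf_eq]
            rw [hχ]
          rw [h5]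
          exact measure_preimage_smul_of_nullMeasurableSet
            (hum _ hCm).nullMeasurableSet (J θ)
      _ ≤ 2 * ε := by
          gcongr
          exact hN s hs

/-- one Borel set for all translates -/
theorem uniform {u : ℝ → X → X} (huc : Continuous fun p : ℝ × X => u p.1 p.2)
    (χ : A → ℝ) (hχ : ∀ (a : A) (s : ℝ) (x : X), a • u s x = u (χ a * s) (a • x))
    (hd : ∀ r : ℝ, 0 < r → ∀ ε : ℝ, 0 < ε → ∃ a : A, |χ a - r| < ε)
    {μ ν : Measure X} [IsProbabilityMeasure μ] [IsProbabilityMeasure ν]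
    [SMulInvariantMeasure A X μ] [SMulInvariantMeasure A X ν] {B₀ : Set X}
    (hμ0 : μ B₀ᶜ = 0) (h0 : ∀ᵐ t : ℝ, ν (u t ⁻¹' B₀) = 0) :
    ∃ B : Set X, MeasurableSet B ∧ μ Bᶜ = 0 ∧ ∀ s, s ≠ 0 → ν (u s ⁻¹' B) = 0 := by
  choose b hb using fun (N i : ℕ) => hd (1 + (i : ℝ) / (N + 1)) (by positivity)
    (1 / ((N : ℝ) + 1)) (by positivity)
  have hclosed : ∀ n : ℕ, ∃ C : Set X, IsClosed C ∧ C ⊆ B₀ ∧ μ Cᶜ ≤ (2 : ℝ≥0∞)⁻¹ ^ n := by
    intro n
    obtain ⟨U, hU1, hU2, hU3⟩ := Set.exists_isOpen_lt_add (μ := μ) B₀ᶜ (measure_ne_top _ _)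
      (ε := (2 : ℝ≥0∞)⁻¹ ^ n) (pow_ne_zero _ (by simp))
    refine ⟨Uᶜ, hU2.isClosed_compl, fun x hx => ?_, ?_⟩
    · by_contra h
      exact hx (hU1 h)
    · rw [compl_compl]
      rw [hμ0, zero_add] at hU3
      exact hU3.le
  choose C hC hCB hCμ using hclosed
  set K : ℕ → Set ℝ := fun n => Metric.closedBall 0 ((n : ℝ) + 1) \ Metric.ball 0 (1 / ((n : ℝ) + 1))
    with hKdef
  have hK : ∀ n, IsCompact (K n) := fun n => (isCompact_closedBall _ _).diff Metric.isOpen_ball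
  have hK0 : ∀ n, (0 : ℝ) ∉ K n := fun n h => h.2 (Metric.mem_ball_self (by positivity))
  have hD : ∀ n : ℕ, ∃ D : Set X, MeasurableSet D ∧ μ Dᶜ ≤ 2 * μ (C n)ᶜ ∧
      ∀ s ∈ K n, ν (u s ⁻¹' D) ≤ 2 * (2 : ℝ≥0∞)⁻¹ ^ n := fun n =>
    one_set huc χ hχ b hb (hC n) (h0.mono fun t ht =>
      measure_mono_null (preimage_mono (hCB n)) ht) (hK n) (hK0 n) (pow_ne_zero _ (by simp))
  choose D hDm hDμ hDν using hD
  refine ⟨(limsup (fun n => (D n)ᶜ) atTop)ᶜ,
    (MeasurableSet.measurableSet_limsup fun n => (hDm n).compl).compl, ?_, fun s hs => ?_⟩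
  · rw [compl_compl]
    refine measure_limsup_atTop_eq_zero (ne_top_of_le_ne_top (b := 2 * ∑' n : ℕ, (2 : ℝ≥0∞)⁻¹ ^ n)
      ?_ ?_)
    · rw [ENNReal.tsum_geometric, ENNReal.one_sub_inv_two, inv_inv]
      finiteness
    · rw [← ENNReal.tsum_mul_left]
      refine ENNReal.tsum_le_tsum fun n => (hDμ n).trans ?_
      gcongr
      exact hCμ n
  · have hsub : u s ⁻¹' (limsup (fun n => (D n)ᶜ) atTop)ᶜ ⊆
        ⋃ m : ℕ, {x | ∀ n ≥ m, u s x ∈ D n} := by
      intro x hx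
      have h1 : u s x ∉ limsup (fun n => (D n)ᶜ) atTop := hx
      rw [mem_limsup_iff_frequently_mem, not_frequently] at h1
      obtain ⟨m, hm⟩ := eventually_atTop.1 h1
      refine mem_iUnion.2 ⟨m, fun n hn => ?_⟩
      by_contra h
      exact hm n hn h
    refine measure_mono_null hsub (measure_iUnion_null fun m => ?_)
    have h2 : Tendsto (fun n : ℕ => 2 * (2 : ℝ≥0∞)⁻¹ ^ n) atTop (𝓝 (2 * 0)) :=
      ENNReal.Tendsto.const_mul
        (ENNReal.tendsto_pow_atTop_nhds_zero_of_lt_one (by simp)) (Or.inr (by simp))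
    rw [mul_zero] at h2
    refine le_antisymm (ge_of_tendsto h2 ?_) zero_le
    obtain ⟨n₁, hn₁⟩ := exists_nat_gt |s|
    obtain ⟨n₂, hn₂⟩ := exists_nat_gt (1 / |s|)
    filter_upwards [eventually_ge_atTop m, eventually_ge_atTop n₁, eventually_ge_atTop n₂]
      with n hm h1 h3
    refine (measure_mono (show {x | ∀ n ≥ m, u s x ∈ D n} ⊆ u s ⁻¹' D n from
      fun x hx => hx n hm)).trans (hDν n s ⟨?_, fun h => ?_⟩)
    · rw [mem_closedBall_zero_iff, Real.norm_eq_abs]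
      have : (n₁ : ℝ) ≤ n := by exact_mod_cast h1
      linarith
    · rw [mem_ball_zero_iff, Real.norm_eq_abs, lt_div_iff₀ (by positivity)] at h
      have hs' : 0 < |s| := abs_pos.2 hs
      have h4 : (n₂ : ℝ) ≤ n := by exact_mod_cast h3
      rw [div_lt_iff₀ hs'] at hn₂
      nlinarith

end final

end Pool.Agent.TH277.MR.PB
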